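import Pool.Agent.Lib.MP_ecd12e_nt.Sch.Sieve

set_option autoImplicit false

namespace Pool.Agent.Lib.MP_ecd12e_nt.Sch

open Finset Real MeasureTheory
open Pool.Agent.Lib.MP_ecd12e_nt.Bar (ei)

/-- Splitting pairs by their greatest common divisor: `(n, n') ↦ (d, n / d, n' / d)` with
`d = gcd n n'` is a bijection. -/
theorem frac_split {J : Finset ℕ} {B : ℕ} (hJ : ∀ n ∈ J, 1 ≤ n ∧ n ≤ B) (φ : ℝ → ℝ) :
    ∑ n ∈ J, ∑ n' ∈ J, φ (Real.log n - Real.log n') =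
      ∑ d ∈ Icc 1 B, ∑ p ∈ cop J d, φ (lg p) := by
  rw [← sum_product', sum_sigma']
  refine sum_nbij' (fun q : ℕ × ℕ => (⟨Nat.gcd q.1 q.2,
      (q.1 / Nat.gcd q.1 q.2, q.2 / Nat.gcd q.1 q.2)⟩ : Σ _ : ℕ, ℕ × ℕ))
    (fun x => (x.1 * x.2.1, x.1 * x.2.2)) ?_ ?_ ?_ ?_ ?_
  · rintro ⟨a, b⟩ hq
    obtain ⟨ha, hb⟩ := mem_product.1 hq
    have ha1 := hJ a ha
    have hg : 0 < Nat.gcd a b := Nat.gcd_pos_of_pos_left _ ha1.1
    refine mem_sigma.2 ⟨mem_Icc.2 ⟨hg, (Nat.gcd_le_left _ ha1.1).trans ha1.2⟩, ?_⟩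
    refine mem_filter.2 ⟨mem_product.2 ⟨(mem_dv hg).2 ?_, (mem_dv hg).2 ?_⟩,
      Nat.coprime_div_gcd_div_gcd hg⟩
    · simpa [Nat.mul_div_cancel' (Nat.gcd_dvd_left a b)] using ha
    · simpa [Nat.mul_div_cancel' (Nat.gcd_dvd_right a b)] using hb
  · rintro ⟨d, a, b⟩ hx
    obtain ⟨hd, hp⟩ := mem_sigma.1 hx
    have hd1 := (mem_Icc.1 hd).1
    obtain ⟨ha, hb⟩ := mem_product.1 (mem_filter.1 hp).1
    exact mem_product.2 ⟨(mem_dv hd1).1 ha, (mem_dv hd1).1 hb⟩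
  · rintro ⟨a, b⟩ _
    simp only [Nat.mul_div_cancel' (Nat.gcd_dvd_left a b),
      Nat.mul_div_cancel' (Nat.gcd_dvd_right a b)]
  · rintro ⟨d, a, b⟩ hx
    obtain ⟨hd, hp⟩ := mem_sigma.1 hx
    have hd1 : 0 < d := (mem_Icc.1 hd).1
    have hc : Nat.gcd a b = 1 := (mem_filter.1 hp).2
    have hg : Nat.gcd (d * a) (d * b) = d := by rw [Nat.gcd_mul_left, hc, mul_one]
    simp only [hg, Nat.mul_div_cancel_left _ hd1]
  · rintro ⟨a, b⟩ hq
    obtain ⟨ha, hb⟩ := mem_product.1 hq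
    have ha1 := hJ a ha
    have hb1 := hJ b hb
    have hg : 0 < Nat.gcd a b := Nat.gcd_pos_of_pos_left _ ha1.1
    have hg' : ((Nat.gcd a b : ℕ) : ℝ) ≠ 0 := Nat.cast_ne_zero.2 hg.ne'
    have ha' : (a : ℝ) ≠ 0 := Nat.cast_ne_zero.2 (by omega)
    have hb' : (b : ℝ) ≠ 0 := Nat.cast_ne_zero.2 (by omega)
    simp only [lg]
    rw [Nat.cast_div (Nat.gcd_dvd_left a b) hg', Nat.cast_div (Nat.gcd_dvd_right a b) hg',
      Real.log_div ha' hg', Real.log_div hb' hg']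
    congr 1
    ring

/-- `∑ 1 / d ^ 2 ≤ 2`. -/
theorem sum_sq_div_le (L : ℝ) (B : ℕ) : ∑ d ∈ Icc 1 B, (L / d) ^ 2 ≤ 2 * L ^ 2 := by
  have key : ∀ B : ℕ, ∑ d ∈ Icc 1 B, (1 / (d : ℝ)) ^ 2 ≤ 2 - 2 / (2 * (B : ℝ) + 1) := by
    intro B
    induction B with
    | zero => simp
    | succ B ih =>
      rw [sum_Icc_succ_top (by omega)]
      have hB : (0 : ℝ) ≤ B := Nat.cast_nonneg B
      have h1 : (1 / ((B + 1 : ℕ) : ℝ)) ^ 2 ≤ 2 / (2 * B + 1) - 2 / (2 * ((B + 1 : ℕ) : ℝ) + 1) := by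
        push_cast
        rw [div_sub_div _ _ (by positivity) (by positivity), div_pow, div_le_div_iff₀
          (by positivity) (by positivity)]
        nlinarith
      linarith
  have h1 : ∑ d ∈ Icc 1 B, (L / d) ^ 2 = L ^ 2 * ∑ d ∈ Icc 1 B, (1 / (d : ℝ)) ^ 2 := by
    rw [mul_sum]
    refine sum_congr rfl fun d _ => ?_
    ring
  have h2 : (0 : ℝ) ≤ 2 / (2 * B + 1) := by positivity
  rw [h1]
  nlinarith [key B, sq_nonneg L]

/-- The harmonic sum. -/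
theorem sum_div_le {T P L : ℝ} (h : Loss T P) (hL : 0 ≤ L) {B : ℕ} (hB : (B : ℝ) ≤ 100 * T ^ 4) :
    ∑ d ∈ Icc 1 B, L / d ≤ P * L := by
  have h1 : ∑ d ∈ Icc 1 B, L / d = (harmonic B : ℝ) * L := by
    rw [harmonic_eq_sum_Icc]
    push_cast
    rw [sum_mul]
    refine sum_congr rfl fun d _ => ?_
    ring
  have h2 := harmonic_le_one_add_log B
  have h4 : (1 : ℝ) ≤ T ^ 4 := one_le_pow₀ h.hT
  have h3 : Real.log B ≤ Real.log (100 * T ^ 4) := by
    rcases Nat.eq_zero_or_pos B with h0 | h0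
    · rw [h0]
      simpa using Real.log_nonneg (x := 100 * T ^ 4) (by linarith)
    · exact Real.log_le_log (by exact_mod_cast h0) hB
  rw [h1]
  exact mul_le_mul_of_nonneg_right (by linarith [h.lg]) hL

/-- The sieve for reduced fractions: the points `lg p` lie in `[- log 4, log 4]` and are
`1 / D` spaced for `D = (4 L / d) ^ 2` (`lg_gap`, `InI.dv`); `1 + 3 D ≤ 100 T ^ 4`. -/
theorem cop_sieve {T P L H : ℝ} (h : Loss T P) (hL : 0 < L) (hLT : L ≤ T ^ 2) {J : Finset ℕ}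
    (hJ : InI J L 4) {d : ℕ} (hd : 1 ≤ d) (hH : 1 ≤ H) {K : Finset ℤ} (hK : InR K H) (c : ℤ → ℂ) :
    ∑ p ∈ cop J d, ‖tp K c (lg p)‖ ^ 2 ≤ 112 * P * (H + (L / d) ^ 2) * ∑ k ∈ K, ‖c k‖ ^ 2 := by
  have hd' : (1 : ℝ) ≤ d := by exact_mod_cast hd
  have hx : 0 < L / d := by positivity
  have hI := hJ.dv hd
  have hred : ∀ p ∈ cop J d, Red (4 * (L / d)) p := fun p hp => by
    obtain ⟨ha, hb⟩ := mem_product.1 (mem_filter.1 hp).1
    have h1 : (0 : ℝ) < p.1 := hx.trans_le (hI _ ha).1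
    have h2 : (0 : ℝ) < p.2 := hx.trans_le (hI _ hb).1
    exact ⟨(mem_filter.1 hp).2, by exact_mod_cast h1, by exact_mod_cast h2, (hI _ ha).2,
      (hI _ hb).2⟩
  have hl4 : Real.log 4 ≤ 3 / 2 := by
    have : Real.log 4 = 2 * Real.log 2 := by
      rw [show (4 : ℝ) = 2 ^ 2 by norm_num, Real.log_pow]; norm_num
    linarith [Real.log_two_lt_d9]
  have hlog : ∀ a b : ℕ, a ∈ dv J d → b ∈ dv J d → Real.log a - Real.log b ≤ 3 / 2 := by
    intro a b ha hb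
    have h1 : (0 : ℝ) < a := hx.trans_le (hI _ ha).1
    have h2 : (0 : ℝ) < b := hx.trans_le (hI _ hb).1
    have h3 : Real.log a ≤ Real.log (4 * b) :=
      Real.log_le_log h1 (by linarith [(hI _ ha).2, (hI _ hb).1])
    rw [Real.log_mul (by norm_num) h2.ne'] at h3
    linarith
  have hs := sieve (cop J d) lg (D := (4 * (L / d)) ^ 2) (H := H) (by positivity) (by linarith)
    (fun p hp => by
      obtain ⟨ha, hb⟩ := mem_product.1 (mem_filter.1 hp).1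
      unfold lg
      rw [abs_le]
      exact ⟨by linarith [hlog _ _ hb ha], hlog _ _ ha hb⟩)
    (fun p hp q hq hpq => lg_gap (hred p hp) (hred q hq) hpq) K hK c
  refine hs.trans (mul_le_mul_of_nonneg_right ?_ (sum_nonneg fun _ _ => by positivity))
  have hP := h.one_le
  have h4 : (1 : ℝ) ≤ T ^ 4 := one_le_pow₀ h.hT
  have hxT : L / d ≤ T ^ 2 := (div_le_self hL.le hd').trans hLT
  have hx2 : (L / d) ^ 2 ≤ T ^ 4 := by
    calc (L / d) ^ 2 ≤ (T ^ 2) ^ 2 := pow_le_pow_left₀ hx.le hxT 2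
      _ = T ^ 4 := by ring
  have h5 : Real.log (1 + 3 * (4 * (L / d)) ^ 2) ≤ Real.log (100 * T ^ 4) :=
    Real.log_le_log (by positivity) (by nlinarith)
  have h6 : 1 + Real.log (1 + 3 * (4 * (L / d)) ^ 2) ≤ P := by linarith [h.lg]
  have h7 : 7 * (4 * (L / d)) ^ 2 * (1 + Real.log (1 + 3 * (4 * (L / d)) ^ 2)) ≤
      7 * (4 * (L / d)) ^ 2 * P := mul_le_mul_of_nonneg_left h6 (by positivity)
  nlinarith

/-- Fourth moment version: `rr W θ ^ 2 = tp K r θ` for `K` the image of `W × W` under addition and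
`r k` the number of representations; `∑ r k ^ 2 = en W`; `K` lies in `[0, 2 T]`. -/
theorem cop_four {T P L : ℝ} (h : Loss T P) (hL : 0 < L) (hLT : L ≤ T ^ 2) {J : Finset ℕ}
    (hJ : InI J L 4) {d : ℕ} (hd : 1 ≤ d) {W : Finset ℤ} (hW : InR W T) :
    ∑ p ∈ cop J d, ‖rr W (lg p)‖ ^ 4 ≤ 224 * P * (T + (L / d) ^ 2) * en W := by
  classical
  set K : Finset ℤ := (W ×ˢ W).image (fun q => q.1 + q.2) with hKd
  set r : ℤ → ℕ := fun k => ((W ×ˢ W).filter (fun q => q.1 + q.2 = k)).card with hr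
  have hK : InR K (2 * T) := by
    intro k hk
    obtain ⟨q, hq, rfl⟩ := mem_image.1 hk
    obtain ⟨h1, h2⟩ := mem_product.1 hq
    refine ⟨add_nonneg (hW _ h1).1 (hW _ h2).1, ?_⟩
    push_cast
    linarith [(hW _ h1).2, (hW _ h2).2]
  have hsq : ∀ θ : ℝ, rr W θ ^ 2 = tp K (fun k => (r k : ℂ)) θ := by
    intro θ
    have h1 := sum_comp (s := W ×ˢ W) (fun k : ℤ => ei (k * θ)) (fun q => q.1 + q.2)
    unfold tp
    simp only [nsmul_eq_mul] at h1
    rw [← h1, sq, rr, sum_mul_sum, sum_product]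
    refine sum_congr rfl fun a _ => sum_congr rfl fun b _ => ?_
    rw [← Bar.ei_add]
    push_cast
    ring_nf
  have hrk : ∀ k, (r k : ℝ) = ∑ t ∈ W, if k - t ∈ W then (1 : ℝ) else 0 := by
    intro k
    simp only [hr]
    rw [card_filter, sum_product]
    push_cast
    refine sum_congr rfl fun a _ => ?_
    have : ∀ b : ℤ, a + b = k ↔ k - a = b := fun b => by omega
    simp only [this]
    rw [sum_ite_eq]
  have hen : ∑ k ∈ K, ‖(r k : ℂ)‖ ^ 2 = en W := by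
    have h1 := sum_comp (s := W ×ˢ W) (fun k : ℤ => (r k : ℝ)) (fun q => q.1 + q.2)
    simp only [nsmul_eq_mul] at h1
    have h2 : ∑ k ∈ K, ‖(r k : ℂ)‖ ^ 2 = ∑ k ∈ K, (r k : ℝ) * r k :=
      sum_congr rfl fun k _ => by rw [Complex.norm_natCast, sq]
    rw [h2, ← h1, sum_product]
    unfold en wen
    refine sum_congr rfl fun a _ => ?_
    rw [sum_comm]
    refine sum_congr rfl fun b _ => ?_
    rw [hrk]
    simp only [mul_one]
  have h1 := cop_sieve h hL hLT hJ hd (H := 2 * T) (by linarith [h.hT]) hK (fun k => (r k : ℂ))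
  rw [hen] at h1
  have h2 : ∑ p ∈ cop J d, ‖rr W (lg p)‖ ^ 4 =
      ∑ p ∈ cop J d, ‖tp K (fun k => (r k : ℂ)) (lg p)‖ ^ 2 :=
    sum_congr rfl fun p _ => by rw [← hsq, norm_pow]; ring
  rw [h2]
  refine h1.trans (mul_le_mul_of_nonneg_right ?_ (en_nonneg W))
  have hP := h.one_le
  nlinarith [sq_nonneg (L / d), mul_nonneg (zero_le_one.trans hP) (sq_nonneg (L / d))]

/-- The number of coprime pairs (`InI.dv`, `InI.card_le`). -/
theorem card_cop_le {L k : ℝ} (hL : 0 < L) (hk : 0 ≤ k) {J : Finset ℕ} (hJ : InI J L k) {d : ℕ}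
    (hd : 1 ≤ d) : ((cop J d).card : ℝ) ≤ (k * (L / d)) ^ 2 := by
  have hd' : (0 : ℝ) < d := by exact_mod_cast hd
  have h1 := (hJ.dv hd).card_le (by positivity) hk
  have h2 : (cop J d).card ≤ (dv J d).card ^ 2 := by
    rw [sq, ← card_product]
    exact card_filter_le _ _
  calc ((cop J d).card : ℝ) ≤ ((dv J d).card : ℝ) ^ 2 := by exact_mod_cast h2
    _ ≤ _ := pow_le_pow_left₀ (Nat.cast_nonneg _) h1 2

/-- Double zeta sums. Use `frac_split` with `B = ⌊4 L⌋₊`. If `T ≤ (L / d) ^ 2` use `cop_sieve`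
(`rr_eq`); otherwise Cauchy-Schwarz, `card_cop_le` and `cop_four` give
`4 (L / d) √(448 P T E) ≤ 85 P (L / d) Y`. -/
theorem double_sum {T P L : ℝ} (h : Loss T P) (hL : 0 < L) (hLT : L ≤ T ^ 2) {J : Finset ℕ}
    (hJ : InI J L 4) {W : Finset ℤ} (hW : InR W T) :
    ∑ n ∈ J, ∑ n' ∈ J, ‖rr W (Real.log n - Real.log n')‖ ^ 2 ≤
      500 * P ^ 2 * (W.card * L ^ 2 + L * yy T W) := by
  have hP := h.one_le
  have hT := h.hT
  have hY := yy_nonneg T W
  have hE := en_nonneg W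
  have hB : ∀ n ∈ J, 1 ≤ n ∧ n ≤ ⌊4 * L⌋₊ := fun n hn => by
    have h3 : (0 : ℝ) < n := hL.trans_le (hJ n hn).1
    exact ⟨by exact_mod_cast h3, Nat.le_floor (hJ n hn).2⟩
  rw [frac_split hB (fun x => ‖rr W x‖ ^ 2)]
  have hY2 : yy T W ^ 2 = T * en W := Real.sq_sqrt (by positivity)
  have key : ∀ d ∈ Icc 1 ⌊4 * L⌋₊, ∑ p ∈ cop J d, ‖rr W (lg p)‖ ^ 2 ≤
      224 * P * W.card * (L / d) ^ 2 + 85 * P * yy T W * (L / d) := by
    intro d hd
    have hd1 := (mem_Icc.1 hd).1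
    have hd' : (0 : ℝ) < d := by exact_mod_cast hd1
    have hx : 0 < L / d := by positivity
    rcases le_total T ((L / d) ^ 2) with h1 | h1
    · have h2 := cop_sieve h hL hLT hJ hd1 hT hW (fun _ => 1)
      simp only [← rr_eq, norm_one, one_pow, sum_const, nsmul_eq_mul, mul_one] at h2
      have h3 : 112 * P * (T + (L / d) ^ 2) * W.card ≤ 112 * P * ((L / d) ^ 2 + (L / d) ^ 2) * W.card := by
        gcongr
      have h4 : 0 ≤ 85 * P * yy T W * (L / d) := by positivity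
      linarith
    · have h2 := cop_four h hL hLT hJ hd1 hW
      have h3 := card_cop_le hL (by norm_num) hJ hd1
      have h4 := sq_sum_le_card_mul_sum_sq (s := cop J d) (f := fun p => ‖rr W (lg p)‖ ^ 2)
      have h5 : ∑ p ∈ cop J d, (‖rr W (lg p)‖ ^ 2) ^ 2 = ∑ p ∈ cop J d, ‖rr W (lg p)‖ ^ 4 :=
        sum_congr rfl fun p _ => by ring
      rw [h5] at h4
      have h6 : 224 * P * (T + (L / d) ^ 2) * en W ≤ 224 * P * (T + T) * en W := by gcongr
      have h7 : ((cop J d).card : ℝ) * ∑ p ∈ cop J d, ‖rr W (lg p)‖ ^ 4 ≤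
          (4 * (L / d)) ^ 2 * (224 * P * (T + T) * en W) :=
        mul_le_mul h3 (h2.trans h6) (sum_nonneg fun _ _ => by positivity) (by positivity)
      have h8 : (4 * (L / d)) ^ 2 * (224 * P * (T + T) * en W) ≤
          (85 * P * yy T W * (L / d)) ^ 2 := by
        have e1 : (4 * (L / d)) ^ 2 * (224 * P * (T + T) * en W) =
            7168 * P * ((L / d) ^ 2 * (T * en W)) := by ring
        have e2 : (85 * P * yy T W * (L / d)) ^ 2 =
            7225 * P ^ 2 * ((L / d) ^ 2 * (T * en W)) := by rw [← hY2]; ring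
        rw [e1, e2]
        exact mul_le_mul_of_nonneg_right (by nlinarith) (by positivity)
      have h9 : ∑ p ∈ cop J d, ‖rr W (lg p)‖ ^ 2 ≤ 85 * P * yy T W * (L / d) :=
        le_of_pow_le_pow_left₀ two_ne_zero (by positivity) (h4.trans (h7.trans h8))
      have h10 : 0 ≤ 224 * P * W.card * (L / d) ^ 2 := by positivity
      linarith
  refine (sum_le_sum key).trans ?_
  rw [sum_add_distrib, ← mul_sum, ← mul_sum]
  have h1 := sum_sq_div_le L ⌊4 * L⌋₊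
  have h4 : T ^ 2 ≤ T ^ 4 := pow_le_pow_right₀ hT (by norm_num)
  have h2 := sum_div_le h hL.le (B := ⌊4 * L⌋₊) (by
    have := Nat.floor_le (show 0 ≤ 4 * L by positivity)
    nlinarith [sq_nonneg T])
  have h3 : 224 * P * W.card * ∑ d ∈ Icc 1 ⌊4 * L⌋₊, (L / d) ^ 2 ≤
      224 * P * W.card * (2 * L ^ 2) := mul_le_mul_of_nonneg_left h1 (by positivity)
  have h5 : 85 * P * yy T W * ∑ d ∈ Icc 1 ⌊4 * L⌋₊, L / d ≤ 85 * P * yy T W * (P * L) :=
    mul_le_mul_of_nonneg_left h2 (by positivity)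
  have h6 : 448 * P * (W.card * L ^ 2) ≤ 500 * P ^ 2 * (W.card * L ^ 2) :=
    mul_le_mul_of_nonneg_right (by nlinarith) (by positivity)
  have h7 : 0 ≤ P ^ 2 * (L * yy T W) := by positivity
  nlinarith

end Pool.Agent.Lib.MP_ecd12e_nt.Sch
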