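import Pool.Agent.Lib.MP_ecd12e_nt.Sch.Defs

set_option autoImplicit false

namespace Pool.Agent.Lib.MP_ecd12e_nt.Sch

open Finset Real MeasureTheory
open Pool.Agent.Lib.MP_ecd12e_nt.Bar (ei)

lemma swap_key0 {α ι : Type*} (P : Finset α) (I : Finset ι) (g : α → ℝ) (d : ι → ℂ)
    (E : α → ι → ℂ) : ∑ p ∈ P, g p * ‖∑ m ∈ I, d m * E p m‖ ^ 2 ≤
      ∑ m ∈ I, ∑ m' ∈ I, ‖d m‖ * ‖d m'‖ *
        ‖∑ p ∈ P, (g p : ℂ) * (E p m * (starRingEnd ℂ) (E p m'))‖ := by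
  have h4 : ((∑ p ∈ P, g p * ‖∑ m ∈ I, d m * E p m‖ ^ 2 : ℝ) : ℂ) = ∑ m ∈ I, ∑ m' ∈ I,
      d m * (starRingEnd ℂ) (d m') * ∑ p ∈ P, (g p : ℂ) * (E p m * (starRingEnd ℂ) (E p m')) := by
    push_cast
    have : ∀ p ∈ P, (g p : ℂ) * ((‖∑ m ∈ I, d m * E p m‖ : ℂ)) ^ 2 = ∑ m ∈ I, ∑ m' ∈ I,
        d m * (starRingEnd ℂ) (d m') * ((g p : ℂ) * (E p m * (starRingEnd ℂ) (E p m'))) := by
      intro p _
      rw [← Complex.mul_conj', map_sum, sum_mul_sum, mul_sum]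
      refine sum_congr rfl fun m _ => ?_
      rw [mul_sum]
      refine sum_congr rfl fun m' _ => ?_
      rw [map_mul]
      ring
    rw [sum_congr rfl this, sum_comm]
    refine sum_congr rfl fun m _ => ?_
    rw [sum_comm]
    exact sum_congr rfl fun m' _ => (mul_sum _ _ _).symm
  refine (le_abs_self _).trans ?_
  rw [← Real.norm_eq_abs, ← Complex.norm_real, h4]
  refine (norm_sum_le _ _).trans (sum_le_sum fun m _ => ?_)
  refine (norm_sum_le _ _).trans (sum_le_sum fun m' _ => ?_)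
  rw [norm_mul, norm_mul, Complex.norm_conj]

lemma swap_key {α β ι : Type*} (P : Finset α) (Q : Finset β) (I : Finset ι) (d : ι → ℂ)
    (A : α → ι → ℂ) (B : β → ι → ℂ) :
    ∑ p ∈ P, ∑ q ∈ Q, ‖∑ m ∈ I, d m * (A p m * B q m)‖ ^ 2 ≤
      ∑ m ∈ I, ∑ m' ∈ I, ‖d m‖ * ‖d m'‖ * (‖∑ p ∈ P, A p m * (starRingEnd ℂ) (A p m')‖ *
        ‖∑ q ∈ Q, B q m * (starRingEnd ℂ) (B q m')‖) := by
  have h := swap_key0 (P ×ˢ Q) I (fun _ => 1) d fun x m => A x.1 m * B x.2 m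
  simp only [one_mul, Complex.ofReal_one, sum_product] at h
  refine h.trans (le_of_eq (sum_congr rfl fun m _ => sum_congr rfl fun m' _ => ?_))
  rw [← norm_mul, ← norm_mul (∑ p ∈ P, _), sum_mul_sum]
  congr 2
  refine sum_congr rfl fun p _ => sum_congr rfl fun q _ => ?_
  rw [map_mul]
  ring

lemma swap_cs {α β : Type*} (P : Finset α) (Q : Finset β) (f g : α → β → ℝ) :
    ∑ p ∈ P, ∑ q ∈ Q, f p q * g p q ≤
      √(∑ p ∈ P, ∑ q ∈ Q, f p q ^ 2) * √(∑ p ∈ P, ∑ q ∈ Q, g p q ^ 2) := by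
  simpa only [sum_product] using
    Real.sum_mul_le_sqrt_mul_sqrt (P ×ˢ Q) (fun x => f x.1 x.2) fun x => g x.1 x.2

lemma swap_conj {α : Type*} (P : Finset α) (x y : α → ℝ) :
    ‖∑ p ∈ P, ei (-x p) * (starRingEnd ℂ) (ei (-y p))‖ =
      ‖∑ p ∈ P, ei (x p) * (starRingEnd ℂ) (ei (y p))‖ := by
  rw [← Complex.norm_conj, map_sum]
  simp only [map_mul, Bar.conj_ei, neg_neg]

/-- Exchange of summation: the left side equals
`∑ n, ∑ n', a n * conj (a n') * ‖rr W (log n - log n')‖ ^ 2`. -/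
theorem swap_le (W : Finset ℤ) (J : Finset ℕ) (a : ℕ → ℂ) {D : ℝ} (ha : ∀ n ∈ J, ‖a n‖ ≤ D) :
    ∑ t ∈ W, ∑ t' ∈ W, ‖∑ n ∈ J, a n * ei (((t - t' : ℤ) : ℝ) * Real.log n)‖ ^ 2 ≤
      D ^ 2 * ∑ n ∈ J, ∑ n' ∈ J, ‖rr W (Real.log n - Real.log n')‖ ^ 2 := by
  have h := swap_key W W J a (fun t n => ei (t * Real.log n)) fun t n => ei (-(t * Real.log n))
  have h1 : ∀ (t t' : ℤ) (n : ℕ), ei (((t - t' : ℤ) : ℝ) * Real.log n) =
      ei (t * Real.log n) * ei (-(t' * Real.log n)) := fun t t' n => by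
    rw [← Bar.ei_add]
    congr 1
    push_cast
    ring
  simp only [h1]
  refine h.trans ?_
  simp only [mul_sum]
  refine sum_le_sum fun n hn => sum_le_sum fun n' hn' => ?_
  have h2 : ∑ t ∈ W, ei (t * Real.log n) * (starRingEnd ℂ) (ei (t * Real.log n')) =
      rr W (Real.log n - Real.log n') := sum_congr rfl fun t _ => by
    rw [Bar.conj_ei, ← Bar.ei_add]
    congr 1
    ring
  rw [swap_conj, h2, ← sq, sq D]
  exact mul_le_mul_of_nonneg_right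
    (mul_le_mul (ha n hn) (ha n' hn') (norm_nonneg _) ((norm_nonneg _).trans (ha n hn)))
    (sq_nonneg _)

/-- The left side equals `∑ t, ∑ t', x t * conj (x t') * ‖zz I (t - t')‖ ^ 2`; Cauchy-Schwarz over
the pairs `(t, t')`. -/
theorem pair_le (W : Finset ℤ) (I : Finset ℕ) (x : ℤ → ℂ) :
    ∑ a ∈ I, ∑ q ∈ I, ‖tp W x (Real.log a - Real.log q)‖ ^ 2 ≤
      (∑ t ∈ W, ‖x t‖ ^ 2) * √(s4 W I) := by
  have h := swap_key I I W x (fun a t => ei (t * Real.log a)) fun q t => ei (-(t * Real.log q))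
  have h1 : ∀ a q : ℕ, tp W x (Real.log a - Real.log q) =
      ∑ t ∈ W, x t * (ei (t * Real.log a) * ei (-(t * Real.log q))) := fun a q =>
    sum_congr rfl fun t _ => by
      rw [← Bar.ei_add]
      congr 2
      ring
  have h2 : ∀ t t' : ℤ, ∑ a ∈ I, ei (t * Real.log a) * (starRingEnd ℂ) (ei (t' * Real.log a)) =
      zz I (t - t') := fun t t' => sum_congr rfl fun a _ => by
    rw [Bar.conj_ei, ← Bar.ei_add]
    congr 1
    push_cast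
    ring
  simp only [swap_conj, h2] at h
  simp only [h1]
  refine h.trans ((swap_cs W W _ _).trans (le_of_eq ?_))
  congr 1
  · simp only [mul_pow]
    rw [← sum_mul_sum, Real.sqrt_mul_self (sum_nonneg fun _ _ => sq_nonneg _)]
  · congr 1
    exact sum_congr rfl fun t _ => sum_congr rfl fun t' _ => by ring

/-- The majorant `1 ≤ ‖D (u i)‖ ^ 2 / V ^ 2` on `W`; extend the sum to all `i`, expand the square
and use `‖b n‖ ≤ 1`. -/
theorem major {N : ℕ} {T V : ℝ} {b : ℕ → ℂ} {W : Finset ℤ} (h : LV N T V b W) (hV : 0 ≤ V)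
    {ι : Type*} (S : Finset ι) (u : ι → ℤ) (g : ι → ℝ) (hg : ∀ i ∈ S, 0 ≤ g i) :
    V ^ 2 * ∑ i ∈ S, (if u i ∈ W then g i else 0) ≤
      ∑ n ∈ Icc N (2 * N), ∑ n' ∈ Icc N (2 * N),
        ‖∑ i ∈ S, (g i : ℂ) * ei (u i * (Real.log n - Real.log n'))‖ := by
  have h1 := swap_key0 S (Icc N (2 * N)) g b fun i n => ei (u i * Real.log n)
  refine le_trans ?_ (h1.trans (sum_le_sum fun n _ => sum_le_sum fun n' _ => ?_))
  · rw [mul_sum]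
    refine sum_le_sum fun i hi => ?_
    split_ifs with hu
    · rw [mul_comm]
      exact mul_le_mul_of_nonneg_left (pow_le_pow_left₀ hV (h.big _ hu) 2) (hg i hi)
    · rw [mul_zero]
      exact mul_nonneg (hg i hi) (sq_nonneg _)
  · have h2 : ∀ i, ei (u i * Real.log n) * (starRingEnd ℂ) (ei (u i * Real.log n')) =
        ei (u i * (Real.log n - Real.log n')) := fun i => by
      rw [Bar.conj_ei, ← Bar.ei_add]
      congr 1
      ring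
    simp only [h2]
    exact mul_le_of_le_one_left (norm_nonneg _) (mul_le_one₀ (h.hb n) (norm_nonneg _) (h.hb n'))

/-- Cauchy-Schwarz for a trace of three matrices: first over `(m2, m3)`; then
`∑ m2 m3, ‖∑ m1, d1 m1 * A m3 m1 * B m1 m2‖ ^ 2 =
 ∑ m1 m1', d1 m1 * conj (d1 m1') * (∑ m3, A m3 m1 * conj (A m3 m1')) *
   (∑ m2, B m1 m2 * conj (B m1' m2))`, and Cauchy-Schwarz over `(m1, m1')`. -/
theorem schatten (I1 I2 I3 : Finset ℕ) (A B C : ℕ → ℕ → ℂ) (d1 d2 d3 : ℕ → ℂ)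
    (h1 : ∀ m ∈ I1, ‖d1 m‖ ≤ 1) (h2 : ∀ m ∈ I2, ‖d2 m‖ ≤ 1) (h3 : ∀ m ∈ I3, ‖d3 m‖ ≤ 1) :
    ‖∑ m1 ∈ I1, ∑ m2 ∈ I2, ∑ m3 ∈ I3, d1 m1 * d2 m2 * d3 m3 * (A m3 m1 * B m1 m2 * C m2 m3)‖ ≤
      √(∑ m2 ∈ I2, ∑ m3 ∈ I3, ‖C m2 m3‖ ^ 2) *
      √(√(∑ m ∈ I1, ∑ m' ∈ I1, ‖∑ k ∈ I3, A k m * (starRingEnd ℂ) (A k m')‖ ^ 2)) *
      √(√(∑ m ∈ I1, ∑ m' ∈ I1, ‖∑ k ∈ I2, B m k * (starRingEnd ℂ) (B m' k)‖ ^ 2)) := by
  have a1 : ‖∑ m1 ∈ I1, ∑ m2 ∈ I2, ∑ m3 ∈ I3,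
      d1 m1 * d2 m2 * d3 m3 * (A m3 m1 * B m1 m2 * C m2 m3)‖ ≤
      ∑ m2 ∈ I2, ∑ m3 ∈ I3, ‖C m2 m3‖ * ‖∑ m1 ∈ I1, d1 m1 * (B m1 m2 * A m3 m1)‖ := by
    rw [sum_comm]
    refine (norm_sum_le _ _).trans (sum_le_sum fun m2 hm2 => ?_)
    rw [sum_comm]
    refine (norm_sum_le _ _).trans (sum_le_sum fun m3 hm3 => ?_)
    have a2 : ∑ m1 ∈ I1, d1 m1 * d2 m2 * d3 m3 * (A m3 m1 * B m1 m2 * C m2 m3) =
        d2 m2 * d3 m3 * (C m2 m3 * ∑ m1 ∈ I1, d1 m1 * (B m1 m2 * A m3 m1)) := by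
      rw [mul_sum, mul_sum]
      exact sum_congr rfl fun m1 _ => by ring
    rw [a2, norm_mul, norm_mul, norm_mul]
    exact mul_le_of_le_one_left (by positivity)
      (mul_le_one₀ (h2 m2 hm2) (norm_nonneg _) (h3 m3 hm3))
  refine a1.trans ((swap_cs I2 I3 _ _).trans ?_)
  rw [mul_assoc, ← Real.sqrt_mul (Real.sqrt_nonneg _), mul_comm (√(∑ m ∈ I1, _))]
  refine mul_le_mul_of_nonneg_left (Real.sqrt_le_sqrt ?_) (Real.sqrt_nonneg _)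
  refine (swap_key I2 I3 I1 d1 (fun k m => B m k) A).trans (le_trans ?_ (swap_cs I1 I1 _ _))
  exact sum_le_sum fun m hm => sum_le_sum fun m' hm' => mul_le_of_le_one_left (by positivity)
    (mul_le_one₀ (h1 m hm) (norm_nonneg _) (h1 m' hm'))

end Pool.Agent.Lib.MP_ecd12e_nt.Sch
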