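import Pool.Agent.Lib.MP_ecd12e_nt.Sch.Defs

set_option autoImplicit false

namespace Pool.Agent.Lib.MP_ecd12e_nt.Sch

open Finset Real MeasureTheory
open Pool.Agent.Lib.MP_ecd12e_nt.Bar (ei)

theorem orth_one (k : ℤ) (x : ℝ) :
    ∫ θ in x..(x + 2 * π), ei (k * θ) = if k = 0 then (2 * π : ℂ) else 0 := by
  split_ifs with h
  · simp [h, Bar.ei_zero]
  · have e : ∀ θ : ℝ, ei (k * θ) = Complex.exp ((k * Complex.I) * θ) := fun θ => by
      unfold ei
      congr 1
      push_cast
      ring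
    simp_rw [e]
    rw [integral_exp_mul_complex (mul_ne_zero (Int.cast_ne_zero.2 h) Complex.I_ne_zero), ← e, ← e,
      mul_add, Bar.ei_add, mul_comm (k : ℝ) (2 * π), Bar.ei_two_pi_int, mul_one, sub_self, zero_div]

/-- Orthogonality over one period. -/
theorem orth {ι : Type*} (S : Finset ι) (γ : ι → ℂ) (k : ι → ℤ) (x : ℝ) :
    ∫ θ in x..(x + 2 * π), ∑ i ∈ S, γ i * ei (k i * θ) =
      2 * π * ∑ i ∈ S, (if k i = 0 then γ i else 0) := by
  have hc : ∀ i, Continuous fun θ : ℝ => γ i * ei (k i * θ) := fun i =>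
    continuous_const.mul (continuous_ei.comp (continuous_const.mul continuous_id))
  rw [intervalIntegral.integral_finsetSum (f := fun i θ => γ i * ei (k i * θ))
    fun i _ => (hc i).intervalIntegrable _ _, Finset.mul_sum]
  refine Finset.sum_congr rfl fun i _ => ?_
  rw [intervalIntegral.integral_const_mul, orth_one]
  split_ifs
  · rw [mul_comm]
  · rw [mul_zero, mul_zero]

/-- An interval of length `8` lies in two periods. -/
theorem meanLe_of_period {φ : ℝ → ℝ} (hφ : Continuous φ) (h0 : ∀ θ, 0 ≤ φ θ) {B : ℝ}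
    (hB : ∀ x : ℝ, ∫ θ in x..(x + 2 * π), φ θ ≤ B) : MeanLe φ (2 * B) := by
  intro x
  have h1 : x + 8 ≤ x + 2 * π + 2 * π := by linarith [Real.pi_gt_three]
  rw [integral_Icc_eq_integral_Ioc, ← intervalIntegral.integral_of_le (by linarith)]
  have h2 : ∫ θ in x..(x + 8), φ θ ≤ ∫ θ in x..(x + 2 * π + 2 * π), φ θ :=
    intervalIntegral.integral_mono_interval le_rfl (by linarith) h1
      (Filter.Eventually.of_forall h0) (hφ.intervalIntegrable _ _)
  have h3 := intervalIntegral.integral_add_adjacent_intervals (μ := volume) (a := x)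
    (b := x + 2 * π) (c := x + 2 * π + 2 * π)
    (hφ.intervalIntegrable _ _) (hφ.intervalIntegrable _ _)
  linarith [hB x, hB (x + 2 * π)]

theorem continuous_xx (W : Finset ℤ) (I I' : Finset ℕ) : Continuous (xx W I I') := by
  unfold xx
  refine continuous_finsetSum _ fun m _ => continuous_finsetSum _ fun k _ => ?_
  exact ((continuous_rr W).comp (by fun_prop)).norm.pow 2

theorem continuous_aa (W : Finset ℤ) (I I' : Finset ℕ) (s : ℝ) : Continuous (aa W I I' s) := by
  unfold aa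
  refine continuous_finsetSum _ fun m _ => continuous_finsetSum _ fun m' _ => ?_
  refine (continuous_finsetSum _ fun k _ => ?_).norm.pow 2
  exact ((continuous_rr W).comp (by fun_prop)).mul
    (Complex.continuous_conj.comp ((continuous_rr W).comp (by fun_prop)))

theorem orth_real {ι : Type*} {φ : ℝ → ℝ} (S : Finset ι) (γ : ι → ℂ) (k : ι → ℤ)
    (h : ∀ θ, (φ θ : ℂ) = ∑ i ∈ S, γ i * ei (k i * θ)) (x : ℝ) :
    ((∫ θ in x..(x + 2 * π), φ θ : ℝ) : ℂ) = 2 * π * ∑ i ∈ S, (if k i = 0 then γ i else 0) := by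
  rw [← intervalIntegral.integral_ofReal, ← orth S γ k x]
  simp_rw [h]

theorem orth_sq (z : ℂ) : ((‖z‖ ^ 2 : ℝ) : ℂ) = z * (starRingEnd ℂ) z := by
  rw [Complex.mul_conj, Complex.normSq_eq_norm_sq]

theorem orth_rr (W : Finset ℤ) (c x : ℝ) :
    ∫ θ in x..(x + 2 * π), ‖rr W (-θ - c)‖ ^ 2 = 2 * π * W.card := by
  refine Complex.ofReal_injective ?_
  rw [orth_real (W ×ˢ W) (fun p => ei ((p.2 - p.1 : ℤ) * c)) (fun p => p.2 - p.1)]
  · push_cast
    congr 1
    rw [sum_product, card_eq_sum_ones, Nat.cast_sum]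
    refine sum_congr rfl fun t ht => ?_
    simp only [sub_eq_zero]
    rw [sum_ite_eq' W t, if_pos ht]
    simp [Bar.ei_zero]
  · intro θ
    rw [orth_sq, rr, map_sum, sum_mul_sum, sum_product]
    refine sum_congr rfl fun t _ => sum_congr rfl fun u _ => ?_
    rw [Bar.conj_ei, ← Bar.ei_add, ← Bar.ei_add]
    congr 1
    push_cast
    ring

/-- Parseval. -/
theorem mean_xx (W : Finset ℤ) (I I' : Finset ℕ) :
    MeanLe (xx W I I') (4 * π * (I.card * I'.card * W.card)) := by
  have h := meanLe_of_period (continuous_xx W I I') (B := 2 * π * (I.card * I'.card * W.card))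
    (fun θ => sum_nonneg fun _ _ => sum_nonneg fun _ _ => by positivity) fun x => by
      refine le_of_eq ?_
      unfold xx
      have hc : ∀ m k : ℕ, Continuous fun θ : ℝ => ‖rr W (-θ - Real.log k + Real.log m)‖ ^ 2 :=
        fun m k => ((continuous_rr W).comp (by fun_prop)).norm.pow 2
      rw [intervalIntegral.integral_finsetSum fun m _ =>
        (continuous_finsetSum _ fun k _ => hc m k).intervalIntegrable _ _]
      simp_rw [intervalIntegral.integral_finsetSum fun k _ => (hc _ k).intervalIntegrable _ _,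
        sub_add, orth_rr]
      simp only [sum_const, nsmul_eq_mul]
      ring
  convert h using 1
  ring

/-- The zeta sum with a sign. -/
noncomputable def orthZ (s : ℝ) (J : Finset ℕ) (v : ℤ) : ℂ := ∑ m ∈ J, ei (s * v * Real.log m)

theorem orth_conj (s : ℝ) (J : Finset ℕ) (v : ℤ) :
    (starRingEnd ℂ) (orthZ s J v) = orthZ s J (-v) := by
  rw [orthZ, orthZ, map_sum]
  refine sum_congr rfl fun m _ => ?_
  rw [Bar.conj_ei]
  congr 1
  push_cast
  ring

theorem orth_norm {s : ℝ} (hs : s = 1 ∨ s = -1) (J : Finset ℕ) (v : ℤ) :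
    ‖orthZ s J v‖ = ‖zz J v‖ := by
  rcases hs with rfl | rfl
  · simp [orthZ, zz]
  · rw [← norm_zz_neg]
    simp [orthZ, zz]

theorem orth_inner (W : Finset ℤ) (I' : Finset ℕ) (s θ a b : ℝ) :
    ∑ k ∈ I', rr W (θ + s * (Real.log k - a)) *
      (starRingEnd ℂ) (rr W (θ + s * (Real.log k - b))) =
    ∑ p ∈ W ×ˢ W, orthZ s I' (p.1 - p.2) * ei ((p.1 - p.2) * θ - s * p.1 * a + s * p.2 * b) := by
  simp only [orthZ, sum_mul]
  rw [sum_comm]
  refine sum_congr rfl fun k _ => ?_
  rw [rr, rr, map_sum, sum_mul_sum, sum_product]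
  refine sum_congr rfl fun t _ => sum_congr rfl fun u _ => ?_
  rw [Bar.conj_ei, ← Bar.ei_add, ← Bar.ei_add]
  congr 1
  push_cast
  ring

theorem orth_aa (W : Finset ℤ) (I I' : Finset ℕ) (s θ : ℝ) :
    ((aa W I I' s θ : ℝ) : ℂ) = ∑ r ∈ (W ×ˢ W) ×ˢ (W ×ˢ W),
      (orthZ s I' (r.1.1 - r.1.2) * orthZ s I' (r.2.2 - r.2.1) *
        (orthZ s I (r.2.1 - r.1.1) * orthZ s I (r.1.2 - r.2.2))) *
      ei ((r.1.1 - r.1.2 - r.2.1 + r.2.2 : ℤ) * θ) := by
  have e : ((aa W I I' s θ : ℝ) : ℂ) = ∑ mm ∈ I ×ˢ I, ∑ r ∈ (W ×ˢ W) ×ˢ (W ×ˢ W),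
      (orthZ s I' (r.1.1 - r.1.2) * orthZ s I' (r.2.2 - r.2.1) *
        (ei (s * (r.2.1 - r.1.1 : ℤ) * Real.log mm.1) *
          ei (s * (r.1.2 - r.2.2 : ℤ) * Real.log mm.2))) *
      ei ((r.1.1 - r.1.2 - r.2.1 + r.2.2 : ℤ) * θ) := by
    rw [aa, Complex.ofReal_sum, sum_product]
    refine sum_congr rfl fun m _ => ?_
    rw [Complex.ofReal_sum]
    refine sum_congr rfl fun m' _ => ?_
    rw [orth_sq, orth_inner, map_sum, sum_mul_sum, sum_product (W ×ˢ W) (W ×ˢ W)]
    refine sum_congr rfl fun p _ => sum_congr rfl fun q _ => ?_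
    rw [map_mul, orth_conj, Bar.conj_ei, neg_sub, mul_mul_mul_comm, mul_assoc (_ * _),
      ← Bar.ei_add, ← Bar.ei_add, ← Bar.ei_add]
    congr 2
    push_cast
    ring
  rw [e, sum_comm]
  refine sum_congr rfl fun r _ => ?_
  rw [← sum_mul, ← mul_sum, sum_product, orthZ, orthZ, orthZ, orthZ, sum_mul_sum I I]

/-- Expand: `aa W I I' s θ` is the sum over `t, t', u, u' ∈ W` of
`ei ((t - t' - u + u') θ) * Z' (t - t') * conj (Z' (u - u')) * conj (Z (t - u)) * Z (t' - u')`
where `Z v = ∑ m ∈ I, ei (s v log m)` and `Z'` is the same sum over `I'`; for `s = 1` this is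
`zz I v` and for `s = -1` it is `zz I (-v)`. The terms with `u' = u + t' - t` give
`‖zz I' (t' - t)‖ ^ 2 * ‖zz I (u - t)‖ ^ 2` (`norm_zz_neg`); in `wen` take `t1 = t'`, `t2 = t`,
`t3 = u`. -/
theorem mean_aa (W : Finset ℤ) (I I' : Finset ℕ) {s : ℝ} (hs : s = 1 ∨ s = -1) :
    MeanLe (aa W I I' s)
      (4 * π * wen W (fun t => ‖zz I' t‖ ^ 2) (fun t => ‖zz I t‖ ^ 2)) := by
  have h := meanLe_of_period (continuous_aa W I I' s)
    (B := 2 * π * wen W (fun t => ‖zz I' t‖ ^ 2) (fun t => ‖zz I t‖ ^ 2))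
    (fun θ => sum_nonneg fun _ _ => sum_nonneg fun _ _ => by positivity) fun x => by
      refine le_of_eq (Complex.ofReal_injective ?_)
      rw [orth_real _ _ _ (orth_aa W I I' s), Complex.ofReal_mul, Complex.ofReal_mul,
        Complex.ofReal_ofNat]
      congr 1
      rw [sum_product, sum_product, sum_comm, wen, Complex.ofReal_sum]
      refine sum_congr rfl fun t' _ => ?_
      rw [Complex.ofReal_sum]
      refine sum_congr rfl fun t _ => ?_
      rw [Complex.ofReal_sum, sum_product]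
      refine sum_congr rfl fun u _ => ?_
      have e : ∀ u' : ℤ, (t - t' - u + u' = 0) = (u' = t' + u - t) := fun u' =>
        propext ⟨fun h => by omega, fun h => by omega⟩
      simp only [e]
      rw [sum_ite_eq' W (t' + u - t)]
      split_ifs
      · rw [Complex.ofReal_mul, ← orth_norm hs, ← orth_norm hs, orth_sq, orth_sq, orth_conj,
          orth_conj, show t' + u - t - u = t' - t by ring, show t' - (t' + u - t) = -(u - t) by ring,
          show -(t' - t) = t - t' by ring]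
        ring
      · simp
  convert h using 1
  ring

end Pool.Agent.Lib.MP_ecd12e_nt.Sch
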