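import Pool.Agent.Lib.MP_ecd12e_nt.Sch.Defs

set_option autoImplicit false

namespace Pool.Agent.Lib.MP_ecd12e_nt.Sch

open Finset Real MeasureTheory
open Pool.Agent.Lib.MP_ecd12e_nt.Bar (ei)

/-- A set where `k exp a` stays within `δ` of `y` and `|k| exp a ≥ l` has diameter at most
`2 δ / l`, since `exp a' - exp a ≥ exp a * (a' - a)` (`Real.volume_le_diam`, or put the set inside
an interval). -/
theorem slice_vol {k y δ l : ℝ} (hδ : 0 ≤ δ) (hl : 0 < l) {S : Set ℝ}
    (hS : ∀ a ∈ S, |k * Real.exp a - y| ≤ δ ∧ l ≤ |k| * Real.exp a) :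
    volume S ≤ ENNReal.ofReal (2 * δ / l) := by
  have key : ∀ a ∈ S, ∀ a' ∈ S, a ≤ a' → a' - a ≤ 2 * δ / l := by
    intro a ha a' ha' h
    have h1 : Real.exp a * (a' - a) ≤ Real.exp a' - Real.exp a := by
      have h2 : Real.exp a' = Real.exp a * Real.exp (a' - a) := by
        rw [← Real.exp_add, add_sub_cancel]
      have h3 := mul_le_mul_of_nonneg_left (Real.add_one_le_exp (a' - a)) (Real.exp_pos a).le
      linarith
    have h2 : |k| * (Real.exp a' - Real.exp a) ≤ 2 * δ := by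
      have h3 := abs_sub_le (k * Real.exp a') y (k * Real.exp a)
      rw [abs_sub_comm y, ← mul_sub, abs_mul,
        abs_of_nonneg (sub_nonneg.2 (Real.exp_le_exp.2 h))] at h3
      linarith [(hS a ha).1, (hS a' ha').1]
    have h3 := mul_le_mul_of_nonneg_left h1 (abs_nonneg k)
    have h4 := mul_le_mul_of_nonneg_right (hS a ha).2 (sub_nonneg.2 h)
    rw [le_div_iff₀ hl]
    linarith
  refine (Real.volume_le_diam S).trans (Metric.ediam_le fun a ha a' ha' => ?_)
  rw [edist_dist, Real.dist_eq]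
  refine ENNReal.ofReal_le_ofReal ?_
  rcases le_total a a' with h | h
  · rw [abs_sub_comm, abs_of_nonneg (sub_nonneg.2 h)]
    exact key a ha a' ha' h
  · rw [abs_of_nonneg (sub_nonneg.2 h)]
    exact key a' ha' a ha h

/-- A Fubini type bound: if `A ⊆ ℝ × ℝ` is measurable, its second coordinates lie in
`[x, x + 8]` and each slice has measure at most `v`, then the integral of `φ p.2` is at most
`v B`. -/
theorem slice_int {A : Set (ℝ × ℝ)} (hA : MeasurableSet A) {φ : ℝ → ℝ} (hφ : Continuous φ)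
    (h0 : ∀ θ, 0 ≤ φ θ) {B v x : ℝ} (hB : MeanLe φ B) (hv : 0 ≤ v)
    (hx : ∀ p ∈ A, p.2 ∈ Set.Icc x (x + 8))
    (hs : ∀ c : ℝ, volume {a : ℝ | (a, c) ∈ A} ≤ ENNReal.ofReal v) :
    ∫ p in A, φ p.2 ≤ v * B := by
  have hB0 : 0 ≤ B := (integral_nonneg h0).trans (hB x)
  have hm : Measurable fun p : ℝ × ℝ => ENNReal.ofReal (φ p.2) :=
    (hφ.comp continuous_snd).measurable.ennreal_ofReal
  rw [integral_eq_lintegral_of_nonneg_ae (f := fun p : ℝ × ℝ => φ p.2)
    (Filter.Eventually.of_forall fun p => h0 p.2) (hφ.comp continuous_snd).aestronglyMeasurable]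
  refine ENNReal.toReal_le_of_le_ofReal (mul_nonneg hv hB0) ?_
  rw [← lintegral_indicator hA, Measure.volume_eq_prod,
    lintegral_prod_symm _ (hm.indicator hA).aemeasurable]
  have h1 : ∀ c : ℝ, ∫⁻ a : ℝ, A.indicator (fun p => ENNReal.ofReal (φ p.2)) (a, c) ≤
      (Set.Icc x (x + 8)).indicator (fun c => ENNReal.ofReal v * ENNReal.ofReal (φ c)) c := by
    intro c
    have h2 : (fun a : ℝ => A.indicator (fun p => ENNReal.ofReal (φ p.2)) (a, c)) =
        {a : ℝ | (a, c) ∈ A}.indicator fun _ => ENNReal.ofReal (φ c) := rfl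
    rw [h2]
    refine (lintegral_indicator_const_le _ _).trans ?_
    by_cases hc : c ∈ Set.Icc x (x + 8)
    · rw [Set.indicator_of_mem hc, mul_comm]
      exact mul_le_mul_left (hs c) _
    · have h3 : {a : ℝ | (a, c) ∈ A} = ∅ :=
        Set.eq_empty_of_forall_notMem fun a ha => hc (hx _ ha)
      rw [h3, measure_empty, mul_zero]
      exact zero_le
  refine (lintegral_mono h1).trans ?_
  rw [lintegral_indicator measurableSet_Icc, lintegral_const_mul' _ _ ENNReal.ofReal_ne_top,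
    ← ofReal_integral_eq_lintegral_ofReal hφ.continuousOn.integrableOn_Icc
      (Filter.Eventually.of_forall h0), ENNReal.ofReal_mul hv]
  exact mul_le_mul_right (ENNReal.ofReal_le_ofReal (hB x)) _

theorem slice_meas (s1 s2 s3 δ M1 M2 M3 : ℝ) : MeasurableSet (reg s1 s2 s3 δ M1 M2 M3) := by
  have h1 : IsClosed {p : ℝ × ℝ | |lin s1 s2 s3 p| ≤ δ} :=
    isClosed_le (by unfold lin; fun_prop) continuous_const
  have h2 : IsClosed {p : ℝ × ℝ | |p.1 - Real.log (M1 / M3)| ≤ 2} :=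
    isClosed_le (by fun_prop) continuous_const
  have h3 : IsClosed {p : ℝ × ℝ | |p.2 - Real.log (M2 / M3)| ≤ 2} :=
    isClosed_le (by fun_prop) continuous_const
  exact (h1.inter (h2.inter h3)).measurableSet

/-- For fixed `b`, `exp a ≥ exp (-2) M1 / M3`, and `2 exp 2 ≤ 15`. -/
theorem slice_b {s1 s2 s3 δ M1 M2 M3 : ℝ} (h1 : |s1| = 1) (hδ : 0 ≤ δ) (m1 : 0 < M1) (m3 : 0 < M3)
    {φ : ℝ → ℝ} (hφ : Continuous φ) (h0 : ∀ θ, 0 ≤ φ θ) {B : ℝ} (hB : MeanLe φ B) :
    ∫ p in reg s1 s2 s3 δ M1 M2 M3, φ p.2 ≤ 15 * (δ * M3 / M1) * B := by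
  refine slice_int (slice_meas _ _ _ _ _ _ _) hφ h0 hB (by positivity)
    (x := Real.log (M2 / M3) - 4) (fun p hp => ?_) fun c => ?_
  · have h := abs_le.1 hp.2.2
    constructor <;> linarith [h.1, h.2]
  · have he : Real.exp 2 ≤ 15 / 2 := by
      have h2 : Real.exp 2 = Real.exp 1 * Real.exp 1 := by rw [← Real.exp_add]; norm_num
      have h3 := Real.exp_one_lt_d9
      have h4 := Real.exp_pos 1
      nlinarith
    refine (slice_vol (k := s1) (y := -(s2 * Real.exp c + s3)) (l := 2 / 15 * (M1 / M3)) hδ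
      (by positivity) fun a ha => ⟨?_, ?_⟩).trans (le_of_eq ?_)
    · have h : |s1 * Real.exp a + s2 * Real.exp c + s3| ≤ δ := ha.1
      rwa [sub_neg_eq_add, ← add_assoc]
    · have h : |a - Real.log (M1 / M3)| ≤ 2 := ha.2.1
      have h2 : Real.exp (Real.log (M1 / M3)) ≤ Real.exp (2 + a) :=
        Real.exp_le_exp.2 (by linarith [(abs_le.1 h).1])
      rw [Real.exp_log (by positivity), Real.exp_add] at h2
      have h3 := mul_le_mul_of_nonneg_right he (Real.exp_pos a).le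
      rw [h1]
      linarith
    · congr 1
      field_simp

/-- The same with the coordinates exchanged (`integral_prod_swap`, or the measure preserving map
`Prod.swap`). -/
theorem slice_a {s1 s2 s3 δ M1 M2 M3 : ℝ} (h2 : |s2| = 1) (hδ : 0 ≤ δ) (m2 : 0 < M2) (m3 : 0 < M3)
    {φ : ℝ → ℝ} (hφ : Continuous φ) (h0 : ∀ θ, 0 ≤ φ θ) {B : ℝ} (hB : MeanLe φ B) :
    ∫ p in reg s1 s2 s3 δ M1 M2 M3, φ p.1 ≤ 15 * (δ * M3 / M2) * B := by
  have h := (Measure.measurePreserving_swap (μ := (volume : Measure ℝ))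
    (ν := (volume : Measure ℝ))).setIntegral_preimage_emb
    MeasurableEquiv.prodComm.measurableEmbedding (fun p => φ p.2) (reg s2 s1 s3 δ M2 M1 M3)
  have h1 : Prod.swap ⁻¹' reg s2 s1 s3 δ M2 M1 M3 = reg s1 s2 s3 δ M1 M2 M3 := by
    ext p
    simp only [reg, box, lin, Set.mem_preimage, Set.mem_inter_iff, Set.mem_ofPred_eq, Prod.fst_swap,
      Prod.snd_swap, add_comm (s2 * _), and_comm]
  rw [h1] at h
  exact h.le.trans (slice_b h2 hδ m2 m3 hφ h0 hB)

/-- Shear `(a, c) ↦ (a, a + c)` (`measurePreserving_prod_add`). For fixed `c` the form is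
`(s1 + s2 exp c) exp a + s3`, so `|s1 + s2 exp c| exp a ≥ 1 - δ ≥ 1/2`. -/
theorem slice_c {s1 s2 s3 δ M1 M2 M3 : ℝ} (h3 : |s3| = 1) (hδ : 0 ≤ δ) (hδ' : δ ≤ 1 / 2)
    {φ : ℝ → ℝ} (hφ : Continuous φ) (h0 : ∀ θ, 0 ≤ φ θ) {B : ℝ} (hB : MeanLe φ B) :
    ∫ p in reg s1 s2 s3 δ M1 M2 M3, φ (p.2 - p.1) ≤ 4 * δ * B := by
  have h := (measurePreserving_prod_add (volume : Measure ℝ)
    (volume : Measure ℝ)).setIntegral_preimage_emb
    (MeasurableEquiv.shearAddRight ℝ).measurableEmbedding (fun p => φ (p.2 - p.1))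
    (reg s1 s2 s3 δ M1 M2 M3)
  simp only [add_sub_cancel_left] at h
  refine h.ge.trans (slice_int ((slice_meas _ _ _ _ _ _ _).preimage (by fun_prop)) hφ h0 hB
    (by positivity) (x := Real.log (M2 / M3) - Real.log (M1 / M3) - 4) (fun p hp => ?_) fun c => ?_)
  · have h1 : |p.1 - Real.log (M1 / M3)| ≤ 2 := hp.2.1
    have h2 : |p.1 + p.2 - Real.log (M2 / M3)| ≤ 2 := hp.2.2
    rw [abs_le] at h1 h2
    constructor <;> linarith [h1.1, h1.2, h2.1, h2.2]
  · refine (slice_vol (k := s1 + s2 * Real.exp c) (y := -s3) (l := 1 / 2) hδ (by norm_num)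
      fun a ha => ?_).trans (le_of_eq ?_)
    · have h1 : |s1 * Real.exp a + s2 * Real.exp (a + c) + s3| ≤ δ := ha.1
      have h2 : s1 * Real.exp a + s2 * Real.exp (a + c) + s3 =
          (s1 + s2 * Real.exp c) * Real.exp a - -s3 := by
        rw [Real.exp_add]
        ring
      rw [h2] at h1
      refine ⟨h1, ?_⟩
      have h4 := abs_sub_abs_le_abs_sub (-s3) ((s1 + s2 * Real.exp c) * Real.exp a)
      rw [abs_sub_comm, abs_neg, h3, abs_mul, abs_of_pos (Real.exp_pos a)] at h4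
      linarith
    · congr 1
      ring

end Pool.Agent.Lib.MP_ecd12e_nt.Sch
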