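import Pool.Agent.Lib.MP_ecd12e_nt.Sch.RepC
import Pool.Agent.Lib.MP_ecd12e_nt.Sch.Slice
import Pool.Agent.Lib.MP_ecd12e_nt.Sch.Orth
import Pool.Agent.Lib.MP_ecd12e_nt.Sch.Swap

set_option autoImplicit false

namespace Pool.Agent.Lib.MP_ecd12e_nt.Sch

open Finset Real MeasureTheory
open Pool.Agent.Lib.MP_ecd12e_nt.Bar (ei)

lemma block_amgm {X A B l m : ℝ} (hX : 0 ≤ X) (hA : 0 ≤ A) (hB : 0 ≤ B) (hl : 0 < l)
    (hm : 0 < m) : √X * √(√A) * √(√B) ≤ l / 2 * X + (m / (4 * l) * A + 1 / (4 * l * m) * B) := by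
  have e1 := Real.sq_sqrt hX
  have e2 : √(√A) ^ 4 = A := by
    rw [show 4 = 2 * 2 from rfl, pow_mul, Real.sq_sqrt (Real.sqrt_nonneg _), Real.sq_sqrt hA]
  have e3 : √(√B) ^ 4 = B := by
    rw [show 4 = 2 * 2 from rfl, pow_mul, Real.sq_sqrt (Real.sqrt_nonneg _), Real.sq_sqrt hB]
  generalize √X = x at *
  generalize √(√A) = a at *
  generalize √(√B) = b at *
  subst e1 e2 e3
  have h1 : l / 2 * x ^ 2 + (m / (4 * l) * a ^ 4 + 1 / (4 * l * m) * b ^ 4) - x * a * b =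
      (l * x - a * b) ^ 2 / (2 * l) + (m * a ^ 2 - b ^ 2) ^ 2 / (4 * l * m) := by
    field_simp
    ring
  have h2 : 0 ≤ (l * x - a * b) ^ 2 / (2 * l) + (m * a ^ 2 - b ^ 2) ^ 2 / (4 * l * m) := by
    positivity
  linarith

lemma block_xx_nonneg (W : Finset ℤ) (I I' : Finset ℕ) (θ : ℝ) : 0 ≤ xx W I I' θ :=
  sum_nonneg fun _ _ => sum_nonneg fun _ _ => by positivity

lemma block_aa_nonneg (W : Finset ℤ) (I I' : Finset ℕ) (s θ : ℝ) : 0 ≤ aa W I I' s θ :=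
  sum_nonneg fun _ _ => sum_nonneg fun _ _ => by positivity

lemma block_dsum (W : Finset ℤ) (I1 I2 I3 : Finset ℕ) (p : ℝ × ℝ) (d1 d2 d3 : ℕ → ℂ)
    (h1 : ∀ m ∈ I1, ‖d1 m‖ ≤ 1) (h2 : ∀ m ∈ I2, ‖d2 m‖ ≤ 1) (h3 : ∀ m ∈ I3, ‖d3 m‖ ≤ 1) :
    ‖dsum I1 I2 I3 (tp W fun _ => 1) (tp W fun _ => 1) (tp W fun _ => 1) d1 d2 d3 p‖ ≤
      √(xx W I2 I3 p.2) * √(√(aa W I1 I3 1 p.1)) * √(√(aa W I1 I2 (-1) (p.2 - p.1))) := by
  have e : (tp W fun _ => 1) = rr W := funext fun θ => (rr_eq W θ).symm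
  have e1 : ∀ k m : ℕ, p.1 + 1 * (Real.log k - Real.log m) = p.1 - Real.log m + Real.log k :=
    fun k m => by ring
  have e2 : ∀ k m : ℕ, p.2 - p.1 + -1 * (Real.log k - Real.log m) =
      p.2 - p.1 - Real.log k + Real.log m := fun k m => by ring
  rw [e]
  unfold dsum xx aa
  simp only [e1, e2]
  exact schatten I1 I2 I3 (fun k m => rr W (p.1 - Real.log m + Real.log k))
    (fun m k => rr W (p.2 - p.1 - Real.log k + Real.log m))
    (fun m k => rr W (-p.2 - Real.log k + Real.log m)) d1 d2 d3 h1 h2 h3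

lemma block_int {G : ℝ × ℝ → ℝ} (hG : Continuous G) (s1 s2 s3 δ M1 M2 M3 : ℝ) :
    IntegrableOn G (reg s1 s2 s3 δ M1 M2 M3) :=
  (hG.continuousOn.integrableOn_compact (isCompact_box M1 M2 M3)).mono_set Set.inter_subset_right

/-- One block. By `schatten`, `‖dsum‖ ≤ √X √√A √√B` with `X = xx W I2 I3 b`, `A = aa W I1 I3 1 a`,
`B = aa W I1 I2 (-1) (b - a)`. For positive `l, m`:
`√X √√A √√B ≤ l X / 2 + (m A + B / m) / (4 l) =: G`. The slice lemmas with `mean_xx`, `mean_aa`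
and `card I ≤ 2 M` bound the integrals of `X, A, B` over `reg` by positive numbers
`X0 = 240 π δ (M3 / M1) M2 M3 R`, `A0 = 60 π δ (M3 / M2) e3`, `B0 = 16 π δ e2`. Choose
`m = √(B0 / A0)`, `l = √√(A0 B0) / √X0`; the integral of `G` is at most `√X0 √√A0 √√B0`. -/
theorem block_le {w : ℝ → ℝ} (h : Wt w) (j : ℕ) :
    ∃ C : ℝ, 0 ≤ C ∧ ∀ (N : ℕ) (s1 s2 s3 M1 M2 M3 δ e2 e3 : ℝ) (I1 I2 I3 : Finset ℕ)
      (W : Finset ℤ), 1 ≤ N → |s1| = 1 → |s2| = 1 → |s3| = 1 → 0 < M1 → 0 < M2 → 0 < M3 →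
      0 < δ → δ ≤ 1 / 2 → InI I1 M1 2 → InI I2 M2 2 → InI I3 M3 2 → W.Nonempty → 0 < e2 → 0 < e3 →
      wen W (fun t => ‖zz I2 t‖ ^ 2) (fun t => ‖zz I1 t‖ ^ 2) ≤ e2 →
      wen W (fun t => ‖zz I3 t‖ ^ 2) (fun t => ‖zz I1 t‖ ^ 2) ≤ e3 →
      ‖tri (blk w N s1 I1) (blk w N s2 I2) (blk w N s3 I3) W W W
          (fun _ => 1) (fun _ => 1) (fun _ => 1)‖ ≤
        C * (N : ℝ) ^ 3 * (δ * √(M3 / M1 * M2 * M3 * W.card) * √(√(M3 / M2 * e3)) * √(√e2) +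
          M1 * M2 * M3 * (W.card : ℝ) ^ 3 / (δ * M3 * N) ^ j) := by
  obtain ⟨C, hC0, hC⟩ := rep_main h j
  refine ⟨C * (139 * π), by positivity, ?_⟩
  intro N s1 s2 s3 M1 M2 M3 δ e2 e3 I1 I2 I3 W hN a1 a2 a3 m1 m2 m3 hδ hδ' i1 i2 i3 hW he2 he3 w2 w3
  have hR : (0 : ℝ) < W.card := by exact_mod_cast hW.card_pos
  have hπ := Real.pi_pos
  obtain ⟨x, hx⟩ : ∃ x, x = √(M3 / M1 * M2 * M3 * W.card) := ⟨_, rfl⟩
  obtain ⟨a, ha⟩ : ∃ a, a = √(√(M3 / M2 * e3)) := ⟨_, rfl⟩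
  obtain ⟨b, hb⟩ : ∃ b, b = √(√e2) := ⟨_, rfl⟩
  have x0 : 0 < x := by rw [hx]; positivity
  have a0 : 0 < a := by rw [ha]; positivity
  have b0 : 0 < b := by rw [hb]; positivity
  have ex : x ^ 2 = M3 / M1 * M2 * M3 * W.card := by rw [hx, Real.sq_sqrt (by positivity)]
  have ea : a ^ 4 = M3 / M2 * e3 := by
    rw [ha, show 4 = 2 * 2 from rfl, pow_mul, Real.sq_sqrt (Real.sqrt_nonneg _),
      Real.sq_sqrt (by positivity)]
  have eb : b ^ 4 = e2 := by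
    rw [hb, show 4 = 2 * 2 from rfl, pow_mul, Real.sq_sqrt (Real.sqrt_nonneg _),
      Real.sq_sqrt he2.le]
  rw [← hx, ← ha, ← hb]
  obtain ⟨l, hl⟩ : ∃ l, l = a * b / x := ⟨_, rfl⟩
  obtain ⟨m, hm⟩ : ∃ m, m = b ^ 2 / a ^ 2 := ⟨_, rfl⟩
  have l0 : 0 < l := by rw [hl]; positivity
  have m0 : 0 < m := by rw [hm]; positivity
  have c1 : Continuous fun p : ℝ × ℝ => xx W I2 I3 p.2 :=
    (continuous_xx W I2 I3).comp continuous_snd
  have c2 : Continuous fun p : ℝ × ℝ => aa W I1 I3 1 p.1 :=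
    (continuous_aa W I1 I3 1).comp continuous_fst
  have c3 : Continuous fun p : ℝ × ℝ => aa W I1 I2 (-1) (p.2 - p.1) :=
    (continuous_aa W I1 I2 (-1)).comp (continuous_snd.sub continuous_fst)
  have k1 : Continuous fun p : ℝ × ℝ => l / 2 * xx W I2 I3 p.2 := continuous_const.mul c1
  have k2 : Continuous fun p : ℝ × ℝ => m / (4 * l) * aa W I1 I3 1 p.1 := continuous_const.mul c2
  have k3 : Continuous fun p : ℝ × ℝ => 1 / (4 * l * m) * aa W I1 I2 (-1) (p.2 - p.1) :=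
    continuous_const.mul c3
  have k4 : Continuous fun p : ℝ × ℝ => m / (4 * l) * aa W I1 I3 1 p.1 +
      1 / (4 * l * m) * aa W I1 I2 (-1) (p.2 - p.1) := k2.add k3
  have h1 := hC N s1 s2 s3 M1 M2 M3 δ I1 I2 I3 W W W (fun _ => 1) (fun _ => 1) (fun _ => 1)
    (fun p => l / 2 * xx W I2 I3 p.2 + (m / (4 * l) * aa W I1 I3 1 p.1 +
      1 / (4 * l * m) * aa W I1 I2 (-1) (p.2 - p.1))) hN m1 m2 m3 hδ i1 i2 i3 (k1.add k4)
    (fun p d1 d2 d3 h1 h2 h3 => (block_dsum W I1 I2 I3 p d1 d2 d3 h1 h2 h3).trans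
      (block_amgm (block_xx_nonneg _ _ _ _) (block_aa_nonneg _ _ _ _ _) (block_aa_nonneg _ _ _ _ _)
        l0 m0))
  rw [integral_add (block_int k1 ..) (block_int k4 ..),
    integral_add (block_int k2 ..) (block_int k3 ..), integral_const_mul, integral_const_mul,
    integral_const_mul] at h1
  have b1 := slice_b (s2 := s2) (s3 := s3) (M2 := M2) a1 hδ.le m1 m3 (continuous_xx W I2 I3)
    (block_xx_nonneg W I2 I3) (mean_xx W I2 I3)
  have b2 := slice_a (s1 := s1) (s3 := s3) (M1 := M1) a2 hδ.le m2 m3 (continuous_aa W I1 I3 1)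
    (block_aa_nonneg W I1 I3 1) (mean_aa W I1 I3 (Or.inl rfl))
  have b3 := slice_c (s1 := s1) (s2 := s2) (M1 := M1) (M2 := M2) (M3 := M3) a3 hδ.le hδ'
    (continuous_aa W I1 I2 (-1)) (block_aa_nonneg W I1 I2 (-1)) (mean_aa W I1 I2 (Or.inr rfl))
  have n1 : (I2.card : ℝ) * I3.card * W.card ≤ 2 * M2 * (2 * M3) * W.card :=
    mul_le_mul_of_nonneg_right (mul_le_mul (i2.card_le m2 zero_le_two) (i3.card_le m3 zero_le_two)
      (Nat.cast_nonneg _) (by positivity)) hR.le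
  have d1 : ∫ p in reg s1 s2 s3 δ M1 M2 M3, xx W I2 I3 p.2 ≤ 240 * π * δ * x ^ 2 := by
    refine b1.trans ((mul_le_mul_of_nonneg_left (mul_le_mul_of_nonneg_left n1 (by positivity))
      (by positivity)).trans (le_of_eq ?_))
    rw [ex]
    ring
  have d2 : ∫ p in reg s1 s2 s3 δ M1 M2 M3, aa W I1 I3 1 p.1 ≤ 60 * π * δ * a ^ 4 := by
    refine b2.trans ((mul_le_mul_of_nonneg_left (mul_le_mul_of_nonneg_left w3 (by positivity))
      (by positivity)).trans (le_of_eq ?_))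
    rw [ea]
    ring
  have d3 : ∫ p in reg s1 s2 s3 δ M1 M2 M3, aa W I1 I2 (-1) (p.2 - p.1) ≤
      16 * π * δ * b ^ 4 := by
    refine b3.trans ((mul_le_mul_of_nonneg_left (mul_le_mul_of_nonneg_left w2 (by positivity))
      (by positivity)).trans (le_of_eq ?_))
    rw [eb]
    ring
  have f1 := mul_le_mul_of_nonneg_left d1 (show 0 ≤ l / 2 by positivity)
  have f2 := mul_le_mul_of_nonneg_left d2 (show 0 ≤ m / (4 * l) by positivity)
  have f3 := mul_le_mul_of_nonneg_left d3 (show 0 ≤ 1 / (4 * l * m) by positivity)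
  have f4 : l / 2 * (240 * π * δ * x ^ 2) + (m / (4 * l) * (60 * π * δ * a ^ 4) +
      1 / (4 * l * m) * (16 * π * δ * b ^ 4)) = 139 * π * (δ * x * a * b) := by
    rw [hl, hm]
    field_simp
    ring
  have f5 : (∑ _t ∈ W, ‖(1 : ℂ)‖) * (∑ _t ∈ W, ‖(1 : ℂ)‖) * ∑ _t ∈ W, ‖(1 : ℂ)‖ =
      (W.card : ℝ) ^ 3 := by
    simp only [norm_one, sum_const, nsmul_eq_mul, mul_one]
    ring
  rw [f5] at h1
  have f6 : 0 ≤ M1 * M2 * M3 * (W.card : ℝ) ^ 3 / (δ * M3 * N) ^ j := by positivity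
  generalize M1 * M2 * M3 * (W.card : ℝ) ^ 3 / (δ * M3 * N) ^ j = F at h1 f6 ⊢
  have f7 : F ≤ 139 * π * F := le_mul_of_one_le_left f6 (by linarith [Real.pi_gt_three])
  refine h1.trans ?_
  rw [show C * (139 * π) * (N : ℝ) ^ 3 * (δ * x * a * b + F) =
    C * (N : ℝ) ^ 3 * (139 * π * (δ * x * a * b) + 139 * π * F) by ring]
  exact mul_le_mul_of_nonneg_left (by linarith) (by positivity)

end Pool.Agent.Lib.MP_ecd12e_nt.Sch
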