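import Pool.Agent.Lib.MP_ecd12e_nt.Sch.Final
import Pool.Agent.Lib.MP_ecd12e_nt.GM.Real

/-! The two large value estimates together, for all levels and for well spaced real points. -/

set_option autoImplicit false

namespace Pool.Agent.Lib.MP_ecd12e_nt.Sch

open Finset Real
open Pool.Agent.Lib.MP_ecd12e_nt.Bar (ei)
open Pool.Agent.Lib.MP_ecd12e_nt.GM (DD Real_b Real_b_le Real_exists Real_norm Fin_norm_DD)

/-- The second bound. -/
noncomputable def bb (N T V : ℝ) : ℝ :=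
  N ^ 3 / V ^ 3 + T ^ (5 / 9 : ℝ) * N ^ (8 / 3 : ℝ) / V ^ (32 / 9 : ℝ) +
    T ^ (8 / 11 : ℝ) * N ^ (32 / 11 : ℝ) / V ^ (46 / 11 : ℝ) +
    T * N ^ 2 / V ^ (7 / 2 : ℝ) + T * N ^ (10 / 3 : ℝ) / V ^ (16 / 3 : ℝ)

lemma both_nonneg {N T V : ℝ} (hN : 0 ≤ N) (hT : 0 ≤ T) (hV : 0 ≤ V) : 0 ≤ bb N T V := by
  unfold bb
  positivity

lemma both_term {V q K a X : ℝ} (hV : 0 < V) (hq : 0 < q) (hqK : q ≤ K) (hK : 1 ≤ K) (ha1 : 1 ≤ a)
    (ha : a ≤ 6) (hX : 0 ≤ X) : X / (V / q) ^ a ≤ q * K ^ 5 * (X / V ^ a) := by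
  have h1 : q ^ a ≤ q * K ^ 5 := by
    have e : q ^ a = q * q ^ (a - 1) := by
      rw [Real.rpow_sub_one hq.ne']
      field_simp
    rw [e]
    refine mul_le_mul_of_nonneg_left ?_ hq.le
    calc q ^ (a - 1) ≤ K ^ (a - 1) := Real.rpow_le_rpow hq.le hqK (by linarith)
      _ ≤ K ^ ((5 : ℕ) : ℝ) := Real.rpow_le_rpow_of_exponent_le hK (by push_cast; linarith)
      _ = K ^ 5 := Real.rpow_natCast K 5
  have h2 : 0 < V ^ a := Real.rpow_pos_of_pos hV a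
  have h3 : 0 < q ^ a := Real.rpow_pos_of_pos hq a
  rw [Real.div_rpow hV.le hq.le]
  calc X / (V ^ a / q ^ a) = q ^ a * (X / V ^ a) := by field_simp
    _ ≤ _ := mul_le_mul_of_nonneg_right h1 (by positivity)

lemma both_scale {N T V q K : ℝ} (hN : 0 ≤ N) (hT : 0 ≤ T) (hV : 0 < V) (hq : 0 < q) (hqK : q ≤ K)
    (hK : 1 ≤ K) : bb N T (V / q) ≤ q * K ^ 5 * bb N T V := by
  have h1 := both_term (a := 3) (X := N ^ 3) hV hq hqK hK (by norm_num) (by norm_num)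
    (by positivity)
  have h2 := both_term (a := 32 / 9) (X := T ^ (5 / 9 : ℝ) * N ^ (8 / 3 : ℝ)) hV hq hqK hK
    (by norm_num) (by norm_num) (by positivity)
  have h3 := both_term (a := 46 / 11) (X := T ^ (8 / 11 : ℝ) * N ^ (32 / 11 : ℝ)) hV hq hqK hK
    (by norm_num) (by norm_num) (by positivity)
  have h4 := both_term (a := 7 / 2) (X := T * N ^ 2) hV hq hqK hK
    (by norm_num) (by norm_num) (by positivity)
  have h5 := both_term (a := 16 / 3) (X := T * N ^ (10 / 3 : ℝ)) hV hq hqK hK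
    (by norm_num) (by norm_num) (by positivity)
  have e1 : ∀ x : ℝ, x ^ (3 : ℝ) = x ^ 3 := fun x => by exact_mod_cast Real.rpow_natCast x 3
  rw [e1, e1] at h1
  unfold bb
  linarith

lemma both_pow {N T σ : ℝ} (hN : 0 < N) :
    bb N T (N ^ σ) = N ^ (3 - 3 * σ) + T ^ (5 / 9 : ℝ) * N ^ ((24 - 32 * σ) / 9) +
      T ^ (8 / 11 : ℝ) * N ^ ((32 - 46 * σ) / 11) + T * N ^ (2 - 7 * σ / 2) +
      T * N ^ ((10 - 16 * σ) / 3) := by
  have key : ∀ a c : ℝ, N ^ c / (N ^ σ) ^ a = N ^ (c - a * σ) := fun a c => by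
    rw [← Real.rpow_mul hN.le, ← Real.rpow_sub hN, mul_comm]
  have e3 : ∀ x : ℝ, x ^ 3 = x ^ (3 : ℝ) := fun x => by exact_mod_cast (Real.rpow_natCast x 3).symm
  have e2 : N ^ 2 = N ^ (2 : ℝ) := by exact_mod_cast (Real.rpow_natCast N 2).symm
  unfold bb
  rw [e3 N, e3 (N ^ σ), e2, mul_div_assoc, mul_div_assoc, mul_div_assoc, mul_div_assoc, key, key,
    key, key, key]
  congr 1
  · congr 1
    · congr 1
      · congr 1
        congr 2
        ring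
      · congr 2
        ring
    · congr 2
      ring
  · congr 2
    ring

/-- For low levels the first bound implies the second. -/
lemma both_low {N T V : ℝ} (hN : 1 ≤ N) (hT : N ≤ T) (hV : 0 < V) (h : V ≤ N ^ (7 / 10 : ℝ)) :
    N ^ 2 / V ^ 2 + √(min T (N ^ (88 / 73 : ℝ))) * N ^ 3 / V ^ 4 + T * N ^ (175 / 73 : ℝ) / V ^ 4
      ≤ 2 * bb N T V := by
  have hN0 : 0 < N := by linarith
  have hT0 : 0 < T := by linarith
  obtain ⟨n, rfl⟩ : ∃ n, N = Real.exp n := ⟨Real.log N, (Real.exp_log hN0).symm⟩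
  obtain ⟨t, rfl⟩ : ∃ t, T = Real.exp t := ⟨Real.log T, (Real.exp_log hT0).symm⟩
  obtain ⟨v, rfl⟩ : ∃ v, V = Real.exp v := ⟨Real.log V, (Real.exp_log hV).symm⟩
  have hn : 0 ≤ n := Real.one_le_exp_iff.1 hN
  have ht : n ≤ t := Real.exp_le_exp.1 hT
  rw [← Real.exp_mul, Real.exp_le_exp] at h
  have hs : √(min (Real.exp t) (Real.exp n ^ (88 / 73 : ℝ))) ≤ Real.exp (t / 2) := by
    refine (Real.sqrt_le_sqrt (min_le_left _ _)).trans (le_of_eq ?_)
    rw [Real.exp_half]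
  have a1 : Real.exp n ^ 2 / Real.exp v ^ 2 ≤ Real.exp n ^ 3 / Real.exp v ^ 3 := by
    simp only [← Real.exp_nat_mul, ← Real.exp_sub, Real.exp_le_exp]
    push_cast
    linarith
  have a2 : Real.exp t * Real.exp n ^ (175 / 73 : ℝ) / Real.exp v ^ 4 ≤
      Real.exp t * Real.exp n ^ (10 / 3 : ℝ) / Real.exp v ^ (16 / 3 : ℝ) := by
    simp only [← Real.exp_nat_mul, ← Real.exp_mul, ← Real.exp_add, ← Real.exp_sub, Real.exp_le_exp]
    push_cast
    linarith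
  have a3 : Real.exp (t / 2) * Real.exp n ^ 3 / Real.exp v ^ 4 ≤
      Real.exp t ^ (5 / 9 : ℝ) * Real.exp n ^ (8 / 3 : ℝ) / Real.exp v ^ (32 / 9 : ℝ) +
      Real.exp t * Real.exp n ^ (10 / 3 : ℝ) / Real.exp v ^ (16 / 3 : ℝ) := by
    simp only [← Real.exp_nat_mul, ← Real.exp_mul, ← Real.exp_add, ← Real.exp_sub]
    push_cast
    rcases le_total (5 / 8 * n) v with h' | h'
    · refine le_add_of_le_of_nonneg (Real.exp_le_exp.2 (by linarith)) (Real.exp_pos _).le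
    · refine le_add_of_nonneg_of_le (Real.exp_pos _).le (Real.exp_le_exp.2 (by linarith))
  have a4 : √(min (Real.exp t) (Real.exp n ^ (88 / 73 : ℝ))) * Real.exp n ^ 3 / Real.exp v ^ 4 ≤
      Real.exp (t / 2) * Real.exp n ^ 3 / Real.exp v ^ 4 := by gcongr
  have p1 : 0 ≤ Real.exp n ^ 3 / Real.exp v ^ 3 := by positivity
  have p2 : 0 ≤ Real.exp t ^ (5 / 9 : ℝ) * Real.exp n ^ (8 / 3 : ℝ) / Real.exp v ^ (32 / 9 : ℝ) := by
    positivity
  have p3 : 0 ≤ Real.exp t ^ (8 / 11 : ℝ) * Real.exp n ^ (32 / 11 : ℝ) /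
      Real.exp v ^ (46 / 11 : ℝ) := by positivity
  have p4 : 0 ≤ Real.exp t * Real.exp n ^ 2 / Real.exp v ^ (7 / 2 : ℝ) := by positivity
  unfold bb
  linarith

/-- The second bound for integer points and all levels. -/
theorem both_int {ε : ℝ} (hε : 0 < ε) : ∃ C : ℝ, 0 ≤ C ∧ ∀ N : ℕ, 1 ≤ N → ∀ T V : ℝ, (N : ℝ) ≤ T →
    0 < V → ∀ b : ℕ → ℂ, (∀ n, ‖b n‖ ≤ 1) → ∀ W : Finset ℤ,
      (∀ t ∈ W, 0 ≤ (t : ℝ) ∧ (t : ℝ) ≤ T ∧ V < ‖DD N b t‖) →
        (W.card : ℝ) ≤ C * (N : ℝ) ^ ε * bb N T V := by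
  obtain ⟨C1, h1⟩ := GM.large_values ε hε
  obtain ⟨C2, h2⟩ := large_values ε hε
  refine ⟨2 * max C1 0 + 64 * max C2 0, by positivity, fun N hN T V hT hV b hb W hW => ?_⟩
  have hN1 : (1 : ℝ) ≤ N := by exact_mod_cast hN
  have hN0 : (0 : ℝ) < N := by linarith
  have hT0 : 0 ≤ T := by linarith
  have hB := both_nonneg hN0.le hT0 hV.le
  have hE : 0 ≤ (N : ℝ) ^ ε := by positivity
  have m1 := le_max_right C1 0
  have m2 := le_max_right C2 0
  have hEB := mul_nonneg hE hB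
  have main : ∀ σ : ℝ, 7 / 10 ≤ σ → σ ≤ 1 → (N : ℝ) ^ σ ≤ V →
      (W.card : ℝ) ≤ max C2 0 * (N : ℝ) ^ ε * bb N T ((N : ℝ) ^ σ) := by
    intro σ s1 s2 s3
    have h3 := h2 σ s1 s2 N hN T hT b hb W fun t ht =>
      ⟨(hW t ht).1, (hW t ht).2.1, by
        rw [← Real_norm hN b t]
        exact s3.trans_lt (hW t ht).2.2⟩
    rw [← both_pow hN0] at h3
    refine h3.trans ?_
    have := both_nonneg hN0.le hT0 (Real.rpow_nonneg hN0.le σ)
    gcongr
    exact le_max_left _ _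
  rcases le_total V ((N : ℝ) ^ (7 / 10 : ℝ)) with h | h
  · have h3 := h1 N hN T V hT hV b hb W hW
    have h4 := both_low hN1 hT hV h
    calc (W.card : ℝ) ≤ _ := h3
      _ ≤ max C1 0 * (N : ℝ) ^ ε * (2 * bb N T V) := by
          gcongr
          exact le_max_left _ _
      _ ≤ _ := by nlinarith [mul_nonneg m2 hEB]
  rcases le_total V N with h' | h'
  · rcases hN1.eq_or_lt with e | e
    · have h3 := main 1 (by norm_num) le_rfl (by rw [← e, Real.one_rpow] at h ⊢; exact h)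
      have e2 : (N : ℝ) ^ (1 : ℝ) = V := by
        rw [← e, Real.one_rpow] at h ⊢
        linarith
      rw [e2] at h3
      nlinarith [mul_nonneg m1 hEB, mul_nonneg m2 hEB]
    · have e2 : (N : ℝ) ^ Real.logb N V = V := Real.rpow_logb hN0 e.ne' hV
      have h3 := main (Real.logb N V) ((Real.le_logb_iff_rpow_le e hV).2 h)
        ((Real.logb_le_iff_le_rpow e hV).2 (by rwa [Real.rpow_one])) e2.le
      rw [e2] at h3
      nlinarith [mul_nonneg m1 hEB, mul_nonneg m2 hEB]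
  · rcases W.eq_empty_or_nonempty with rfl | ⟨t, ht⟩
    · rw [card_empty, Nat.cast_zero]
      positivity
    have hVN : V ≤ 2 * N := (hW t ht).2.2.le.trans (Fin_norm_DD hN hb t)
    have h3 := main 1 (by norm_num) le_rfl (by rwa [Real.rpow_one])
    have hq : V / N ≤ 2 := by rwa [div_le_iff₀ hN0]
    have h4 := both_scale (K := 2) hN0.le hT0 hV (div_pos hV hN0) hq (by norm_num)
    have e : V / (V / N) = (N : ℝ) ^ (1 : ℝ) := by
      rw [Real.rpow_one]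
      field_simp
    rw [e] at h4
    have h5 : bb N T ((N : ℝ) ^ (1 : ℝ)) ≤ 64 * bb N T V := h4.trans (by nlinarith)
    calc (W.card : ℝ) ≤ _ := h3
      _ ≤ max C2 0 * (N : ℝ) ^ ε * (64 * bb N T V) := by gcongr
      _ ≤ _ := by nlinarith [mul_nonneg m1 hEB]

/-- The second bound for well spaced real points. -/
theorem both_real {ε : ℝ} (hε : 0 < ε) : ∃ C : ℝ, 0 ≤ C ∧ ∀ N : ℕ, 1 ≤ N → ∀ T V : ℝ,
    (N : ℝ) ≤ T → 0 < V → ∀ b : ℕ → ℂ, (∀ n, ‖b n‖ ≤ 1) → ∀ W : Finset ℝ,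
      (∀ t ∈ W, ∀ t' ∈ W, t ≠ t' → 1 ≤ |t - t'|) →
      (∀ t ∈ W, 0 ≤ t ∧ t ≤ T ∧ V ≤ ‖∑ n ∈ Icc N (2 * N),
        b n * Complex.exp (((t * log (n : ℝ) : ℝ) : ℂ) * Complex.I)‖) →
        (W.card : ℝ) ≤ C * (N : ℝ) ^ ε * bb N T V := by
  obtain ⟨C, hC0, hC⟩ := both_int hε
  refine ⟨C * (4 * exp 2) ^ 6, by positivity, fun N hN T V hT hV b hb W hsep hW => ?_⟩
  have hN' : (0 : ℝ) < N := by exact_mod_cast hN
  have hT0 : 0 ≤ T := hN'.le.trans hT
  set q : ℕ → ℝ := fun j => 4 * (2 ^ j / j.factorial) with hq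
  have hq0 : ∀ j, 0 < q j := fun j => by
    have hf : (0 : ℝ) < j.factorial := by exact_mod_cast j.factorial_pos
    simp only [hq]
    positivity
  have hqs : ∀ s : Finset ℕ, ∑ j ∈ s, q j ≤ 4 * exp 2 := fun s => by
    have h1 := Real.sum_le_exp_of_nonneg (x := 2) (by norm_num) (s.sup id + 1)
    calc ∑ j ∈ s, q j ≤ ∑ j ∈ range (s.sup id + 1), q j :=
          sum_le_sum_of_subset_of_nonneg (fun j hj => mem_range.2
            (Nat.lt_succ_of_le (le_sup (f := id) hj))) fun j _ _ => (hq0 j).le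
      _ ≤ _ := by
          simp only [hq]
          rw [← mul_sum]
          linarith
  have hq1 : ∀ j, q j ≤ 4 * exp 2 := fun j => by simpa using hqs {j}
  have hQ : (1 : ℝ) ≤ 4 * exp 2 := by linarith [one_le_exp (x := 2) (by norm_num)]
  have hex : ∀ t : ℝ, ∃ j : ℕ, t ∈ W → V / q j < ‖DD N (Real_b N b j) ⌊t⌋‖ := fun t => by
    by_cases ht : t ∈ W
    · obtain ⟨j, hj⟩ := Real_exists b hV ((hW t ht).2.2.trans (Real_norm hN b t).ge)
      exact ⟨j, fun _ => hj⟩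
    · exact ⟨0, fun h => absurd h ht⟩
  choose J hJ using hex
  have hB := both_nonneg hN'.le hT0 hV.le
  have hfib : ∀ j : ℕ, ((W.filter fun t => J t = j).card : ℝ)
      ≤ q j * (C * (4 * exp 2) ^ 5 * (N : ℝ) ^ ε * bb N T V) := fun j => by
    have h1 : ((W.filter fun t => J t = j).image fun t => ⌊t⌋).card
        = (W.filter fun t => J t = j).card := card_image_of_injOn fun t ht t' ht' h => by
      by_contra hne
      have h2 := hsep t (mem_filter.1 ht).1 t' (mem_filter.1 ht').1 hne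
      linarith [Int.abs_sub_lt_one_of_floor_eq_floor h]
    have h2 := hC N hN T (V / q j) hT (div_pos hV (hq0 j)) _ (Real_b_le hN hb j)
      ((W.filter fun t => J t = j).image fun t => ⌊t⌋) fun k hk => by
        obtain ⟨t, ht, rfl⟩ := mem_image.1 hk
        obtain ⟨ht1, ht2⟩ := mem_filter.1 ht
        refine ⟨by exact_mod_cast Int.floor_nonneg.2 (hW t ht1).1,
          (Int.floor_le t).trans (hW t ht1).2.1, ?_⟩
        rw [← ht2]
        exact hJ t ht1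
    rw [h1] at h2
    refine h2.trans ?_
    calc C * (N : ℝ) ^ ε * bb N T (V / q j)
        ≤ C * (N : ℝ) ^ ε * (q j * (4 * exp 2) ^ 5 * bb N T V) := by
          gcongr
          exact both_scale hN'.le hT0 hV (hq0 j) (hq1 j) hQ
      _ = _ := by ring
  rw [card_eq_sum_card_image J W]
  push_cast
  calc _ ≤ ∑ j ∈ W.image J, q j * (C * (4 * exp 2) ^ 5 * (N : ℝ) ^ ε * bb N T V) :=
        sum_le_sum fun j _ => hfib j
    _ = (∑ j ∈ W.image J, q j) * _ := (sum_mul _ _ _).symm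
    _ ≤ (4 * exp 2) * (C * (4 * exp 2) ^ 5 * (N : ℝ) ^ ε * bb N T V) := by
        gcongr
        exact hqs _
    _ = _ := by ring

/-- Both bounds. -/
theorem large_values_both : ∀ ε : ℝ, 0 < ε → ∃ C : ℝ, ∀ N : ℕ, 1 ≤ N → ∀ T V : ℝ, (N : ℝ) ≤ T →
    0 < V → ∀ b : ℕ → ℂ, (∀ n, ‖b n‖ ≤ 1) → ∀ W : Finset ℝ,
      (∀ t ∈ W, ∀ t' ∈ W, t ≠ t' → 1 ≤ |t - t'|) →
      (∀ t ∈ W, 0 ≤ t ∧ t ≤ T ∧ V ≤ ‖∑ n ∈ Icc N (2 * N),
        b n * Complex.exp (((t * log (n : ℝ) : ℝ) : ℂ) * Complex.I)‖) →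
        (W.card : ℝ) ≤ C * (N : ℝ) ^ ε * min ((N : ℝ) ^ 2 / V ^ 2
          + √(min T ((N : ℝ) ^ (88 / 73 : ℝ))) * (N : ℝ) ^ 3 / V ^ 4
          + T * (N : ℝ) ^ (175 / 73 : ℝ) / V ^ 4) (bb N T V) := by
  intro ε hε
  obtain ⟨C1, h1⟩ := GM.large_values_real ε hε
  obtain ⟨C2, -, h2⟩ := both_real hε
  refine ⟨max C1 C2, fun N hN T V hT hV b hb W hsep hW => ?_⟩
  have hN' : (0 : ℝ) < N := by exact_mod_cast hN
  have hT0 : 0 ≤ T := hN'.le.trans hT
  have hB := both_nonneg hN'.le hT0 hV.le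
  rcases min_choice ((N : ℝ) ^ 2 / V ^ 2
      + √(min T ((N : ℝ) ^ (88 / 73 : ℝ))) * (N : ℝ) ^ 3 / V ^ 4
      + T * (N : ℝ) ^ (175 / 73 : ℝ) / V ^ 4) (bb N T V) with h | h <;> rw [h]
  · refine (h1 N hN T V hT hV b hb W hsep hW).trans ?_
    gcongr
    exact le_max_left _ _
  · refine (h2 N hN T V hT hV b hb W hsep hW).trans ?_
    gcongr
    exact le_max_right _ _

end Pool.Agent.Lib.MP_ecd12e_nt.Sch
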