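import Pool.Agent.Lib.MP_ecd12e_nt.Sch.Frac
import Pool.Agent.Lib.MP_ecd12e_nt.Sch.Swap

set_option autoImplicit false

namespace Pool.Agent.Lib.MP_ecd12e_nt.Sch

open Finset Real MeasureTheory
open Pool.Agent.Lib.MP_ecd12e_nt.Bar (ei)

/-- Fourth moment. `zz I t ^ 2 = ∑ n ∈ J, c n * ei (t log n)` with `J` the set of products, which
lies in `[Q ^ 2, 4 Q ^ 2]`, and `c n ≤ τ(n) ≤ P` the number of factorisations; `swap_le` and
`double_sum`. -/
theorem fourth {T P Q : ℝ} (h : Loss T P) (hQ : 0 < Q) (hQT : Q ≤ T) {I : Finset ℕ}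
    (hI : InI I Q 2) {W : Finset ℤ} (hW : InR W T) :
    s4 W I ≤ 500 * P ^ 4 * (W.card * Q ^ 4 + Q ^ 2 * yy T W) := by
  have hT := h.hT
  have hpos : ∀ m ∈ I, 0 < m := fun m hm => by exact_mod_cast hQ.trans_le (hI m hm).1
  have hJ : InI ((I ×ˢ I).image fun p => p.1 * p.2) (Q ^ 2) 4 := fun n hn => by
    obtain ⟨p, hp, rfl⟩ := mem_image.1 hn
    obtain ⟨a1, a2⟩ := hI _ (mem_product.1 hp).1
    obtain ⟨b1, b2⟩ := hI _ (mem_product.1 hp).2
    push_cast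
    exact ⟨by linarith [mul_le_mul a1 b1 hQ.le (hQ.le.trans a1)],
      by linarith [mul_le_mul a2 b2 (hQ.le.trans b1) (by positivity)]⟩
  have hQ2 : Q ^ 2 ≤ T ^ 2 := by gcongr
  have h1 := swap_le W ((I ×ˢ I).image fun p => p.1 * p.2)
    (fun n => (((I ×ˢ I).filter fun p => p.1 * p.2 = n).card : ℂ)) (D := P) fun n hn => by
      have h2 := hJ n hn
      have h3 : n ≠ 0 := by exact_mod_cast ((pow_pos hQ 2).trans_le h2.1).ne'
      rw [Complex.norm_natCast]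
      refine le_trans ?_ (h.tau n h3 (by nlinarith [h2.2, one_le_pow₀ (n := 2) hT]))
      refine Nat.cast_le.2 (card_le_card_of_injOn (fun p => p.1) (fun p hp => ?_)
        fun p hp q hq e => ?_)
      · exact mem_coe.2 (Nat.mem_divisors.2 ⟨Dvd.intro _ (mem_filter.1 hp).2, h3⟩)
      · refine Prod.ext e (Nat.eq_of_mul_eq_mul_left
          (hpos _ (mem_product.1 (mem_filter.1 hp).1).1) ?_)
        rw [(mem_filter.1 hp).2, show p.1 = q.1 from e, (mem_filter.1 hq).2]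
  have h2 : ∀ t : ℤ, zz I t ^ 2 = ∑ n ∈ (I ×ˢ I).image fun p => p.1 * p.2,
      (((I ×ˢ I).filter fun p => p.1 * p.2 = n).card : ℂ) * ei (t * Real.log n) := fun t => by
    simp only [← nsmul_eq_mul]
    rw [← sum_comp (fun n : ℕ => ei (t * Real.log n)) fun p : ℕ × ℕ => p.1 * p.2, sq, zz,
      sum_mul_sum, sum_product]
    refine sum_congr rfl fun a ha => sum_congr rfl fun b hb => ?_
    rw [Nat.cast_mul, Real.log_mul (Nat.cast_ne_zero.2 (hpos a ha).ne')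
      (Nat.cast_ne_zero.2 (hpos b hb).ne'), mul_add, Bar.ei_add]
  simp only [← h2, norm_pow, ← pow_mul] at h1
  calc s4 W I ≤ _ := h1
    _ ≤ P ^ 2 * (500 * P ^ 2 * (W.card * (Q ^ 2) ^ 2 + Q ^ 2 * yy T W)) :=
        mul_le_mul_of_nonneg_left (double_sum h (pow_pos hQ 2) hQ2 hJ hW) (sq_nonneg P)
    _ = _ := by ring

lemma op_term {T P L : ℝ} (h : Loss T P) (hL : 0 < L) (hLT : L ≤ T) {J : Finset ℕ}
    (hJ : InI J L 2) {W : Finset ℤ} (hW : InR W T) (x : ℤ → ℂ) {d : ℕ} (hd : 1 ≤ d) :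
    ∑ p ∈ cop J d, ‖tp W x (lg p)‖ ^ 2 ≤ 112 * P ^ 2 * (∑ t ∈ W, ‖x t‖ ^ 2) *
      ((L / d) ^ 2 + (√(yy T W) + √T * √(√(W.card : ℝ))) * (L / d)) := by
  have hP := h.one_le
  have hT := h.hT
  have hd' : (1 : ℝ) ≤ d := by exact_mod_cast hd
  have hQ : 0 < L / d := by positivity
  have hX : 0 ≤ ∑ t ∈ W, ‖x t‖ ^ 2 := by positivity
  have h1 := cop_sieve h hL (by nlinarith) (hJ.mono hL.le (by norm_num)) hd hT hW x
  have h2 := fourth h hQ ((div_le_self hL.le hd').trans hLT) (hJ.dv hd) hW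
  have h3 : ∑ p ∈ cop J d, ‖tp W x (lg p)‖ ^ 2 ≤ (∑ t ∈ W, ‖x t‖ ^ 2) * √(s4 W (dv J d)) := by
    refine le_trans ?_ (pair_le W (dv J d) x)
    rw [← sum_product']
    exact sum_le_sum_of_subset_of_nonneg (filter_subset _ _) fun _ _ _ => sq_nonneg _
  have e1 := Real.sq_sqrt (yy_nonneg T W)
  have e2 := Real.sq_sqrt (zero_le_one.trans hT)
  have e3 : (W.card : ℝ) = √(√(W.card : ℝ)) ^ 4 := by
    rw [show 4 = 2 * 2 from rfl, pow_mul, Real.sq_sqrt (Real.sqrt_nonneg _),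
      Real.sq_sqrt (Nat.cast_nonneg _)]
  have p1 := Real.sqrt_nonneg (yy T W)
  have p2 := Real.sqrt_nonneg T
  have p3 := Real.sqrt_nonneg √(W.card : ℝ)
  rw [e3, ← e1] at h2
  generalize √(yy T W) = y at *
  generalize √(√(W.card : ℝ)) = r at *
  generalize √T = s at *
  generalize L / d = Q at *
  generalize ∑ t ∈ W, ‖x t‖ ^ 2 = X at *
  rcases le_total s (r * Q) with h4 | h4
  · refine h1.trans ?_
    have h5 : T + Q ^ 2 ≤ Q ^ 2 + (y + s * r) * Q := by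
      linarith [mul_le_mul_of_nonneg_left h4 p2, mul_nonneg p1 hQ.le]
    calc _ = 112 * P * X * (T + Q ^ 2) := by ring
      _ ≤ _ := by gcongr; nlinarith
  · have h5 : √(s4 W (dv J d)) ≤ 112 * P ^ 2 * ((r * Q) ^ 2 + y * Q) := by
      refine Real.sqrt_le_iff.2 ⟨by positivity, h2.trans ?_⟩
      have h6 : r ^ 4 * Q ^ 4 + Q ^ 2 * y ^ 2 ≤ ((r * Q) ^ 2 + y * Q) ^ 2 := by
        have : 0 ≤ (r * Q) ^ 2 * (y * Q) := by positivity
        linarith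
      calc _ ≤ 112 ^ 2 * P ^ 4 * ((r * Q) ^ 2 + y * Q) ^ 2 := by gcongr; norm_num
        _ = _ := by ring
    have h6 : (r * Q) ^ 2 + y * Q ≤ Q ^ 2 + (y + s * r) * Q := by
      linarith [mul_le_mul_of_nonneg_left h4 (mul_nonneg p3 hQ.le), sq_nonneg Q]
    calc _ ≤ X * (112 * P ^ 2 * (Q ^ 2 + (y + s * r) * Q)) :=
          h3.trans (mul_le_mul_of_nonneg_left (h5.trans (by gcongr)) hX)
      _ = _ := by ring

/-- Operator bound. Use `frac_split`. With `Q = L / d` the `d`-th term is at most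
`112 P (T + Q ^ 2) ‖x‖ ^ 2` (`cop_sieve`) and, enlarging `cop J d` to all pairs in `dv J d`, at most
`√(s4 W (dv J d)) ‖x‖ ^ 2 ≤ 23 P ^ 2 (√R Q ^ 2 + Q √Y) ‖x‖ ^ 2` (`pair_le`, `fourth`). Use
`min (T + Q ^ 2) (√R Q ^ 2 + Q √Y) ≤ Q ^ 2 + Q √Y + √T √√R Q`. -/
theorem op_bound {T P L : ℝ} (h : Loss T P) (hL : 0 < L) (hLT : L ≤ T) {J : Finset ℕ}
    (hJ : InI J L 2) {W : Finset ℤ} (hW : InR W T) (x : ℤ → ℂ) :
    ∑ n ∈ J, ∑ n' ∈ J, ‖tp W x (Real.log n - Real.log n')‖ ^ 2 ≤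
      300 * P ^ 3 * opn L T W * ∑ t ∈ W, ‖x t‖ ^ 2 := by
  have hP := h.one_le
  have hT := h.hT
  have hX : 0 ≤ ∑ t ∈ W, ‖x t‖ ^ 2 := by positivity
  have hB : (⌊2 * L⌋₊ : ℝ) ≤ 100 * T ^ 4 := by
    have := Nat.floor_le (a := 2 * L) (by positivity)
    have := le_self_pow₀ hT (n := 4) (by norm_num)
    linarith
  rw [frac_split (B := ⌊2 * L⌋₊) (fun n hn => ⟨by exact_mod_cast hL.trans_le (hJ n hn).1,
    Nat.le_floor (hJ n hn).2⟩) fun θ => ‖tp W x θ‖ ^ 2]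
  refine (sum_le_sum fun d hd => op_term h hL hLT hJ hW x (mem_Icc.1 hd).1).trans ?_
  rw [← mul_sum, sum_add_distrib, ← mul_sum]
  have h1 := sum_sq_div_le L ⌊2 * L⌋₊
  have h2 := sum_div_le h hL.le hB
  calc _ ≤ 112 * P ^ 2 * (∑ t ∈ W, ‖x t‖ ^ 2) *
        (2 * L ^ 2 + (√(yy T W) + √T * √(√(W.card : ℝ))) * (P * L)) := by gcongr
    _ ≤ 150 * P ^ 2 * (∑ t ∈ W, ‖x t‖ ^ 2) * (2 * (P * L ^ 2) +
        2 * ((√(yy T W) + √T * √(√(W.card : ℝ))) * (P * L))) := by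
      refine mul_le_mul (by gcongr; norm_num) (add_le_add ?_ ?_) (by positivity) (by positivity)
      · linarith [le_mul_of_one_le_left (sq_nonneg L) hP]
      · exact le_mul_of_one_le_left (by positivity) one_le_two
    _ = _ := by unfold opn; ring

lemma op_inner (W : Finset ℤ) (f g : ℤ → ℝ) (θ : ℝ) :
    ‖∑ i ∈ W ×ˢ W ×ˢ W, ((f (i.2.1 - i.1) * g (i.2.2 - i.1) : ℝ) : ℂ) *
        ei (((i.2.1 + i.2.2 - i.1 : ℤ) : ℝ) * θ)‖ ≤
      ∑ t ∈ W, ‖tp W (fun u => f (u - t)) θ‖ * ‖tp W (fun u => g (u - t)) θ‖ := by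
  rw [sum_product]
  refine (norm_sum_le _ _).trans (sum_le_sum fun t _ => le_of_eq ?_)
  rw [← norm_mul, ← mul_one ‖_ * _‖, ← Bar.norm_ei (-(t * θ)), ← norm_mul, tp, tp, sum_mul_sum,
    sum_product, sum_mul]
  refine congrArg _ (sum_congr rfl fun u _ => ?_)
  rw [sum_mul]
  refine sum_congr rfl fun v _ => ?_
  rw [show ((u + v - t : ℤ) : ℝ) * θ = u * θ + v * θ + -(t * θ) by push_cast; ring, Bar.ei_add,
    Bar.ei_add]
  push_cast
  ring

/-- Weighted energy. Apply `major` to the triples `(t1, t2, t3)` with `u = t1 + t3 - t2`. The inner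
sum is `∑ t2, ei (- t2 θ) * tp W (f (· - t2)) θ * tp W (g (· - t2)) θ`; triangle inequality,
Cauchy-Schwarz over `(n, n', t2)`, and `op_bound` for each `t2`. -/
theorem wenergy {N : ℕ} {T V P : ℝ} {b : ℕ → ℂ} {W : Finset ℤ} (h : LV N T V b W) (hV : 0 ≤ V)
    (hP : Loss T P) (hN : 1 ≤ N) (hNT : (N : ℝ) ≤ T) {f g : ℤ → ℝ} (hf : ∀ t, 0 ≤ f t)
    (hg : ∀ t, 0 ≤ g t) :
    V ^ 2 * wen W f g ≤ 300 * P ^ 3 * opn N T W *
      (√(∑ t ∈ W, ∑ t' ∈ W, f (t - t') ^ 2) * √(∑ t ∈ W, ∑ t' ∈ W, g (t - t') ^ 2)) := by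
  have hN' : (0 : ℝ) < N := by exact_mod_cast hN
  have hC : 0 ≤ 300 * P ^ 3 * opn N T W := by
    have := hP.one_le
    unfold opn
    positivity
  have h1 := major h hV (W ×ˢ W ×ˢ W) (fun i => i.2.1 + i.2.2 - i.1)
    (fun i => f (i.2.1 - i.1) * g (i.2.2 - i.1)) fun i _ => mul_nonneg (hf _) (hg _)
  have h2 : ∀ k : ℤ → ℝ, ∑ i ∈ W ×ˢ Icc N (2 * N) ×ˢ Icc N (2 * N),
      ‖tp W (fun u => k (u - i.1)) (Real.log i.2.1 - Real.log i.2.2)‖ ^ 2 ≤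
      300 * P ^ 3 * opn N T W * ∑ t ∈ W, ∑ t' ∈ W, k (t - t') ^ 2 := fun k => by
    rw [sum_product, sum_comm (s := W) (t := W), mul_sum]
    refine sum_le_sum fun t _ => ?_
    rw [sum_product]
    simpa only [Complex.norm_real, Real.norm_eq_abs, sq_abs] using
      op_bound hP hN' hNT (inI_Icc N) h.inr fun u => k (u - t)
  rw [wen, sum_comm]
  simp only [sum_product] at h1
  refine h1.trans ?_
  calc _ ≤ ∑ i ∈ W ×ˢ Icc N (2 * N) ×ˢ Icc N (2 * N),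
        ‖tp W (fun u => f (u - i.1)) (Real.log i.2.1 - Real.log i.2.2)‖ *
          ‖tp W (fun u => g (u - i.1)) (Real.log i.2.1 - Real.log i.2.2)‖ := by
        rw [sum_product_right, sum_product]
        refine sum_le_sum fun n _ => sum_le_sum fun n' _ => ?_
        simpa only [sum_product] using op_inner W f g (Real.log n - Real.log n')
    _ ≤ _ := Real.sum_mul_le_sqrt_mul_sqrt _ _ _
    _ ≤ _ := mul_le_mul (Real.sqrt_le_sqrt (h2 f)) (Real.sqrt_le_sqrt (h2 g)) (Real.sqrt_nonneg _)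
        (Real.sqrt_nonneg _)
    _ = _ := by
        rw [Real.sqrt_mul hC, Real.sqrt_mul hC, mul_mul_mul_comm, Real.mul_self_sqrt hC]

end Pool.Agent.Lib.MP_ecd12e_nt.Sch
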