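import Pool.Agent.Lib.MP_ecd12e_nt.Sch.Block
import Pool.Agent.Lib.MP_ecd12e_nt.Sch.Op

set_option autoImplicit false

namespace Pool.Agent.Lib.MP_ecd12e_nt.Sch

open Finset Real MeasureTheory
open Pool.Agent.Lib.MP_ecd12e_nt.Bar (ei)

/-- The dyadic piece number `i` of `[1, M]`. -/
def dy (M i : ℕ) : Finset ℕ := (Icc 1 M).filter (fun m => Nat.log 2 m = i)

theorem inI_dy (M i : ℕ) : InI (dy M i) (2 ^ i) 2 := by
  intro n hn
  obtain ⟨h1, rfl⟩ := mem_filter.1 hn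
  have h2 := Nat.pow_log_le_self 2 (Nat.one_le_iff_ne_zero.1 (mem_Icc.1 h1).1)
  have h3 := (Nat.lt_pow_succ_log_self one_lt_two n).le
  rw [pow_succ'] at h3
  exact ⟨by exact_mod_cast h2, by exact_mod_cast h3⟩

theorem cube_blk (w : ℝ → ℝ) (N M : ℕ) (s : ℝ) (t : ℤ) :
    blk w N s (Icc 1 M) t = ∑ i ∈ range (Nat.log 2 M + 1), blk w N s (dy M i) t :=
  (sum_fiberwise_of_maps_to (fun _ hm => mem_range.2
    (Nat.lt_succ_of_le (Nat.log_mono_right (mem_Icc.1 hm).2))) _).symm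

/-- Dyadic decomposition of the kernel. -/
theorem kr_eq (w : ℝ → ℝ) (N M : ℕ) (t : ℤ) :
    kr w N M t = ∑ q ∈ ({1, -1} : Finset ℝ) ×ˢ range (Nat.log 2 M + 1), blk w N q.1 (dy M q.2) t := by
  rw [sum_product, sum_pair (by norm_num), kr, cube_blk, cube_blk]

/-- Trilinearity. -/
theorem tri_le {ι : Type*} (S : Finset ι) (k : ι → ℤ → ℂ) (U1 U2 U3 : Finset ℤ) (c1 c2 c3 : ℤ → ℂ)
    {B : ℝ} (hB : ∀ i1 ∈ S, ∀ i2 ∈ S, ∀ i3 ∈ S, ‖tri (k i1) (k i2) (k i3) U1 U2 U3 c1 c2 c3‖ ≤ B) :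
    ‖tri (fun t => ∑ i ∈ S, k i t) (fun t => ∑ i ∈ S, k i t) (fun t => ∑ i ∈ S, k i t)
      U1 U2 U3 c1 c2 c3‖ ≤ (S.card : ℝ) ^ 3 * B := by
  have e : tri (fun t => ∑ i ∈ S, k i t) (fun t => ∑ i ∈ S, k i t) (fun t => ∑ i ∈ S, k i t)
      U1 U2 U3 c1 c2 c3 = ∑ q ∈ S ×ˢ S ×ˢ S, tri (k q.1) (k q.2.1) (k q.2.2) U1 U2 U3 c1 c2 c3 := by
    unfold tri
    rw [sum_comm (s := S ×ˢ S ×ˢ S)]
    refine sum_congr rfl fun t1 _ => ?_
    rw [sum_comm (s := S ×ˢ S ×ˢ S)]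
    refine sum_congr rfl fun t2 _ => ?_
    rw [sum_comm (s := S ×ˢ S ×ˢ S)]
    refine sum_congr rfl fun t3 _ => ?_
    rw [← mul_sum, mul_assoc (∑ i ∈ S, k i (t1 - t2)), sum_mul_sum S S, ← sum_product', sum_mul_sum,
      ← sum_product']
    simp only [mul_assoc]
  rw [e]
  refine (norm_sum_le _ _).trans ((sum_le_card_nsmul _ _ B fun q hq => ?_).trans (le_of_eq ?_))
  · obtain ⟨h1, h2⟩ := mem_product.1 hq
    exact hB _ h1 _ (mem_product.1 h2).1 _ (mem_product.1 h2).2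
  · rw [nsmul_eq_mul, card_product, card_product]
    push_cast
    ring

theorem cube_alg {U N M M1 M2 M3 R G : ℝ} (hU : 0 < U) (hN : 0 < N) (h1 : 0 < M1) (h2 : 0 < M2)
    (h3 : 0 < M3) (h2' : M2 ≤ M) (h3' : M3 ≤ M) (hR : 0 ≤ R) (hG : 0 ≤ G) :
    U / (M3 * N) * √(M3 / M1 * M2 * M3 * R) * √(√(M3 / M2 * (G * (M3 / M * (M1 / M))))) *
      √(√(G * (M2 / M * (M1 / M)))) ≤ U / N * √R * √G := by
  have hM : 0 < M := h2.trans_le h2'
  have a : ∀ x : ℝ, 0 ≤ x → √x ^ 4 = x ^ 2 := fun x hx => by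
    rw [show √x ^ 4 = (√x ^ 2) ^ 2 by ring, Real.sq_sqrt hx]
  have b : ∀ x : ℝ, 0 ≤ x → √(√x) ^ 4 = x := fun x hx => by
    rw [a _ (Real.sqrt_nonneg x), Real.sq_sqrt hx]
  refine le_of_pow_le_pow_left₀ four_ne_zero (by positivity) ?_
  simp only [mul_pow]
  rw [b _ (by positivity), b _ (by positivity), a _ (by positivity), a _ hR, a _ hG]
  calc _ = (U / N) ^ 4 * R ^ 2 * G ^ 2 * ((M2 / M) ^ 2 * (M3 / M) ^ 2) := by field_simp
    _ ≤ _ := mul_le_of_le_one_right (by positivity) (mul_le_one₀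
        (pow_le_one₀ (by positivity) ((div_le_one hM).2 h2')) (by positivity)
        (pow_le_one₀ (by positivity) ((div_le_one hM).2 h3')))

theorem cube_s4 {T P Q M : ℝ} (h : Loss T P) (hQ : 0 < Q) (hQM : Q ≤ M) (hMT : M ≤ T)
    {I : Finset ℕ} (hI : InI I Q 2) {W : Finset ℤ} (hW : InR W T) :
    √(∑ t ∈ W, ∑ t' ∈ W, (‖zz I (t - t')‖ ^ 2) ^ 2) ≤
      Q / M * √(500 * P ^ 4 * (W.card * M ^ 4 + M ^ 2 * yy T W)) := by
  have hM : 0 < M := hQ.trans_le hQM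
  have y0 := yy_nonneg T W
  rw [← Real.sqrt_sq (div_pos hQ hM).le, ← Real.sqrt_mul (sq_nonneg _)]
  refine Real.sqrt_le_sqrt ?_
  simp only [← pow_mul]
  refine (fourth h hQ (hQM.trans hMT) hI hW).trans ?_
  calc _ = 500 * P ^ 4 * (W.card * (Q ^ 2 * Q ^ 2) + Q ^ 2 * yy T W) := by ring
    _ ≤ 500 * P ^ 4 * (W.card * (Q ^ 2 * M ^ 2) + Q ^ 2 * yy T W) := by gcongr
    _ = _ := by field_simp

theorem cube_wen {N : ℕ} {T V P Q Q' M : ℝ} {b : ℕ → ℂ} {W : Finset ℤ} (h : LV N T V b W)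
    (hV : 0 < V) (hP : Loss T P) (hN : 1 ≤ N) (hNT : (N : ℝ) ≤ T) (hQ : 0 < Q) (hQM : Q ≤ M)
    (hQ' : 0 < Q') (hQM' : Q' ≤ M) (hMT : M ≤ T) {I I' : Finset ℕ} (hI : InI I Q 2)
    (hI' : InI I' Q' 2) :
    wen W (fun t => ‖zz I t‖ ^ 2) (fun t => ‖zz I' t‖ ^ 2) ≤
      150000 * P ^ 7 * opn N T W / V ^ 2 * (W.card * M ^ 4 + M ^ 2 * yy T W) *
        (Q / M * (Q' / M)) := by
  have hM : 0 < M := hQ.trans_le hQM
  have y0 := yy_nonneg T W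
  have P1 := hP.one_le
  have o0 : 0 ≤ opn N T W := by
    unfold opn
    positivity
  have e := wenergy h hV.le hP hN hNT (f := fun t => ‖zz I t‖ ^ 2) (g := fun t => ‖zz I' t‖ ^ 2)
    (fun _ => sq_nonneg _) fun _ => sq_nonneg _
  have e2 := mul_le_mul (cube_s4 hP hQ hQM hMT hI h.inr) (cube_s4 hP hQ' hQM' hMT hI' h.inr)
    (Real.sqrt_nonneg _) (by positivity)
  rw [mul_mul_mul_comm, Real.mul_self_sqrt (by positivity)] at e2
  refine le_of_mul_le_mul_left ((e.trans (mul_le_mul_of_nonneg_left e2 (by positivity))).trans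
    (le_of_eq ?_)) (pow_pos hV 2)
  field_simp
  ring

theorem cube_log {T P : ℝ} (hP : Loss T P) {M : ℕ} (hM : 1 ≤ M) (hMT : (M : ℝ) ≤ T) :
    (Nat.log 2 M : ℝ) + 1 ≤ P := by
  have h1 : ((2 : ℝ) ^ Nat.log 2 M) ≤ M := by
    exact_mod_cast Nat.pow_log_le_self 2 (Nat.one_le_iff_ne_zero.1 hM)
  have T0 : 0 < T := zero_lt_one.trans_le hP.hT
  have h2 := Real.log_le_log (by positivity) (h1.trans hMT)
  have h3 := hP.lg
  have h4 := Real.log_nonneg (x := 100) (by norm_num)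
  have h5 := Real.log_two_gt_d9
  have h6 : (0 : ℝ) ≤ Nat.log 2 M := Nat.cast_nonneg _
  rw [Real.log_mul (by norm_num) (by positivity), Real.log_pow] at h3
  rw [Real.log_pow] at h2
  push_cast at h3
  nlinarith

theorem cube_fin {C N U M M1 M2 M3 R P V O B : ℝ} {j : ℕ} (hC : 0 ≤ C) (hU : 0 < U) (hN : 0 < N)
    (h1 : 0 < M1) (h2 : 0 < M2) (h3 : 0 < M3) (h1' : M1 ≤ M) (h2' : M2 ≤ M) (h3' : M3 ≤ M)
    (hR : 0 ≤ R) (hP : 1 ≤ P) (hV : 0 < V) (hO : 0 ≤ O) (hB : 0 ≤ B) :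
    C * N ^ 3 * (U / (M3 * N) * √(M3 / M1 * M2 * M3 * R) *
      √(√(M3 / M2 * (150000 * P ^ 7 * O / V ^ 2 * B * (M3 / M * (M1 / M))))) *
      √(√(150000 * P ^ 7 * O / V ^ 2 * B * (M2 / M * (M1 / M)))) +
        M1 * M2 * M3 * R ^ 3 / (U / (M3 * N) * M3 * N) ^ j) ≤
      400 * C * P ^ 4 * (U * N ^ 2 * √R * √O / V * √B + N ^ 3 * M ^ 3 * R ^ 3 / U ^ j) := by
  have hM : 0 < M := h2.trans_le h2'
  have hG : √(150000 * P ^ 7 * O / V ^ 2 * B) ≤ 400 * P ^ 4 * √O / V * √B := by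
    refine Real.sqrt_le_iff.2 ⟨by positivity, ?_⟩
    rw [mul_pow, div_pow, mul_pow, Real.sq_sqrt hO, Real.sq_sqrt hB]
    have a1 := pow_le_pow_right₀ hP (show 7 ≤ 8 by norm_num)
    have a2 : 0 ≤ P ^ 8 := by positivity
    have a3 : 150000 * P ^ 7 ≤ (400 * P ^ 4) ^ 2 := by nlinarith
    gcongr
  have e : U / (M3 * N) * M3 * N = U := by field_simp
  have P4 : 1 ≤ 400 * P ^ 4 := by linarith [one_le_pow₀ (n := 4) hP]
  rw [e]
  calc _ ≤ C * N ^ 3 * (U / N * √R * (400 * P ^ 4 * √O / V * √B) + M * M * M * R ^ 3 / U ^ j) := by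
        refine mul_le_mul_of_nonneg_left (add_le_add ((cube_alg hU hN h1 h2 h3 h2' h3' hR
          (by positivity)).trans ?_) ?_) (by positivity) <;> gcongr
    _ = C * (400 * P ^ 4 * (U * N ^ 2 * √R * √O / V * √B) +
        1 * (N ^ 3 * M ^ 3 * R ^ 3 / U ^ j)) := by field_simp
    _ ≤ C * (400 * P ^ 4 * (U * N ^ 2 * √R * √O / V * √B) +
        400 * P ^ 4 * (N ^ 3 * M ^ 3 * R ^ 3 / U ^ j)) := by gcongr
    _ = _ := by ring

/-- The cube. There are `2 (log₂ M + 1) ≤ 2 P` pieces. For pieces `M i = 2 ^ i ≤ M` take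
`δ = U / (M3 N) ≤ 1/2`. Let `B = R M ^ 4 + M ^ 2 Y` and `K = 150000 P ^ 7 opn / V ^ 2`. By
`fourth`, `s4 W (I i) ≤ 500 P ^ 4 (M i / M) ^ 2 B`, so `wenergy` gives the weighted energies
`≤ e3 = K B (M3 / M) (M1 / M)` and `≤ e2 = K B (M2 / M) (M1 / M)`. Then the main term of
`block_le` equals `U / N * √R √(K B) √(M2 M3) / M ≤ U / N * √R √(K B)`. -/
theorem cube_bound {w : ℝ → ℝ} (h : Wt w) (j : ℕ) :
    ∃ C : ℝ, 0 ≤ C ∧ ∀ (N M : ℕ) (T V P U : ℝ) (b : ℕ → ℂ) (W : Finset ℤ), 1 ≤ N → (N : ℝ) ≤ T →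
      0 < V → LV N T V b W → Loss T P → W.Nonempty → 1 ≤ M → (M : ℝ) ≤ T → 0 < U → 2 * U ≤ N →
      ‖tri (kr w N M) (kr w N M) (kr w N M) W W W (fun _ => 1) (fun _ => 1) (fun _ => 1)‖ ≤
        C * P ^ 7 * (U * (N : ℝ) ^ 2 * √(W.card : ℝ) * √(opn N T W) / V *
            √(W.card * (M : ℝ) ^ 4 + (M : ℝ) ^ 2 * yy T W) +
          (N : ℝ) ^ 3 * (M : ℝ) ^ 3 * (W.card : ℝ) ^ 3 / U ^ j) := by
  obtain ⟨C, C0, hC⟩ := block_le h j
  refine ⟨3200 * C, by positivity, fun N M T V P U b W hN hNT hV hL hP hW hM hMT hU hUN => ?_⟩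
  have N0 : (0 : ℝ) < N := by exact_mod_cast hN
  have M0 : (0 : ℝ) < M := by exact_mod_cast hM
  have R0 : (0 : ℝ) < W.card := by exact_mod_cast hW.card_pos
  have P1 := hP.one_le
  have y0 := yy_nonneg T W
  have o0 : 0 < opn N T W := by
    unfold opn
    positivity
  have B0 : 0 < W.card * (M : ℝ) ^ 4 + (M : ℝ) ^ 2 * yy T W := by positivity
  have G0 : 0 < 150000 * P ^ 7 * opn N T W / V ^ 2 *
      (W.card * (M : ℝ) ^ 4 + (M : ℝ) ^ 2 * yy T W) := by positivity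
  have hs : ∀ q ∈ ({1, -1} : Finset ℝ) ×ˢ range (Nat.log 2 M + 1), |q.1| = 1 ∧
      ∃ Q : ℝ, 1 ≤ Q ∧ Q ≤ M ∧ InI (dy M q.2) Q 2 := fun q hq => by
    obtain ⟨h1, h2⟩ := mem_product.1 hq
    refine ⟨?_, 2 ^ q.2, one_le_pow₀ one_le_two, ?_, inI_dy M q.2⟩
    · rcases mem_insert.1 h1 with h1 | h1
      · rw [h1, abs_one]
      · rw [mem_singleton.1 h1, abs_neg, abs_one]
    · exact_mod_cast Nat.pow_le_of_le_log (Nat.one_le_iff_ne_zero.1 hM)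
        (Nat.lt_succ_iff.1 (mem_range.1 h2))
  rw [show kr w N M = _ from funext (kr_eq w N M)]
  refine (tri_le _ (fun q : ℝ × ℕ => blk w N q.1 (dy M q.2)) W W W _ _ _
    (B := 400 * C * P ^ 4 * (U * (N : ℝ) ^ 2 * √(W.card : ℝ) * √(opn N T W) / V *
      √(W.card * (M : ℝ) ^ 4 + (M : ℝ) ^ 2 * yy T W) +
        (N : ℝ) ^ 3 * (M : ℝ) ^ 3 * (W.card : ℝ) ^ 3 / U ^ j))
    fun q1 h1 q2 h2 q3 h3 => ?_).trans ?_
  · obtain ⟨a1, M1, b1, c1, i1⟩ := hs q1 h1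
    obtain ⟨a2, M2, b2, c2, i2⟩ := hs q2 h2
    obtain ⟨a3, M3, b3, c3, i3⟩ := hs q3 h3
    have p1 : 0 < M1 := by linarith
    have p2 : 0 < M2 := by linarith
    have p3 : 0 < M3 := by linarith
    have d1 : U / (M3 * N) ≤ 1 / 2 := by
      rw [div_le_iff₀ (by positivity)]
      nlinarith
    exact (hC N _ _ _ M1 M2 M3 (U / (M3 * N)) _ _ _ _ _ W hN a1 a2 a3 p1 p2 p3 (by positivity)
      d1 i1 i2 i3 hW (mul_pos G0 (by positivity)) (mul_pos G0 (by positivity))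
      (cube_wen hL hV hP hN hNT p2 c2 p1 c1 hMT i2 i1)
      (cube_wen hL hV hP hN hNT p3 c3 p1 c1 hMT i3 i1)).trans
      (cube_fin C0 hU N0 p1 p2 p3 c1 c2 c3 R0.le P1 hV o0.le B0.le)
  · have := cube_log hP hM hMT
    rw [card_product, card_range, card_pair (by norm_num)]
    push_cast
    refine (mul_le_mul_of_nonneg_right (pow_le_pow_left₀ (by positivity)
      (mul_le_mul_of_nonneg_left this zero_le_two) 3) (by positivity)).trans (le_of_eq ?_)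
    ring

end Pool.Agent.Lib.MP_ecd12e_nt.Sch
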