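import Pool.Agent.Lib.MP_ecd12e_nt.Sch.Defs

set_option autoImplicit false

namespace Pool.Agent.Lib.MP_ecd12e_nt.Sch

open Finset Real MeasureTheory
open Pool.Agent.Lib.MP_ecd12e_nt.Bar (ei)

theorem decay_ev {φ : ℝ → ℝ} (h : Sm φ) {u : ℝ} (hu : u < 3 / 4 ∨ 9 / 4 < u) :
    ∀ᶠ v in nhds u, φ v = 0 := by
  rcases hu with hu | hu
  · filter_upwards [gt_mem_nhds hu] with v hv using h.supp v (Or.inl hv)
  · filter_upwards [lt_mem_nhds hu] with v hv using h.supp v (Or.inr hv)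

theorem decay_cpt {E : Type} [Zero E] {F : ℝ → E} (h : ∀ u, u < 3 / 4 ∨ 9 / 4 < u → F u = 0) :
    HasCompactSupport F := by
  refine HasCompactSupport.intro (isCompact_Icc (a := 3 / 4) (b := 9 / 4)) fun u hu => h u ?_
  rw [Set.mem_Icc, not_and_or, not_le, not_le] at hu
  exact hu

theorem decay_cont {φ : ℝ → ℝ} (h : Sm φ) : Continuous φ := (h.smooth 0).continuous

theorem decay_der {φ : ℝ → ℝ} (h : Sm φ) (u : ℝ) : HasDerivAt φ (deriv φ u) u :=
  ((h.smooth 1).differentiable (by simp) u).hasDerivAt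

theorem decay_ei {θ : ℝ → ℝ} {θ' u : ℝ} (h : HasDerivAt θ θ' u) :
    HasDerivAt (fun v => ei (θ v)) (ei (θ u) * (θ' * Complex.I)) u :=
  (h.ofReal_comp.mul_const Complex.I).cexp

/-- The derivative of a function in the class is in the class. -/
theorem Sm.deriv {φ : ℝ → ℝ} (h : Sm φ) : Sm (deriv φ) := by
  refine ⟨fun n => ?_, fun u hu => ?_⟩
  · have h1 := h.smooth (n + 1)
    rw [Nat.cast_add, Nat.cast_one] at h1
    exact (contDiff_succ_iff_deriv.1 h1).2.2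
  · have h1 : φ =ᶠ[nhds u] fun _ => 0 := decay_ev h hu
    rw [h1.deriv_eq, deriv_const]

/-- Division by the variable (the function vanishes near `0`). -/
theorem Sm.div {φ : ℝ → ℝ} (h : Sm φ) : Sm (fun u => φ u / u) := by
  refine ⟨fun n => contDiff_iff_contDiffAt.2 fun u => ?_, fun u hu => ?_⟩
  · by_cases hu : u = 0
    · refine (contDiffAt_const (c := (0 : ℝ))).congr_of_eventuallyEq ?_
      filter_upwards [decay_ev h (u := u) (Or.inl (by rw [hu]; norm_num))] with v hv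
      rw [hv, zero_div]
    · exact (h.smooth n).contDiffAt.div contDiffAt_id hu
  · rw [h.supp u hu, zero_div]

theorem Sm.mul_id {φ : ℝ → ℝ} (h : Sm φ) : Sm (fun u => u * φ u) := by
  refine ⟨fun n => contDiff_id.mul (h.smooth n), fun u hu => ?_⟩
  rw [h.supp u hu, mul_zero]

theorem Sm.bdd {φ : ℝ → ℝ} (h : Sm φ) : ∃ C : ℝ, 0 ≤ C ∧ ∀ u, |φ u| ≤ C := by
  obtain ⟨C, hC⟩ := (decay_cont h).bounded_above_of_compact_support (decay_cpt h.supp)
  exact ⟨C, (norm_nonneg _).trans (hC 0), hC⟩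

/-- The integrand of `ff` is continuous (it vanishes on `(-∞, 3/4)`). -/
theorem Sm.cont_int {φ : ℝ → ℝ} (h : Sm φ) (t ξ : ℝ) :
    Continuous fun u : ℝ => (φ u : ℂ) * ei (t * Real.log u - 2 * π * ξ * u) := by
  refine continuous_iff_continuousAt.2 fun u => ?_
  by_cases hu : u = 0
  · refine (continuousAt_const (y := (0 : ℂ))).congr ?_
    filter_upwards [decay_ev h (u := u) (Or.inl (by rw [hu]; norm_num))] with v hv
    rw [hv, Complex.ofReal_zero, zero_mul]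
  · refine (Complex.continuous_ofReal.comp (decay_cont h)).continuousAt.mul ?_
    refine continuous_ei.continuousAt.comp ?_
    exact (continuousAt_const.mul (Real.continuousAt_log hu)).sub
      (continuousAt_const.mul continuousAt_id)

theorem decay_int {φ : ℝ → ℝ} (h : Sm φ) (t ξ : ℝ) :
    Integrable fun u : ℝ => (φ u : ℂ) * ei (t * Real.log u - 2 * π * ξ * u) :=
  (h.cont_int t ξ).integrable_of_hasCompactSupport (decay_cpt fun u hu => by
    rw [h.supp u hu, Complex.ofReal_zero, zero_mul])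

theorem decay_zero {φ : ℝ → ℝ} : ∃ C : ℝ, 0 ≤ C ∧ ∀ t ξ : ℝ, ‖ff φ t ξ‖ ≤ C := by
  refine ⟨∫ u, |φ u|, integral_nonneg fun u => abs_nonneg _, fun t ξ => ?_⟩
  refine (norm_integral_le_integral_norm _).trans (le_of_eq ?_)
  simp only [norm_mul, Bar.norm_ei, mul_one, Complex.norm_real, Real.norm_eq_abs]

/-- Integration by parts: the integral of the derivative of
`φ u * ei (t log u - 2 π ξ u)` vanishes (`integral_eq_zero_of_hasDerivAt_of_integrable`, or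
`HasCompactSupport.integral_deriv_eq`). -/
theorem ff_parts {φ : ℝ → ℝ} (h : Sm φ) (t ξ : ℝ) :
    ff (deriv φ) t ξ + Complex.I * t * ff (fun u => φ u / u) t ξ =
      2 * π * Complex.I * ξ * ff φ t ξ := by
  have i0 := decay_int h t ξ
  have i1 := decay_int h.deriv t ξ
  have i2 := (decay_int h.div t ξ).const_mul (Complex.I * t)
  have i3 := i0.const_mul (2 * π * Complex.I * ξ)
  have hd : ∀ u : ℝ, HasDerivAt (fun u : ℝ => (φ u : ℂ) * ei (t * Real.log u - 2 * π * ξ * u))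
      (((deriv φ u : ℝ) : ℂ) * ei (t * Real.log u - 2 * π * ξ * u) +
        Complex.I * t * (((φ u / u : ℝ) : ℂ) * ei (t * Real.log u - 2 * π * ξ * u)) -
        2 * π * Complex.I * ξ * ((φ u : ℂ) * ei (t * Real.log u - 2 * π * ξ * u))) u := by
    intro u
    by_cases hu : u = 0
    · have h0 : u < 3 / 4 ∨ 9 / 4 < u := Or.inl (by rw [hu]; norm_num)
      rw [h.supp u h0, h.deriv.supp u h0]
      simp only [zero_div, Complex.ofReal_zero, zero_mul, mul_zero, add_zero, sub_zero]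
      refine (hasDerivAt_const u (0 : ℂ)).congr_of_eventuallyEq ?_
      filter_upwards [decay_ev h h0] with v hv
      rw [hv, Complex.ofReal_zero, zero_mul]
    · have h1 : HasDerivAt (fun u : ℝ => t * Real.log u - 2 * π * ξ * u)
          (t * u⁻¹ - 2 * π * ξ * 1) u :=
        ((Real.hasDerivAt_log hu).const_mul t).sub ((hasDerivAt_id u).const_mul _)
      refine ((decay_der h u).ofReal_comp.mul (decay_ei h1)).congr_deriv ?_
      push_cast
      ring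
  have h2 := integral_eq_zero_of_hasDerivAt_of_integrable hd ((i1.add i2).sub i3) i0
  rw [integral_sub (i1.fun_add i2) i3, integral_add i1 i2, integral_const_mul, integral_const_mul,
    sub_eq_zero] at h2
  exact h2

/-- Decay in `ξ`: induction on `j` over all `φ` in the class, with `ff_parts`. -/
theorem decay_xi (j : ℕ) {φ : ℝ → ℝ} (h : Sm φ) :
    ∃ C : ℝ, 0 ≤ C ∧ ∀ t ξ : ℝ, |ξ| ^ j * ‖ff φ t ξ‖ ≤ C * (1 + |t|) ^ j := by
  induction j generalizing φ with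
  | zero =>
    obtain ⟨C, hC, h1⟩ := decay_zero (φ := φ)
    exact ⟨C, hC, fun t ξ => by simpa using h1 t ξ⟩
  | succ j ih =>
    obtain ⟨C1, hC1, h1⟩ := ih h.deriv
    obtain ⟨C2, hC2, h2⟩ := ih h.div
    refine ⟨C1 + C2, by positivity, fun t ξ => ?_⟩
    have h3 : 2 * π * |ξ| * ‖ff φ t ξ‖ ≤
        ‖ff (deriv φ) t ξ‖ + |t| * ‖ff (fun u => φ u / u) t ξ‖ := by
      have h4 := norm_add_le (ff (deriv φ) t ξ) (Complex.I * t * ff (fun u => φ u / u) t ξ)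
      rw [ff_parts h] at h4
      simpa [abs_of_pos Real.pi_pos] using h4
    have h5 : |ξ| * ‖ff φ t ξ‖ ≤ ‖ff (deriv φ) t ξ‖ + |t| * ‖ff (fun u => φ u / u) t ξ‖ := by
      refine le_trans ?_ h3
      have : 0 ≤ |ξ| * ‖ff φ t ξ‖ := by positivity
      nlinarith [Real.pi_gt_three]
    have h6 := mul_le_mul_of_nonneg_left h5 (pow_nonneg (abs_nonneg ξ) j)
    have h7 := mul_le_mul_of_nonneg_left (h2 t ξ) (abs_nonneg t)
    have h8 := h1 t ξ
    have h9 : 0 ≤ C1 * (1 + |t|) ^ j * |t| := by positivity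
    have h10 : 0 ≤ C2 * (1 + |t|) ^ j := by positivity
    rw [pow_succ, pow_succ]
    nlinarith

theorem decay_step {φ : ℝ → ℝ} (h : Sm φ) (t : ℝ) :
    |t| * ‖ff φ t 0‖ = ‖ff (deriv fun u => u * φ u) t 0‖ := by
  have h1 := ff_parts h.mul_id t 0
  have e : (fun u => u * φ u / u) = φ := by
    funext u
    by_cases hu : u = 0
    · rw [h.supp u (Or.inl (by rw [hu]; norm_num)), mul_zero, zero_div]
    · field_simp
  rw [e, Complex.ofReal_zero, mul_zero, zero_mul, add_eq_zero_iff_eq_neg] at h1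
  rw [h1]
  simp

/-- Decay in `t`: `ff_parts` for `u φ u` at `ξ = 0` gives
`(1 + i t) ff φ t 0 = - ff (u φ') t 0`; apply it twice. -/
theorem decay_t {φ : ℝ → ℝ} (h : Sm φ) :
    ∃ C : ℝ, 0 ≤ C ∧ ∀ t : ℝ, ‖ff φ t 0‖ ≤ C / (1 + t ^ 2) := by
  obtain ⟨C0, hC0, h0⟩ := decay_zero (φ := φ)
  obtain ⟨C2, hC2, h2⟩ := decay_zero (φ := deriv fun u => u * deriv (fun v => v * φ v) u)
  refine ⟨C0 + C2, by positivity, fun t => ?_⟩
  rw [le_div_iff₀ (by positivity)]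
  have h3 := h2 t 0
  rw [← decay_step h.mul_id.deriv, ← decay_step h, ← mul_assoc, abs_mul_abs_self] at h3
  have h4 := h0 t 0
  nlinarith

/-- Conjugation symmetry. -/
theorem ff_conj (φ : ℝ → ℝ) (t ξ : ℝ) : ff φ (-t) (-ξ) = (starRingEnd ℂ) (ff φ t ξ) := by
  unfold ff
  rw [← integral_conj]
  refine integral_congr_ae (Filter.Eventually.of_forall fun u => ?_)
  simp only [map_mul, Complex.conj_ofReal, Bar.conj_ei]
  congr 2
  ring

theorem decay_rint {φ0 φ1 φ2 : ℝ → ℝ} (h0 : Sm φ0) (h1 : Sm φ1) (h2 : Sm φ2) (l1 l2 x : ℝ) :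
    Integrable fun ρ : ℝ =>
      ((φ0 ρ * φ1 (l1 * ρ) * φ2 (l2 * ρ) : ℝ) : ℂ) * ei (-(2 * π * ρ * x)) := by
  refine Continuous.integrable_of_hasCompactSupport ?_ (decay_cpt fun u hu => by
    rw [h0.supp u hu, zero_mul, zero_mul, Complex.ofReal_zero, zero_mul])
  have c0 := decay_cont h0
  have c1 := decay_cont h1
  have c2 := decay_cont h2
  have c3 := continuous_ei
  fun_prop

theorem decay_rparts {φ0 φ1 φ2 : ℝ → ℝ} (h0 : Sm φ0) (h1 : Sm φ1) (h2 : Sm φ2) (l1 l2 x : ℝ) :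
    (∫ ρ : ℝ, ((deriv φ0 ρ * φ1 (l1 * ρ) * φ2 (l2 * ρ) : ℝ) : ℂ) * ei (-(2 * π * ρ * x))) +
      l1 * (∫ ρ : ℝ, ((φ0 ρ * deriv φ1 (l1 * ρ) * φ2 (l2 * ρ) : ℝ) : ℂ) * ei (-(2 * π * ρ * x))) +
      l2 * (∫ ρ : ℝ, ((φ0 ρ * φ1 (l1 * ρ) * deriv φ2 (l2 * ρ) : ℝ) : ℂ) * ei (-(2 * π * ρ * x))) =
      2 * π * Complex.I * x *
        ∫ ρ : ℝ, ((φ0 ρ * φ1 (l1 * ρ) * φ2 (l2 * ρ) : ℝ) : ℂ) * ei (-(2 * π * ρ * x)) := by
  have i0 := decay_rint h0 h1 h2 l1 l2 x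
  have i1 := decay_rint h0.deriv h1 h2 l1 l2 x
  have i2 := (decay_rint h0 h1.deriv h2 l1 l2 x).const_mul (l1 : ℂ)
  have i3 := (decay_rint h0 h1 h2.deriv l1 l2 x).const_mul (l2 : ℂ)
  have i4 := i0.const_mul (2 * π * Complex.I * x)
  have hd : ∀ ρ : ℝ, HasDerivAt (fun ρ : ℝ =>
      ((φ0 ρ * φ1 (l1 * ρ) * φ2 (l2 * ρ) : ℝ) : ℂ) * ei (-(2 * π * ρ * x)))
      (((deriv φ0 ρ * φ1 (l1 * ρ) * φ2 (l2 * ρ) : ℝ) : ℂ) * ei (-(2 * π * ρ * x)) +
        l1 * (((φ0 ρ * deriv φ1 (l1 * ρ) * φ2 (l2 * ρ) : ℝ) : ℂ) * ei (-(2 * π * ρ * x))) +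
        l2 * (((φ0 ρ * φ1 (l1 * ρ) * deriv φ2 (l2 * ρ) : ℝ) : ℂ) * ei (-(2 * π * ρ * x))) -
        2 * π * Complex.I * x *
          (((φ0 ρ * φ1 (l1 * ρ) * φ2 (l2 * ρ) : ℝ) : ℂ) * ei (-(2 * π * ρ * x)))) ρ := by
    intro ρ
    have d1 : HasDerivAt (fun ρ => φ1 (l1 * ρ)) (deriv φ1 (l1 * ρ) * (l1 * 1)) ρ :=
      (decay_der h1 _).comp ρ ((hasDerivAt_id ρ).const_mul l1)
    have d2 : HasDerivAt (fun ρ => φ2 (l2 * ρ)) (deriv φ2 (l2 * ρ) * (l2 * 1)) ρ :=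
      (decay_der h2 _).comp ρ ((hasDerivAt_id ρ).const_mul l2)
    have d3 : HasDerivAt (fun ρ : ℝ => -(2 * π * ρ * x)) (-(2 * π * 1 * x)) ρ :=
      (((hasDerivAt_id ρ).const_mul (2 * π)).mul_const x).neg
    refine ((((decay_der h0 ρ).mul d1).mul d2).ofReal_comp.mul (decay_ei d3)).congr_deriv ?_
    simp only [Pi.mul_apply]
    push_cast
    ring
  have h3 := integral_eq_zero_of_hasDerivAt_of_integrable hd (((i1.add i2).add i3).sub i4) i0
  rw [integral_sub ((i1.fun_add i2).fun_add i3) i4, integral_add (i1.fun_add i2) i3,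
    integral_add i1 i2,
    integral_const_mul, integral_const_mul, integral_const_mul, sub_eq_zero] at h3
  exact h3

theorem decay_van {φ0 φ1 : ℝ → ℝ} (h0 : Sm φ0) (h1 : Sm φ1) {l : ℝ} (hl : 3 < |l|) (ρ : ℝ) :
    φ0 ρ * φ1 (l * ρ) = 0 := by
  rcases lt_or_ge ρ (3 / 4) with hρ | hρ
  · rw [h0.supp ρ (Or.inl hρ), zero_mul]
  · rw [h1.supp (l * ρ), mul_zero]
    rcases lt_abs.1 hl with h | h
    · right; nlinarith
    · left; nlinarith

/-- Radial decay, uniformly in the slopes. Induction on `j` over all triples in the class, for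
`|l1|, |l2| ≤ 3`: with `I` the integral,
`2 π i x I(φ0, φ1, φ2) = I(φ0', φ1, φ2) + l1 I(φ0, φ1', φ2) + l2 I(φ0, φ1, φ2')`.
If `|l1| > 3` or `|l2| > 3` the integrand vanishes identically (`φ0 ρ ≠ 0` forces
`3/4 ≤ ρ ≤ 9/4`). -/
theorem radial (j : ℕ) {φ0 φ1 φ2 : ℝ → ℝ} (h0 : Sm φ0) (h1 : Sm φ1) (h2 : Sm φ2) :
    ∃ C : ℝ, 0 ≤ C ∧ ∀ l1 l2 x : ℝ,
      |x| ^ j * ‖∫ ρ : ℝ, ((φ0 ρ * φ1 (l1 * ρ) * φ2 (l2 * ρ) : ℝ) : ℂ) * ei (-(2 * π * ρ * x))‖ ≤ C := by
  induction j generalizing φ0 φ1 φ2 with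
  | zero =>
    obtain ⟨C1, hC1, b1⟩ := h1.bdd
    obtain ⟨C2, hC2, b2⟩ := h2.bdd
    have i0 : Integrable fun u => |φ0 u| * C1 * C2 :=
      ((((decay_cont h0).integrable_of_hasCompactSupport (decay_cpt h0.supp)).abs).mul_const
        C1).mul_const C2
    refine ⟨∫ u, |φ0 u| * C1 * C2, integral_nonneg fun u => by positivity, fun l1 l2 x => ?_⟩
    rw [pow_zero, one_mul]
    refine norm_integral_le_of_norm_le i0 (Filter.Eventually.of_forall fun u => ?_)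
    rw [norm_mul, Bar.norm_ei, mul_one, Complex.norm_real, Real.norm_eq_abs, abs_mul, abs_mul]
    have := b1 (l1 * u)
    have := b2 (l2 * u)
    gcongr
  | succ j ih =>
    obtain ⟨C0, hC0, b0⟩ := ih h0.deriv h1 h2
    obtain ⟨C1, hC1, b1⟩ := ih h0 h1.deriv h2
    obtain ⟨C2, hC2, b2⟩ := ih h0 h1 h2.deriv
    refine ⟨C0 + 3 * C1 + 3 * C2, by positivity, fun l1 l2 x => ?_⟩
    rcases lt_or_ge 3 |l1| with hl1 | hl1
    · simp only [decay_van h0 h1 hl1, zero_mul, Complex.ofReal_zero, integral_zero, norm_zero,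
        mul_zero]
      positivity
    rcases lt_or_ge 3 |l2| with hl2 | hl2
    · simp only [mul_right_comm (φ0 _) (φ1 _), decay_van h0 h2 hl2, zero_mul, Complex.ofReal_zero,
        integral_zero, norm_zero, mul_zero]
      positivity
    have h3 := decay_rparts h0 h1 h2 l1 l2 x
    have b0' := b0 l1 l2 x
    have b1' := b1 l1 l2 x
    have b2' := b2 l1 l2 x
    generalize (∫ ρ : ℝ, ((deriv φ0 ρ * φ1 (l1 * ρ) * φ2 (l2 * ρ) : ℝ) : ℂ) *
      ei (-(2 * π * ρ * x))) = A at h3 b0'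
    generalize (∫ ρ : ℝ, ((φ0 ρ * deriv φ1 (l1 * ρ) * φ2 (l2 * ρ) : ℝ) : ℂ) *
      ei (-(2 * π * ρ * x))) = B at h3 b1'
    generalize (∫ ρ : ℝ, ((φ0 ρ * φ1 (l1 * ρ) * deriv φ2 (l2 * ρ) : ℝ) : ℂ) *
      ei (-(2 * π * ρ * x))) = C at h3 b2'
    generalize (∫ ρ : ℝ, ((φ0 ρ * φ1 (l1 * ρ) * φ2 (l2 * ρ) : ℝ) : ℂ) *
      ei (-(2 * π * ρ * x))) = D at h3 ⊢
    have h4 : 2 * π * |x| * ‖D‖ ≤ ‖A‖ + |l1| * ‖B‖ + |l2| * ‖C‖ := by
      have h5 := norm_add₃_le (a := A) (b := l1 * B) (c := l2 * C)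
      rw [h3] at h5
      simpa [abs_of_pos Real.pi_pos] using h5
    have h5 : |x| * ‖D‖ ≤ ‖A‖ + 3 * ‖B‖ + 3 * ‖C‖ := by
      have p1 : 0 ≤ |x| * ‖D‖ := by positivity
      have p2 := mul_le_mul_of_nonneg_right hl1 (norm_nonneg B)
      have p3 := mul_le_mul_of_nonneg_right hl2 (norm_nonneg C)
      nlinarith [Real.pi_gt_three]
    have h6 := mul_le_mul_of_nonneg_left h5 (pow_nonneg (abs_nonneg x) j)
    rw [pow_succ]
    nlinarith

end Pool.Agent.Lib.MP_ecd12e_nt.Sch
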