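import Pool.Agent.Lib.MP_ecd12e_nt.Bar.Defs
import Pool.Agent.Lib.MP_ecd12e_nt.Sep

/-!
Definitions for the large value estimate proved through Schatten norms.
-/

set_option autoImplicit false

namespace Pool.Agent.Lib.MP_ecd12e_nt.Sch

open Finset Real MeasureTheory
open Pool.Agent.Lib.MP_ecd12e_nt.Bar (ei)

/-- The trigonometric polynomial with frequencies in `W` and coefficients `c`. -/
noncomputable def tp (W : Finset ℤ) (c : ℤ → ℂ) (θ : ℝ) : ℂ := ∑ t ∈ W, c t * ei (t * θ)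

/-- The trigonometric polynomial with frequencies in `W` and coefficients `1`. -/
noncomputable def rr (W : Finset ℤ) (θ : ℝ) : ℂ := ∑ t ∈ W, ei (t * θ)

lemma rr_eq (W : Finset ℤ) (θ : ℝ) : rr W θ = tp W (fun _ => 1) θ := by simp [rr, tp]

/-- The zeta sum over `I`. -/
noncomputable def zz (I : Finset ℕ) (t : ℤ) : ℂ := ∑ m ∈ I, ei (t * Real.log m)

/-- Weighted additive energy. -/
noncomputable def wen (W : Finset ℤ) (f g : ℤ → ℝ) : ℝ :=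
  ∑ t1 ∈ W, ∑ t2 ∈ W, ∑ t3 ∈ W, if t1 + t3 - t2 ∈ W then f (t1 - t2) * g (t3 - t2) else 0

/-- Additive energy. -/
noncomputable def en (W : Finset ℤ) : ℝ := wen W (fun _ => 1) (fun _ => 1)

/-- `(T E) ^ (1/2)`. -/
noncomputable def yy (T : ℝ) (W : Finset ℤ) : ℝ := √(T * en W)

/-- The fourth moment of the zeta sum over differences. -/
noncomputable def s4 (W : Finset ℤ) (I : Finset ℕ) : ℝ := ∑ t ∈ W, ∑ t' ∈ W, ‖zz I (t - t')‖ ^ 4

/-- The operator norm bound for the square of a polynomial of length `L`. -/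
noncomputable def opn (L T : ℝ) (W : Finset ℤ) : ℝ :=
  L ^ 2 + L * √(yy T W) + L * √T * √(√(W.card : ℝ))

/-- `W` lies in `[0, T]`. -/
def InR (W : Finset ℤ) (T : ℝ) : Prop := ∀ t ∈ W, 0 ≤ t ∧ (t : ℝ) ≤ T

/-- `J` lies in `[L, k L]`. -/
def InI (J : Finset ℕ) (L k : ℝ) : Prop := ∀ n ∈ J, L ≤ n ∧ (n : ℝ) ≤ k * L

/-- `P` bounds logarithms and the divisor function in the range of `T`. -/
structure Loss (T P : ℝ) : Prop where
  hT : 1 ≤ T
  tau : TauLe (16 * T ^ 4) P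
  lg : 1 + Real.log (100 * T ^ 4) ≤ P

/-- `W` is a set of large values. -/
structure LV (N : ℕ) (T V : ℝ) (b : ℕ → ℂ) (W : Finset ℤ) : Prop where
  hb : ∀ n, ‖b n‖ ≤ 1
  inr : InR W T
  big : ∀ t ∈ W, V ≤ ‖∑ n ∈ Icc N (2 * N), b n * ei (t * Real.log n)‖

/-- The quotients by `d` of the multiples of `d` in `J`. -/
def dv (J : Finset ℕ) (d : ℕ) : Finset ℕ := (J.filter (fun n => d ∣ n)).image (fun n => n / d)

/-- The coprime pairs in `dv J d`. -/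
def cop (J : Finset ℕ) (d : ℕ) : Finset (ℕ × ℕ) :=
  (dv J d ×ˢ dv J d).filter (fun p => Nat.Coprime p.1 p.2)

/-- Smooth functions vanishing outside `[3/4, 9/4]`. -/
structure Sm (φ : ℝ → ℝ) : Prop where
  smooth : ∀ n : ℕ, ContDiff ℝ n φ
  supp : ∀ u, u < 3 / 4 ∨ 9 / 4 < u → φ u = 0

/-- The weight. -/
structure Wt (w : ℝ → ℝ) : Prop extends Sm w where
  nonneg : ∀ u, 0 ≤ w u
  le_one : ∀ u, w u ≤ 1
  one : ∀ u, 1 ≤ u → u ≤ 2 → w u = 1

/-- The oscillatory integral. -/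
noncomputable def ff (φ : ℝ → ℝ) (t ξ : ℝ) : ℂ :=
  ∫ u : ℝ, (φ u : ℂ) * ei (t * Real.log u - 2 * π * ξ * u)

/-- The smoothed zeta sum of length `N`. -/
noncomputable def gg (w : ℝ → ℝ) (N : ℕ) (t : ℝ) : ℂ :=
  ∑ n ∈ range (3 * N), (w (n / N) : ℂ) * ei (t * Real.log (n / N))

/-- A block of the dual sum, with sign `s`. -/
noncomputable def blk (w : ℝ → ℝ) (N : ℕ) (s : ℝ) (I : Finset ℕ) (t : ℤ) : ℂ :=
  ∑ m ∈ I, (N : ℂ) * ff w t (s * m * N)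

/-- The nonzero frequencies up to `M` of the dual sum. -/
noncomputable def kr (w : ℝ → ℝ) (N M : ℕ) (t : ℤ) : ℂ :=
  blk w N 1 (Icc 1 M) t + blk w N (-1) (Icc 1 M) t

/-- The weighted trace of a product of three kernels. -/
noncomputable def tri (k1 k2 k3 : ℤ → ℂ) (U1 U2 U3 : Finset ℤ) (c1 c2 c3 : ℤ → ℂ) : ℂ :=
  ∑ t1 ∈ U1, ∑ t2 ∈ U2, ∑ t3 ∈ U3,
    c1 t1 * c2 t2 * c3 t3 * (k1 (t1 - t2) * k2 (t2 - t3) * k3 (t3 - t1))

/-- The linear form. -/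
noncomputable def lin (s1 s2 s3 : ℝ) (p : ℝ × ℝ) : ℝ := s1 * Real.exp p.1 + s2 * Real.exp p.2 + s3

/-- The box. -/
def box (M1 M2 M3 : ℝ) : Set (ℝ × ℝ) :=
  {p | |p.1 - Real.log (M1 / M3)| ≤ 2 ∧ |p.2 - Real.log (M2 / M3)| ≤ 2}

/-- The part of the box near the line. -/
def reg (s1 s2 s3 δ M1 M2 M3 : ℝ) : Set (ℝ × ℝ) :=
  {p | |lin s1 s2 s3 p| ≤ δ} ∩ box M1 M2 M3

/-- The trace over the dual variables. -/
noncomputable def dsum (I1 I2 I3 : Finset ℕ) (p1 p2 p3 : ℝ → ℂ) (d1 d2 d3 : ℕ → ℂ)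
    (p : ℝ × ℝ) : ℂ :=
  ∑ m1 ∈ I1, ∑ m2 ∈ I2, ∑ m3 ∈ I3, d1 m1 * d2 m2 * d3 m3 *
    (p1 (p.1 - Real.log m1 + Real.log m3) * p2 (p.2 - p.1 - Real.log m2 + Real.log m1) *
      p3 (-p.2 - Real.log m3 + Real.log m2))

/-- The integrand of the triple integral. -/
noncomputable def hh (w : ℝ → ℝ) (N : ℕ) (s1 s2 s3 : ℝ) (I1 I2 I3 : Finset ℕ) (p1 p2 p3 : ℝ → ℂ)
    (r : ℝ) (p : ℝ × ℝ) : ℂ :=
  ((r ^ 2 * Real.exp (p.1 + p.2) : ℝ) : ℂ) * ei (-(2 * π * r * lin s1 s2 s3 p)) *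
    dsum I1 I2 I3 p1 p2 p3 (fun m => ((w (r * Real.exp p.1 / (m * N)) / m : ℝ) : ℂ))
      (fun m => ((w (r * Real.exp p.2 / (m * N)) / m : ℝ) : ℂ))
      (fun m => ((w (r / (m * N)) / m : ℝ) : ℂ)) p

/-- The integrals of `φ` over intervals of length `8` are at most `B`. -/
def MeanLe (φ : ℝ → ℝ) (B : ℝ) : Prop := ∀ x : ℝ, ∫ θ in Set.Icc x (x + 8), φ θ ≤ B

/-- The square of the Hilbert-Schmidt norm. -/
noncomputable def xx (W : Finset ℤ) (I I' : Finset ℕ) (θ : ℝ) : ℝ :=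
  ∑ m ∈ I, ∑ k ∈ I', ‖rr W (-θ - Real.log k + Real.log m)‖ ^ 2

/-- The fourth power of the Schatten 4-norm. -/
noncomputable def aa (W : Finset ℤ) (I I' : Finset ℕ) (s θ : ℝ) : ℝ :=
  ∑ m ∈ I, ∑ m' ∈ I, ‖∑ k ∈ I', rr W (θ + s * (Real.log k - Real.log m)) *
    (starRingEnd ℂ) (rr W (θ + s * (Real.log k - Real.log m')))‖ ^ 2

lemma continuous_ei : Continuous ei := by
  unfold ei
  fun_prop

lemma continuous_tp (W : Finset ℤ) (c : ℤ → ℂ) : Continuous (tp W c) := by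
  unfold tp
  exact continuous_finsetSum _ fun t _ =>
    continuous_const.mul (continuous_ei.comp (continuous_const.mul continuous_id))

lemma continuous_rr (W : Finset ℤ) : Continuous (rr W) := by
  unfold rr
  exact continuous_finsetSum _ fun t _ => continuous_ei.comp (continuous_const.mul continuous_id)

lemma norm_tp_le (W : Finset ℤ) (c : ℤ → ℂ) (θ : ℝ) : ‖tp W c θ‖ ≤ ∑ t ∈ W, ‖c t‖ := by
  refine (norm_sum_le _ _).trans (le_of_eq ?_)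
  simp [Bar.norm_ei]

lemma norm_rr_le (W : Finset ℤ) (θ : ℝ) : ‖rr W θ‖ ≤ W.card := by
  refine (norm_sum_le _ _).trans (le_of_eq ?_)
  simp [Bar.norm_ei]

lemma norm_zz_neg (I : Finset ℕ) (t : ℤ) : ‖zz I (-t)‖ = ‖zz I t‖ := by
  have : zz I (-t) = (starRingEnd ℂ) (zz I t) := by
    unfold zz
    rw [map_sum]
    refine sum_congr rfl fun m _ => ?_
    rw [Bar.conj_ei]
    push_cast
    ring_nf
  rw [this, Complex.norm_conj]

lemma wen_nonneg (W : Finset ℤ) {f g : ℤ → ℝ} (hf : ∀ t, 0 ≤ f t) (hg : ∀ t, 0 ≤ g t) :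
    0 ≤ wen W f g := by
  refine sum_nonneg fun t1 _ => sum_nonneg fun t2 _ => sum_nonneg fun t3 _ => ?_
  split_ifs
  · exact mul_nonneg (hf _) (hg _)
  · exact le_rfl

lemma en_nonneg (W : Finset ℤ) : 0 ≤ en W := wen_nonneg W (fun _ => zero_le_one) fun _ => zero_le_one

lemma yy_nonneg (T : ℝ) (W : Finset ℤ) : 0 ≤ yy T W := Real.sqrt_nonneg _

lemma s4_nonneg (W : Finset ℤ) (I : Finset ℕ) : 0 ≤ s4 W I :=
  sum_nonneg fun _ _ => sum_nonneg fun _ _ => by positivity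

lemma Loss.one_le {T P : ℝ} (h : Loss T P) : 1 ≤ P := by
  have h1 : (1 : ℝ) ≤ T ^ 4 := one_le_pow₀ h.hT
  have := Real.log_nonneg (x := 100 * T ^ 4) (by linarith)
  linarith [h.lg]

lemma mem_dv {J : Finset ℕ} {d a : ℕ} (hd : 1 ≤ d) : a ∈ dv J d ↔ d * a ∈ J := by
  unfold dv
  simp only [mem_image, mem_filter]
  constructor
  · rintro ⟨n, ⟨hn, hdn⟩, rfl⟩
    rwa [Nat.mul_div_cancel' hdn]
  · intro h
    exact ⟨d * a, ⟨h, Dvd.intro _ rfl⟩, Nat.mul_div_cancel_left a hd⟩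

lemma InI.dv {J : Finset ℕ} {L k : ℝ} (h : InI J L k) {d : ℕ} (hd : 1 ≤ d) :
    InI (dv J d) (L / d) k := by
  intro a ha
  have h1 := h _ ((mem_dv hd).1 ha)
  have hd' : (0 : ℝ) < d := by exact_mod_cast hd
  push_cast at h1
  constructor
  · rw [div_le_iff₀ hd']; linarith [h1.1]
  · rw [← mul_div_assoc, le_div_iff₀ hd']; linarith [h1.2]

lemma InI.mono {J : Finset ℕ} {L k k' : ℝ} (h : InI J L k) (hL : 0 ≤ L) (hk : k ≤ k') :
    InI J L k' := fun n hn => ⟨(h n hn).1, (h n hn).2.trans (mul_le_mul_of_nonneg_right hk hL)⟩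

lemma InI.card_le {J : Finset ℕ} {L k : ℝ} (h : InI J L k) (hL : 0 < L) (hk : 0 ≤ k) :
    (J.card : ℝ) ≤ k * L := by
  have h1 : J ⊆ Icc 1 ⌊k * L⌋₊ := fun n hn => by
    have h2 := h n hn
    have h3 : (0 : ℝ) < n := hL.trans_le h2.1
    exact mem_Icc.2 ⟨by exact_mod_cast h3, Nat.le_floor h2.2⟩
  have h2 := card_le_card h1
  rw [Nat.card_Icc, Nat.add_sub_cancel] at h2
  calc (J.card : ℝ) ≤ ⌊k * L⌋₊ := by exact_mod_cast h2
    _ ≤ _ := Nat.floor_le (by positivity)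

lemma inI_Icc (N : ℕ) : InI (Icc N (2 * N)) N 2 := fun n hn => by
  have h := mem_Icc.1 hn
  exact ⟨by exact_mod_cast h.1, by exact_mod_cast h.2⟩

lemma exists_wt : ∃ w, Wt w := by
  let f : ContDiffBump (3 / 2 : ℝ) := ⟨1 / 2, 3 / 4, by norm_num, by norm_num⟩
  refine ⟨f, ⟨⟨fun n => f.contDiff, fun u hu => ?_⟩, fun u => f.nonneg, fun u => f.le_one,
    fun u h1 h2 => ?_⟩⟩
  · refine f.zero_of_le_dist ?_
    rw [Real.dist_eq]
    show (3 / 4 : ℝ) ≤ _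
    rcases hu with hu | hu
    · rw [abs_of_neg (by linarith)]; linarith
    · rw [abs_of_pos (by linarith)]; linarith
  · refine f.one_of_mem_closedBall ?_
    rw [Metric.mem_closedBall, Real.dist_eq]
    show _ ≤ (1 / 2 : ℝ)
    rw [abs_le]; constructor <;> linarith

end Pool.Agent.Lib.MP_ecd12e_nt.Sch
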