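import Pool.Agent.Lib.MP_ecd12e_nt.Sch.Op

set_option autoImplicit false

namespace Pool.Agent.Lib.MP_ecd12e_nt.Sch

open Finset Real MeasureTheory
open Pool.Agent.Lib.MP_ecd12e_nt.Bar (ei)

lemma energy_inner (W : Finset ℤ) (θ : ℝ) :
    ‖∑ i ∈ W ×ˢ W ×ˢ W, (((1 : ℝ) : ℝ) : ℂ) * ei (((i.1 + i.2.2 - i.2.1 : ℤ) : ℝ) * θ)‖ =
      ‖rr W θ‖ ^ 3 := by
  have e : ∑ i ∈ W ×ˢ W ×ˢ W, (((1 : ℝ) : ℝ) : ℂ) * ei (((i.1 + i.2.2 - i.2.1 : ℤ) : ℝ) * θ) =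
      rr W θ * ((starRingEnd ℂ) (rr W θ) * rr W θ) := by
    unfold rr
    rw [map_sum, sum_mul_sum, ← sum_product', sum_mul_sum, ← sum_product']
    refine sum_congr rfl fun i _ => ?_
    rw [Bar.conj_ei, ← Bar.ei_add, ← Bar.ei_add, Complex.ofReal_one, one_mul]
    congr 1
    push_cast
    ring
  rw [e, norm_mul, norm_mul, Complex.norm_conj]
  ring

lemma energy_major {N : ℕ} {T V : ℝ} {b : ℕ → ℂ} {W : Finset ℤ} (h : LV N T V b W) (hV : 0 ≤ V) :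
    V ^ 2 * en W ≤ ∑ n ∈ Icc N (2 * N), ∑ n' ∈ Icc N (2 * N),
      ‖rr W (Real.log n - Real.log n')‖ ^ 3 := by
  have h1 := major h hV (W ×ˢ W ×ˢ W) (fun i => i.1 + i.2.2 - i.2.1) (fun _ => (1 : ℝ))
    (fun _ _ => zero_le_one)
  simp only [energy_inner] at h1
  refine le_trans (le_of_eq ?_) h1
  congr 1
  unfold en wen
  rw [sum_product]
  refine sum_congr rfl fun t1 _ => ?_
  rw [sum_product]
  simp only [mul_one]

lemma energy_cs {ι : Type*} (S : Finset ι) (a : ι → ℝ) :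
    (∑ i ∈ S, a i ^ 3) ^ 2 ≤ (∑ i ∈ S, a i ^ 2) * ∑ i ∈ S, a i ^ 4 := by
  have h := sum_mul_sq_le_sq_mul_sq S a (fun i => a i ^ 2)
  have e1 : ∑ i ∈ S, a i * a i ^ 2 = ∑ i ∈ S, a i ^ 3 := sum_congr rfl fun i _ => by ring
  have e2 : ∑ i ∈ S, (a i ^ 2) ^ 2 = ∑ i ∈ S, a i ^ 4 := sum_congr rfl fun i _ => by ring
  rwa [e1, e2] at h

lemma energy_cs' {ι : Type*} (S : Finset ι) (a : ι → ℝ) :
    (∑ i ∈ S, a i ^ 2) ^ 2 ≤ S.card * ∑ i ∈ S, a i ^ 4 := by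
  have h := sq_sum_le_card_mul_sum_sq (s := S) (f := fun i => a i ^ 2)
  have e2 : ∑ i ∈ S, (a i ^ 2) ^ 2 = ∑ i ∈ S, a i ^ 4 := sum_congr rfl fun i _ => by ring
  rwa [e2] at h

lemma energy_rpow {R : ℝ} (hR : 0 ≤ R) : (R ^ (5 / 6 : ℝ)) ^ 3 = R ^ 2 * √R := by
  rw [← Real.rpow_natCast, ← Real.rpow_mul hR, Real.sqrt_eq_rpow, ← Real.rpow_natCast,
    ← Real.rpow_add' hR (by norm_num)]
  norm_num

/-- The small divisors. -/
lemma energy_a {N : ℕ} {T P : ℝ} {W : Finset ℤ} (hW : InR W T) (hP : Loss T P) (hN : 1 ≤ N)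
    (hNT : (N : ℝ) ≤ T) {d : ℕ} (hd : 1 ≤ d) :
    ∑ p ∈ cop (Icc N (2 * N)) d, ‖rr W (lg p)‖ ^ 3 ≤
      160 * P * (T + ((N : ℝ) / d) ^ 2) * √(W.card * en W) := by
  have hT := hP.hT
  have hP1 := hP.one_le
  have hN0 : (0 : ℝ) < N := by exact_mod_cast hN
  have hLT : (N : ℝ) ≤ T ^ 2 := by nlinarith
  have hJ : InI (Icc N (2 * N)) N 4 := (inI_Icc N).mono hN0.le (by norm_num)
  have h2 := cop_sieve hP hN0 hLT hJ hd hT hW (fun _ => 1)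
  have h4 := cop_four hP hN0 hLT hJ hd hW
  simp only [← rr_eq, norm_one, one_pow, sum_const, nsmul_eq_mul, mul_one] at h2
  have hE := en_nonneg W
  have hRE : 0 ≤ (W.card : ℝ) * en W := by positivity
  set A := T + ((N : ℝ) / d) ^ 2 with hA
  have hA0 : 0 ≤ A := by positivity
  refine le_of_pow_le_pow_left₀ (n := 2) (by norm_num) (by positivity) ?_
  refine (energy_cs _ _).trans ?_
  refine (mul_le_mul h2 h4 (sum_nonneg fun _ _ => by positivity) (by positivity)).trans ?_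
  rw [mul_pow, Real.sq_sqrt hRE]
  have h5 : 0 ≤ P ^ 2 * A ^ 2 * (W.card * en W) := by positivity
  nlinarith

/-- The large divisors. -/
lemma energy_b {N : ℕ} {T P : ℝ} {W : Finset ℤ} (hW : InR W T) (hP : Loss T P) (hN : 1 ≤ N)
    (hNT : (N : ℝ) ≤ T) {d : ℕ} (hd : 1 ≤ d) :
    ∑ p ∈ cop (Icc N (2 * N)) d, ‖rr W (lg p)‖ ^ 3 ≤
      23 * P ^ 2 * ((W.card : ℝ) ^ 2 * √(W.card : ℝ) * ((N : ℝ) / d) ^ 2 +
        (W.card : ℝ) ^ 2 * ((N : ℝ) / d) * √(yy T W)) := by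
  have hP1 := hP.one_le
  have hN0 : (0 : ℝ) < N := by exact_mod_cast hN
  have hd1 : (1 : ℝ) ≤ d := by exact_mod_cast hd
  have hQ : 0 < (N : ℝ) / d := by positivity
  have hQT : (N : ℝ) / d ≤ T := (div_le_self hN0.le hd1).trans hNT
  have h4 := fourth hP hQ hQT ((inI_Icc N).dv hd) hW
  have hp := pair_le W (dv (Icc N (2 * N)) d) (fun _ => 1)
  simp only [← rr_eq, norm_one, one_pow, sum_const, nsmul_eq_mul, mul_one] at hp
  set Q := (N : ℝ) / d with hQdef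
  have hR : (0 : ℝ) ≤ W.card := Nat.cast_nonneg _
  have hY := yy_nonneg T W
  have h5 : √(s4 W (dv (Icc N (2 * N)) d)) ≤
      23 * P ^ 2 * (√(W.card : ℝ) * Q ^ 2 + Q * √(yy T W)) := by
    refine Real.sqrt_le_iff.2 ⟨by positivity, h4.trans ?_⟩
    have e1 := Real.sq_sqrt hR
    have e2 := Real.sq_sqrt hY
    set u := √(W.card : ℝ)
    set v := √(yy T W)
    have hu : 0 ≤ u := Real.sqrt_nonneg _
    have hv : 0 ≤ v := Real.sqrt_nonneg _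
    rw [← e1, ← e2]
    have h6 : 0 ≤ P ^ 4 * (u ^ 2 * Q ^ 4) := by positivity
    have h7 : 0 ≤ P ^ 4 * (Q ^ 2 * v ^ 2) := by positivity
    have h8 : 0 ≤ P ^ 4 * (u * Q ^ 3 * v) := by positivity
    nlinarith
  have h6 : ∑ p ∈ cop (Icc N (2 * N)) d, ‖rr W (lg p)‖ ^ 2 ≤
      ∑ a ∈ dv (Icc N (2 * N)) d, ∑ q ∈ dv (Icc N (2 * N)) d,
        ‖rr W (Real.log a - Real.log q)‖ ^ 2 := by
    rw [← sum_product']
    exact sum_le_sum_of_subset_of_nonneg (filter_subset _ _) fun _ _ _ => by positivity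
  have h7 : ∑ p ∈ cop (Icc N (2 * N)) d, ‖rr W (lg p)‖ ^ 3 ≤
      W.card * ∑ p ∈ cop (Icc N (2 * N)) d, ‖rr W (lg p)‖ ^ 2 := by
    rw [mul_sum]
    refine sum_le_sum fun p _ => ?_
    rw [pow_succ']
    exact mul_le_mul_of_nonneg_right (norm_rr_le W _) (by positivity)
  calc _ ≤ _ := h7
    _ ≤ W.card * (W.card * (23 * P ^ 2 * (√(W.card : ℝ) * Q ^ 2 + Q * √(yy T W)))) :=
        mul_le_mul_of_nonneg_left ((h6.trans hp).trans (mul_le_mul_of_nonneg_left h5 hR)) hR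
    _ = _ := by ring

lemma energy_c {N : ℕ} {T P : ℝ} {W : Finset ℤ} (hW : InR W T) (hP : Loss T P) (hN : 1 ≤ N)
    (hNT : (N : ℝ) ≤ T) {d : ℕ} (hd : 1 ≤ d) (hQT : ((N : ℝ) / d) ^ 2 ≤ T) :
    ∑ p ∈ cop (Icc N (2 * N)) d, ‖rr W (lg p)‖ ^ 3 ≤
      140 * P * (√((N : ℝ) / d) * yy T W * √(yy T W)) := by
  have hT := hP.hT
  have hP1 := hP.one_le
  have hN0 : (0 : ℝ) < N := by exact_mod_cast hN
  have hLT : (N : ℝ) ≤ T ^ 2 := by nlinarith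
  have hJ : InI (Icc N (2 * N)) N 4 := (inI_Icc N).mono hN0.le (by norm_num)
  have h4 := cop_four hP hN0 hLT hJ hd hW
  have hc := card_cop_le hN0 (by norm_num) (inI_Icc N) hd
  have hE := en_nonneg W
  have hY := yy_nonneg T W
  have hY2 : yy T W ^ 2 = T * en W := Real.sq_sqrt (by positivity)
  set Q := (N : ℝ) / d with hQdef
  have hQ : 0 ≤ Q := by positivity
  have hA := energy_cs (cop (Icc N (2 * N)) d) (fun p => ‖rr W (lg p)‖)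
  have hB := energy_cs' (cop (Icc N (2 * N)) d) (fun p => ‖rr W (lg p)‖)
  set C := ∑ p ∈ cop (Icc N (2 * N)) d, ‖rr W (lg p)‖ ^ 3
  set A2 := ∑ p ∈ cop (Icc N (2 * N)) d, ‖rr W (lg p)‖ ^ 2
  set A4 := ∑ p ∈ cop (Icc N (2 * N)) d, ‖rr W (lg p)‖ ^ 4 with hA4def
  have hA40 : 0 ≤ A4 := sum_nonneg fun _ _ => by positivity
  have hA4 : A4 ≤ 448 * P * yy T W ^ 2 := by
    refine h4.trans ?_
    rw [hY2]
    have := mul_le_mul_of_nonneg_right hQT (by positivity : 0 ≤ P * en W)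
    nlinarith
  have hA2 : A2 ^ 2 ≤ (2 * Q) ^ 2 * A4 := hB.trans (mul_le_mul_of_nonneg_right hc hA40)
  have hC4 : C ^ 4 ≤ (2 * Q) ^ 2 * (448 * P * yy T W ^ 2) ^ 3 := by
    calc C ^ 4 = (C ^ 2) ^ 2 := by ring
      _ ≤ (A2 * A4) ^ 2 := pow_le_pow_left₀ (sq_nonneg _) hA 2
      _ = A2 ^ 2 * A4 ^ 2 := by ring
      _ ≤ (2 * Q) ^ 2 * A4 * A4 ^ 2 := mul_le_mul_of_nonneg_right hA2 (sq_nonneg _)
      _ = (2 * Q) ^ 2 * A4 ^ 3 := by ring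
      _ ≤ _ := mul_le_mul_of_nonneg_left (pow_le_pow_left₀ hA40 hA4 3) (sq_nonneg _)
  refine le_of_pow_le_pow_left₀ (n := 4) (by norm_num) (by positivity) (hC4.trans ?_)
  have e1 : √Q ^ 4 = Q ^ 2 := by
    rw [show √Q ^ 4 = (√Q ^ 2) ^ 2 by ring, Real.sq_sqrt hQ]
  have e2 : √(yy T W) ^ 4 = yy T W ^ 2 := by
    rw [show √(yy T W) ^ 4 = (√(yy T W) ^ 2) ^ 2 by ring, Real.sq_sqrt hY]
  have e3 : (140 * P * (√Q * yy T W * √(yy T W))) ^ 4 =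
      384160000 * (P ^ 4 * (Q ^ 2 * yy T W ^ 6)) := by
    rw [mul_pow, mul_pow (√Q * yy T W), mul_pow (√Q), e1, e2]
    ring
  have e4 : (2 * Q) ^ 2 * (448 * P * yy T W ^ 2) ^ 3 =
      359661568 * (P ^ 3 * (Q ^ 2 * yy T W ^ 6)) := by ring
  rw [e3, e4]
  have h5 : P ^ 3 ≤ P ^ 4 := pow_le_pow_right₀ hP1 (by norm_num)
  have h6 : 0 ≤ Q ^ 2 * yy T W ^ 6 := by positivity
  have h7 := mul_le_mul_of_nonneg_right h5 h6
  have h8 : 0 ≤ P ^ 3 * (Q ^ 2 * yy T W ^ 6) := by positivity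
  linarith

lemma energy_min {R Q Y m : ℝ} (hR : 0 ≤ R) (hQ : 0 ≤ Q) (hY : 0 ≤ Y) (hm : 0 ≤ m)
    (h1 : m ≤ R ^ 2 * √R * Q ^ 2) (h2 : m ≤ √Q * Y * √Y) : m ≤ R ^ (5 / 6 : ℝ) * Q * Y := by
  refine le_of_pow_le_pow_left₀ (n := 3) (by norm_num) (by positivity) ?_
  have e1 : (√Q * Y * √Y) ^ 2 = Q * Y ^ 3 := by
    rw [mul_pow, mul_pow, Real.sq_sqrt hQ, Real.sq_sqrt hY]
    ring
  have h3 : m ^ 2 ≤ Q * Y ^ 3 := e1 ▸ pow_le_pow_left₀ hm h2 2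
  calc m ^ 3 = m * m ^ 2 := by ring
    _ ≤ R ^ 2 * √R * Q ^ 2 * (Q * Y ^ 3) := mul_le_mul h1 h3 (sq_nonneg _) (by positivity)
    _ = _ := by
      rw [mul_pow, mul_pow, energy_rpow hR]
      ring

lemma energy_d {N : ℕ} {T P : ℝ} {W : Finset ℤ} (hW : InR W T) (hP : Loss T P) (hN : 1 ≤ N)
    (hNT : (N : ℝ) ≤ T) (hTN : T ≤ (N : ℝ) ^ 2) {d : ℕ} (hd : 1 ≤ d) :
    ∑ p ∈ cop (Icc N (2 * N)) d, ‖rr W (lg p)‖ ^ 3 ≤
      160 * P * √(W.card * en W) * ((N : ℝ) / d) ^ 2 +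
      (160 * P * √(W.card * en W) * N + 140 * P ^ 2 * ((W.card : ℝ) ^ 2 * √(yy T W) +
        (W.card : ℝ) ^ (5 / 6 : ℝ) * yy T W)) * ((N : ℝ) / d) := by
  have hT := hP.hT
  have hP1 := hP.one_le
  have hN0 : (0 : ℝ) < N := by exact_mod_cast hN
  have hd0 : (0 : ℝ) < d := by exact_mod_cast hd
  have hR : (0 : ℝ) ≤ W.card := Nat.cast_nonneg _
  have hY := yy_nonneg T W
  have ha := energy_a hW hP hN hNT hd
  have hb := energy_b hW hP hN hNT hd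
  have hc := energy_c hW hP hN hNT hd
  set Q := (N : ℝ) / d with hQdef
  have hQ : 0 ≤ Q := by positivity
  have hρ : 0 ≤ (W.card : ℝ) ^ (5 / 6 : ℝ) := by positivity
  have hmin := energy_min (m := min ((W.card : ℝ) ^ 2 * √(W.card : ℝ) * Q ^ 2)
    (√Q * yy T W * √(yy T W))) hR hQ hY (le_min (by positivity) (by positivity))
    (min_le_left _ _) (min_le_right _ _)
  set ρ := (W.card : ℝ) ^ (5 / 6 : ℝ)
  set S := √(W.card * en W)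
  have hS : 0 ≤ S := Real.sqrt_nonneg _
  have hv : 0 ≤ √(yy T W) := Real.sqrt_nonneg _
  have g1 : 0 ≤ P * S * Q ^ 2 := by positivity
  have g2 : 0 ≤ P * S * N * Q := by positivity
  have g3 : 0 ≤ P ^ 2 * ((W.card : ℝ) ^ 2 * √(yy T W) * Q) := by positivity
  have g4 : 0 ≤ P ^ 2 * (ρ * Q * yy T W) := by positivity
  rcases le_total T (N * Q) with h | h
  · have := mul_le_mul_of_nonneg_left h (by positivity : 0 ≤ P * S)
    nlinarith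
  · have hQT : Q ^ 2 ≤ T := by
      have h1 : (N * Q) ^ 2 ≤ T ^ 2 := pow_le_pow_left₀ (by positivity) h 2
      have h2 : (N : ℝ) ^ 2 * Q ^ 2 ≤ (N : ℝ) ^ 2 * T := by nlinarith
      exact le_of_mul_le_mul_left h2 (by positivity)
    have hc' := hc hQT
    rcases le_total ((W.card : ℝ) ^ 2 * √(W.card : ℝ) * Q ^ 2) (√Q * yy T W * √(yy T W))
      with h' | h'
    · rw [min_eq_left h'] at hmin
      have := mul_le_mul_of_nonneg_left hmin (by positivity : 0 ≤ P ^ 2)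
      nlinarith
    · rw [min_eq_right h'] at hmin
      have h1 := mul_le_mul_of_nonneg_left hmin (by positivity : 0 ≤ P)
      have h2 : P * (ρ * Q * yy T W) ≤ P ^ 2 * (ρ * Q * yy T W) :=
        mul_le_mul_of_nonneg_right (by nlinarith) (by positivity)
      nlinarith

/-- Energy bound. `major` gives `V ^ 2 E ≤ ∑ n n', ‖rr W (log n - log n')‖ ^ 3`; split by
`frac_split`, `Q = N / d`, `C d = ∑ p ∈ cop J d, ‖rr‖ ^ 3`.
(a) `C d ≤ √(∑ ‖rr‖ ^ 2) √(∑ ‖rr‖ ^ 4) ≤ 160 P (T + Q ^ 2) √(R E)`; use it for `d T ≤ N ^ 2`.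
For `d T > N ^ 2` one has `Q < T / N`, so `Q ^ 2 ≤ T`, and
(b) `C d ≤ R ∑ ‖rr‖ ^ 2 ≤ R * R * √(s4 W (dv J d)) ≤ 23 P ^ 2 R ^ 2 (√R Q ^ 2 + Q √Y)`,
(c) `∑ ‖rr‖ ^ 4 ≤ 448 P Y ^ 2`, `∑ ‖rr‖ ^ 2 ≤ 2 Q √(448 P) Y`, so
`C d ≤ 140 P √Q Y √Y`. If `m ≤ R ^ 2 √R Q ^ 2` and `m ≤ √Q Y √Y` then
`m ^ 3 ≤ R ^ (5/2) Q ^ 3 Y ^ 3`. So `C d ≤ 140 P ^ 2 Q (R ^ 2 √Y + R ^ (5/6) Y)`. -/
theorem energy {N : ℕ} {T V P : ℝ} {b : ℕ → ℂ} {W : Finset ℤ} (h : LV N T V b W) (hV : 0 ≤ V)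
    (hP : Loss T P) (hN : 1 ≤ N) (hNT : (N : ℝ) ≤ T) (hTN : T ≤ (N : ℝ) ^ 2) :
    V ^ 2 * en W ≤ 500 * P ^ 3 * ((N : ℝ) ^ 2 * √(W.card * en W) +
      N * (W.card : ℝ) ^ 2 * √(yy T W) + N * (W.card : ℝ) ^ (5 / 6 : ℝ) * yy T W) := by
  have hT := hP.hT
  have hP1 := hP.one_le
  have hN0 : (0 : ℝ) < N := by exact_mod_cast hN
  refine (energy_major h hV).trans ?_
  rw [frac_split (B := 2 * N) (fun n hn => ⟨hN.trans (mem_Icc.1 hn).1, (mem_Icc.1 hn).2⟩)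
    (fun θ => ‖rr W θ‖ ^ 3)]
  refine (sum_le_sum fun d hd => energy_d h.inr hP hN hNT hTN (mem_Icc.1 hd).1).trans ?_
  rw [sum_add_distrib, ← mul_sum, ← mul_sum]
  have h1 := sum_sq_div_le (N : ℝ) (2 * N)
  have h2 := sum_div_le hP hN0.le (B := 2 * N) (by
    have : T ≤ T ^ 4 := le_self_pow₀ hT (by norm_num)
    push_cast
    linarith)
  have hY := yy_nonneg T W
  have hρ : 0 ≤ (W.card : ℝ) ^ (5 / 6 : ℝ) := by positivity
  set ρ := (W.card : ℝ) ^ (5 / 6 : ℝ)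
  set S := √(W.card * en W)
  have hS : 0 ≤ S := Real.sqrt_nonneg _
  have hv : 0 ≤ √(yy T W) := Real.sqrt_nonneg _
  refine (add_le_add (mul_le_mul_of_nonneg_left h1 (by positivity))
    (mul_le_mul_of_nonneg_left h2 (by positivity))).trans ?_
  have hx : 0 ≤ (N : ℝ) ^ 2 * S := by positivity
  have p1 : P ≤ P ^ 3 := le_self_pow₀ hP1 (by norm_num)
  have p2 : P ^ 2 ≤ P ^ 3 := pow_le_pow_right₀ hP1 (by norm_num)
  have g1 := mul_le_mul_of_nonneg_right p1 hx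
  have g2 := mul_le_mul_of_nonneg_right p2 hx
  have g3 : 0 ≤ P ^ 3 * (N * (W.card : ℝ) ^ 2 * √(yy T W)) := by positivity
  have g4 : 0 ≤ P ^ 3 * (N * ρ * yy T W) := by positivity
  have g5 : 0 ≤ P ^ 3 * ((N : ℝ) ^ 2 * S) := by positivity
  nlinarith

end Pool.Agent.Lib.MP_ecd12e_nt.Sch
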