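import Pool.Agent.Lib.MP_ecd12e_nt.Sch.Defs

set_option autoImplicit false

namespace Pool.Agent.Lib.MP_ecd12e_nt.Sch

open Finset Real MeasureTheory
open Pool.Agent.Lib.MP_ecd12e_nt.Bar (ei)

theorem lp_main {σ τ ρ e η : ℝ} (h1 : 7 / 10 ≤ σ) (h2 : σ ≤ 1)
    (h4 : τ ≤ (38 * σ - 14) / 9) (h5 : τ ≤ (20 - 15 * σ) / 6 ∨ τ ≤ 3 / 2) (hη : 0 ≤ η)
    (hE : e + 2 * σ ≤ η + max (2 + (ρ + e) / 2) (max (1 + 2 * ρ + (τ + e) / 4)
      (1 + 5 * ρ / 6 + (τ + e) / 2)))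
    (hM : ρ + 2 * σ ≤ 2 + η ∨ 3 * (ρ + 2 * σ - 1) ≤ η + max (3 + ρ) (max (2 + (τ + e) / 2)
      (2 + ρ / 2 - σ + max 2 (max (1 + (τ + e) / 4) (1 + τ / 2 + ρ / 4)) / 2 +
        max (ρ + 4 * (τ - 1)) (2 * (τ - 1) + (τ + e) / 2) / 2))) :
    ρ ≤ 2 * η + max (max (3 - 3 * σ) ((5 * τ + 24 - 32 * σ) / 9))
      (max ((8 * τ + 32 - 46 * σ) / 11) (τ + 2 - 7 * σ / 2)) := by
  have a1 := le_max_left (3 - 3 * σ) ((5 * τ + 24 - 32 * σ) / 9)
  have a2 := le_max_right (3 - 3 * σ) ((5 * τ + 24 - 32 * σ) / 9)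
  have a3 := le_max_left ((8 * τ + 32 - 46 * σ) / 11) (τ + 2 - 7 * σ / 2)
  have a4 := le_max_right ((8 * τ + 32 - 46 * σ) / 11) (τ + 2 - 7 * σ / 2)
  have a5 := le_max_left (max (3 - 3 * σ) ((5 * τ + 24 - 32 * σ) / 9))
      (max ((8 * τ + 32 - 46 * σ) / 11) (τ + 2 - 7 * σ / 2))
  have a6 := le_max_right (max (3 - 3 * σ) ((5 * τ + 24 - 32 * σ) / 9))
      (max ((8 * τ + 32 - 46 * σ) / 11) (τ + 2 - 7 * σ / 2))
  generalize max (max (3 - 3 * σ) ((5 * τ + 24 - 32 * σ) / 9))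
      (max ((8 * τ + 32 - 46 * σ) / 11) (τ + 2 - 7 * σ / 2)) = β at *
  have b1 : 3 - 3 * σ ≤ β := by linarith
  have b2 : (5 * τ + 24 - 32 * σ) / 9 ≤ β := by linarith
  have b3 : (8 * τ + 32 - 46 * σ) / 11 ≤ β := by linarith
  have b4 : τ + 2 - 7 * σ / 2 ≤ β := by linarith
  clear a1 a2 a3 a4 a5 a6
  have hE' : e + 2 * σ ≤ η + (2 + (ρ + e) / 2) ∨ e + 2 * σ ≤ η + (1 + 2 * ρ + (τ + e) / 4) ∨
      e + 2 * σ ≤ η + (1 + 5 * ρ / 6 + (τ + e) / 2) := by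
    rcases max_cases (2 + (ρ + e) / 2) (max (1 + 2 * ρ + (τ + e) / 4)
      (1 + 5 * ρ / 6 + (τ + e) / 2)) with h | h
    · left; linarith [h.1]
    · rcases max_cases (1 + 2 * ρ + (τ + e) / 4) (1 + 5 * ρ / 6 + (τ + e) / 2) with h' | h'
      · right; left; linarith [h.1, h'.1]
      · right; right; linarith [h.1, h'.1]
  clear hE
  rcases hM with hM | hM
  · linarith
  rcases max_cases (3 + ρ) (max (2 + (τ + e) / 2)
      (2 + ρ / 2 - σ + max 2 (max (1 + (τ + e) / 4) (1 + τ / 2 + ρ / 4)) / 2 +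
        max (ρ + 4 * (τ - 1)) (2 * (τ - 1) + (τ + e) / 2) / 2)) with h | h
  · linarith [h.1]
  rw [h.1] at hM
  clear h
  rcases max_cases (2 + (τ + e) / 2)
      (2 + ρ / 2 - σ + max 2 (max (1 + (τ + e) / 4) (1 + τ / 2 + ρ / 4)) / 2 +
        max (ρ + 4 * (τ - 1)) (2 * (τ - 1) + (τ + e) / 2) / 2) with h | h
  · rw [h.1] at hM
    clear h
    rcases hE' with hE | hE | hE <;> rcases h5 with h5 | h5 <;> linarith
  rw [h.1] at hM
  clear h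
  rcases max_choice 2 (max (1 + (τ + e) / 4) (1 + τ / 2 + ρ / 4)) with h | h <;> rw [h] at hM <;>
    clear h
  · rcases max_choice (ρ + 4 * (τ - 1)) (2 * (τ - 1) + (τ + e) / 2) with h | h <;> rw [h] at hM <;>
      clear h <;> rcases hE' with hE | hE | hE <;> rcases h5 with h5 | h5 <;> linarith
  · rcases max_choice (1 + (τ + e) / 4) (1 + τ / 2 + ρ / 4) with h | h <;> rw [h] at hM <;>
      clear h <;>
      rcases max_choice (ρ + 4 * (τ - 1)) (2 * (τ - 1) + (τ + e) / 2) with h | h <;> rw [h] at hM <;>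
      clear h <;> rcases hE' with hE | hE | hE <;> rcases h5 with h5 | h5 <;> linarith

/-- The length at which the interval is subdivided. -/
noncomputable def ts (σ : ℝ) : ℝ := min ((38 * σ - 14) / 9) (max ((20 - 15 * σ) / 6) (3 / 2))

theorem ts_bounds {σ : ℝ} (h1 : 7 / 10 ≤ σ) : 1 ≤ ts σ ∧ ts σ ≤ 2 := by
  unfold ts
  rcases min_choice ((38 * σ - 14) / 9) (max ((20 - 15 * σ) / 6) (3 / 2)) with h | h
  · have := min_le_right ((38 * σ - 14) / 9) (max ((20 - 15 * σ) / 6) (3 / 2))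
    have h' : max ((20 - 15 * σ) / 6) (3 / 2) ≤ 2 := max_le (by linarith) (by norm_num)
    constructor <;> linarith
  · have h' : max ((20 - 15 * σ) / 6) (3 / 2) ≤ 2 := max_le (by linarith) (by norm_num)
    have := le_max_right ((20 - 15 * σ) / 6) (3 / 2)
    constructor <;> linarith

theorem lp_sub {σ : ℝ} (h1 : 7 / 10 ≤ σ) (h2 : σ ≤ 1) :
    3 - 3 * σ ≤ ts σ + max (2 - 7 * σ / 2) ((10 - 16 * σ) / 3) ∧
    (5 * ts σ + 24 - 32 * σ) / 9 ≤ ts σ + max (2 - 7 * σ / 2) ((10 - 16 * σ) / 3) ∧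
    (8 * ts σ + 32 - 46 * σ) / 11 ≤ ts σ + max (2 - 7 * σ / 2) ((10 - 16 * σ) / 3) := by
  have a1 := le_max_left (2 - 7 * σ / 2) ((10 - 16 * σ) / 3)
  have a2 := le_max_right (2 - 7 * σ / 2) ((10 - 16 * σ) / 3)
  have a3 := le_max_left ((20 - 15 * σ) / 6) (3 / 2)
  have a4 := le_max_right ((20 - 15 * σ) / 6) (3 / 2)
  unfold ts
  rcases min_choice ((38 * σ - 14) / 9) (max ((20 - 15 * σ) / 6) (3 / 2)) with h | h <;> rw [h] <;>
    refine ⟨?_, ?_, ?_⟩ <;> linarith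

theorem expo_sqrt {N : ℝ} (hN : 0 < N) (a : ℝ) : √(N ^ a) = N ^ (a / 2) := by
  rw [Real.sqrt_eq_rpow, ← Real.rpow_mul hN.le]
  congr 1
  ring

theorem expo_add3 {N η : ℝ} (hN : 1 < N) (h3 : 3 ≤ N ^ η) (a b c : ℝ) :
    N ^ a + N ^ b + N ^ c ≤ N ^ (η + max a (max b c)) := by
  have h0 : 0 < N := by linarith
  have a1 : N ^ a ≤ N ^ max a (max b c) := Real.rpow_le_rpow_of_exponent_le hN.le (le_max_left _ _)
  have a2 : N ^ b ≤ N ^ max a (max b c) :=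
    Real.rpow_le_rpow_of_exponent_le hN.le ((le_max_left _ _).trans (le_max_right _ _))
  have a3 : N ^ c ≤ N ^ max a (max b c) :=
    Real.rpow_le_rpow_of_exponent_le hN.le ((le_max_right _ _).trans (le_max_right _ _))
  have a4 : 3 * N ^ max a (max b c) ≤ N ^ η * N ^ max a (max b c) :=
    mul_le_mul_of_nonneg_right h3 (Real.rpow_nonneg h0.le _)
  rw [Real.rpow_add h0]
  linarith

theorem expo_add2 {N η : ℝ} (hN : 1 < N) (h3 : 3 ≤ N ^ η) (a b : ℝ) :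
    N ^ a + N ^ b ≤ N ^ (η + max a b) := by
  have h0 : 0 < N := by linarith
  have := expo_add3 hN h3 a b b
  rw [max_self] at this
  linarith [Real.rpow_pos_of_pos h0 b]

theorem expo_nat {N : ℝ} (hN : 0 < N) (a : ℝ) (k : ℕ) : (N ^ a) ^ k = N ^ (k * a) := by
  rw [← Real.rpow_natCast, ← Real.rpow_mul hN.le, mul_comm]

theorem expo_max {N : ℝ} (hN : 0 < N) (a b : ℝ) : N ^ max a b ≤ N ^ a + N ^ b := by
  have h1 := Real.rpow_pos_of_pos hN a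
  have h2 := Real.rpow_pos_of_pos hN b
  rcases max_choice a b with h | h <;> rw [h] <;> linarith

/-- Passage to exponents. Write `R = N ^ ρ`, `E = N ^ e`, `T = N ^ τ` (`Real.logb`,
`Real.rpow_logb`); a sum of at most three powers of `N` is at most `3 N ^ max ≤ N ^ (η + max)`;
square roots halve exponents. Apply `lp_main` with `3 η` in place of `η`. -/
theorem expo {N R E T σ η : ℝ} (hN : 1 < N) (hη : 0 ≤ η) (h3 : 3 ≤ N ^ η) (hR : 1 ≤ R) (hE : 1 ≤ E)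
    (hT : N ≤ T) (h1 : 7 / 10 ≤ σ) (h2 : σ ≤ 1) (hts : T ≤ N ^ ts σ)
    (hen : (N ^ σ) ^ 2 * E ≤ N ^ η * (N ^ 2 * √(R * E) + N * R ^ 2 * √(√(T * E)) +
      N * R ^ (5 / 6 : ℝ) * √(T * E)))
    (hm : R * (N ^ σ) ^ 2 ≤ N ^ (2 + η) ∨
      (R * (N ^ σ) ^ 2 / N) ^ 3 ≤ N ^ η * (N ^ 3 * R + N ^ 2 * √(T * E) +
        N ^ 2 * √R * √(N ^ 2 + N * √(√(T * E)) + N * √T * √(√R)) / N ^ σ *
          √(R * (T / N) ^ 4 + (T / N) ^ 2 * √(T * E)))) :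
    R ≤ N ^ (6 * η) * (N ^ (3 - 3 * σ) + T ^ (5 / 9 : ℝ) * N ^ ((24 - 32 * σ) / 9) +
      T ^ (8 / 11 : ℝ) * N ^ ((32 - 46 * σ) / 11) + T * N ^ (2 - 7 * σ / 2)) := by
  have h0 : 0 < N := by linarith
  obtain ⟨ρ, rfl⟩ : ∃ ρ : ℝ, R = N ^ ρ :=
    ⟨Real.logb N R, (Real.rpow_logb h0 hN.ne' (by linarith)).symm⟩
  obtain ⟨e, rfl⟩ : ∃ e : ℝ, E = N ^ e :=
    ⟨Real.logb N E, (Real.rpow_logb h0 hN.ne' (by linarith)).symm⟩
  obtain ⟨τ, rfl⟩ : ∃ τ : ℝ, T = N ^ τ :=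
    ⟨Real.logb N T, (Real.rpow_logb h0 hN.ne' (by linarith)).symm⟩
  have hle : ∀ {a b : ℝ}, N ^ a ≤ N ^ b → a ≤ b := fun h => (Real.rpow_le_rpow_left_iff hN).1 h
  have hmono : ∀ {a b : ℝ}, a ≤ b → N ^ a ≤ N ^ b := fun h =>
    Real.rpow_le_rpow_of_exponent_le hN.le h
  have hadd : ∀ a b : ℝ, N ^ a * N ^ b = N ^ (a + b) := fun a b => (Real.rpow_add h0 a b).symm
  have hsub : ∀ a b : ℝ, N ^ a / N ^ b = N ^ (a - b) := fun a b => (Real.rpow_sub h0 a b).symm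
  have hp1 : ∀ a : ℝ, N * N ^ a = N ^ (1 + a) := fun a => by
    rw [Real.rpow_add h0, Real.rpow_one]
  have hd1 : ∀ a : ℝ, N ^ a / N = N ^ (a - 1) := fun a => by
    rw [Real.rpow_sub h0, Real.rpow_one]
  have hp2 : N ^ 2 = N ^ (2 : ℝ) := by rw [← Real.rpow_natCast]; norm_num
  have hp3 : N ^ 3 = N ^ (3 : ℝ) := by rw [← Real.rpow_natCast]; norm_num
  have hτ : τ ≤ ts σ := hle hts
  have hτ1 : τ ≤ (38 * σ - 14) / 9 := hτ.trans (min_le_left _ _)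
  have hτ2 : τ ≤ (20 - 15 * σ) / 6 ∨ τ ≤ 3 / 2 := le_max_iff.1 (hτ.trans (min_le_right _ _))
  have hE' : e + 2 * σ ≤ 3 * η + max (2 + (ρ + e) / 2) (max (1 + 2 * ρ + (τ + e) / 4)
      (1 + 5 * ρ / 6 + (τ + e) / 2)) := by
    have e0 : (N ^ σ) ^ 2 * N ^ e = N ^ (e + 2 * σ) := by
      rw [expo_nat h0, hadd]
      congr 1
      push_cast
      ring
    have e1 : N ^ 2 * √(N ^ ρ * N ^ e) = N ^ (2 + (ρ + e) / 2) := by
      rw [hadd, expo_sqrt h0, hp2, hadd]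
    have e2 : N * (N ^ ρ) ^ 2 * √(√(N ^ τ * N ^ e)) = N ^ (1 + 2 * ρ + (τ + e) / 4) := by
      rw [hadd, expo_sqrt h0, expo_sqrt h0, expo_nat h0, hp1, hadd]
      congr 1
      push_cast
      ring
    have e3 : N * (N ^ ρ) ^ (5 / 6 : ℝ) * √(N ^ τ * N ^ e) = N ^ (1 + 5 * ρ / 6 + (τ + e) / 2) := by
      rw [hadd, expo_sqrt h0, ← Real.rpow_mul h0.le, hp1, hadd]
      congr 1
      ring
    rw [e0, e1, e2, e3] at hen
    have := hen.trans (mul_le_mul_of_nonneg_left (expo_add3 hN h3 _ _ _) (Real.rpow_nonneg h0.le _))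
    rw [hadd] at this
    linarith [hle this]
  have hM' : ρ + 2 * σ ≤ 2 + 3 * η ∨ 3 * (ρ + 2 * σ - 1) ≤ 3 * η + max (3 + ρ) (max (2 + (τ + e) / 2)
      (2 + ρ / 2 - σ + max 2 (max (1 + (τ + e) / 4) (1 + τ / 2 + ρ / 4)) / 2 +
        max (ρ + 4 * (τ - 1)) (2 * (τ - 1) + (τ + e) / 2) / 2)) := by
    have e0 : N ^ ρ * (N ^ σ) ^ 2 = N ^ (ρ + 2 * σ) := by
      rw [expo_nat h0, hadd]
      norm_num
    rw [e0] at hm
    rcases hm with hm | hm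
    · left
      linarith [hle hm]
    right
    have e1 : (N ^ (ρ + 2 * σ) / N) ^ 3 = N ^ (3 * (ρ + 2 * σ - 1)) := by
      rw [hd1, expo_nat h0]
      norm_num
    have e2 : N ^ 3 * N ^ ρ = N ^ (3 + ρ) := by rw [hp3, hadd]
    have e3 : N ^ 2 * √(N ^ τ * N ^ e) = N ^ (2 + (τ + e) / 2) := by
      rw [hadd, expo_sqrt h0, hp2, hadd]
    have e4 : N * √(√(N ^ τ * N ^ e)) = N ^ (1 + (τ + e) / 4) := by
      rw [hadd, expo_sqrt h0, expo_sqrt h0, hp1]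
      congr 1
      ring
    have e5 : N * √(N ^ τ) * √(√(N ^ ρ)) = N ^ (1 + τ / 2 + ρ / 4) := by
      rw [expo_sqrt h0, expo_sqrt h0, expo_sqrt h0, hp1, hadd]
      congr 1
      ring
    have e6 : N ^ ρ * (N ^ τ / N) ^ 4 = N ^ (ρ + 4 * (τ - 1)) := by
      rw [hd1, expo_nat h0, hadd]
      norm_num
    have e7 : (N ^ τ / N) ^ 2 * √(N ^ τ * N ^ e) = N ^ (2 * (τ - 1) + (τ + e) / 2) := by
      rw [hd1, expo_nat h0, hadd, expo_sqrt h0, hadd]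
      norm_num
    rw [e1, e2, e3, e4, e5, e6, e7, hp2] at hm
    have b1 := Real.sqrt_le_sqrt (expo_add3 hN h3 2 (1 + (τ + e) / 4) (1 + τ / 2 + ρ / 4))
    have b2 := Real.sqrt_le_sqrt (expo_add2 hN h3 (ρ + 4 * (τ - 1)) (2 * (τ - 1) + (τ + e) / 2))
    rw [expo_sqrt h0] at b1 b2
    rw [expo_sqrt h0] at hm
    generalize max 2 (max (1 + (τ + e) / 4) (1 + τ / 2 + ρ / 4)) = A at *
    generalize max (ρ + 4 * (τ - 1)) (2 * (τ - 1) + (τ + e) / 2) = B at *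
    have b3 : N ^ (2 : ℝ) * N ^ (ρ / 2) *
        √(N ^ (2 : ℝ) + N ^ (1 + (τ + e) / 4) + N ^ (1 + τ / 2 + ρ / 4)) / N ^ σ *
        √(N ^ (ρ + 4 * (τ - 1)) + N ^ (2 * (τ - 1) + (τ + e) / 2)) ≤
        N ^ (η + (2 + ρ / 2 - σ + A / 2 + B / 2)) := by
      calc _ ≤ N ^ (2 : ℝ) * N ^ (ρ / 2) * N ^ ((η + A) / 2) / N ^ σ * N ^ ((η + B) / 2) := by
            gcongr
        _ = _ := by
            rw [hadd, hadd, hsub, hadd]
            congr 1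
            ring
    have b4 := expo_add3 hN h3 (3 + ρ) (2 + (τ + e) / 2) (η + (2 + ρ / 2 - σ + A / 2 + B / 2))
    have b5 := hm.trans (mul_le_mul_of_nonneg_left ((add_le_add_right b3 _).trans b4)
      (Real.rpow_nonneg h0.le _))
    rw [hadd] at b5
    have b6 := hle b5
    have b7 : max (3 + ρ) (max (2 + (τ + e) / 2) (η + (2 + ρ / 2 - σ + A / 2 + B / 2))) ≤
        η + max (3 + ρ) (max (2 + (τ + e) / 2) (2 + ρ / 2 - σ + A / 2 + B / 2)) := by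
      have c1 := le_max_left (3 + ρ) (max (2 + (τ + e) / 2) (2 + ρ / 2 - σ + A / 2 + B / 2))
      have c2 := le_max_right (3 + ρ) (max (2 + (τ + e) / 2) (2 + ρ / 2 - σ + A / 2 + B / 2))
      have c3 := le_max_left (2 + (τ + e) / 2) (2 + ρ / 2 - σ + A / 2 + B / 2)
      have c4 := le_max_right (2 + (τ + e) / 2) (2 + ρ / 2 - σ + A / 2 + B / 2)
      exact max_le (by linarith) (max_le (by linarith) (by linarith))
    linarith
  have key := hmono (lp_main h1 h2 hτ1 hτ2 (by linarith : 0 ≤ 3 * η) hE' hM')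
  have f1 : (N ^ τ) ^ (5 / 9 : ℝ) * N ^ ((24 - 32 * σ) / 9) = N ^ ((5 * τ + 24 - 32 * σ) / 9) := by
    rw [← Real.rpow_mul h0.le, hadd]
    congr 1
    ring
  have f2 : (N ^ τ) ^ (8 / 11 : ℝ) * N ^ ((32 - 46 * σ) / 11) =
      N ^ ((8 * τ + 32 - 46 * σ) / 11) := by
    rw [← Real.rpow_mul h0.le, hadd]
    congr 1
    ring
  have f3 : N ^ τ * N ^ (2 - 7 * σ / 2) = N ^ (τ + 2 - 7 * σ / 2) := by
    rw [hadd]
    congr 1
    ring
  rw [f1, f2, f3]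
  rw [← hadd, show 2 * (3 * η) = 6 * η by ring] at key
  refine key.trans (mul_le_mul_of_nonneg_left ?_ (Real.rpow_nonneg h0.le _))
  have g1 := expo_max h0 (max (3 - 3 * σ) ((5 * τ + 24 - 32 * σ) / 9))
    (max ((8 * τ + 32 - 46 * σ) / 11) (τ + 2 - 7 * σ / 2))
  have g2 := expo_max h0 (3 - 3 * σ) ((5 * τ + 24 - 32 * σ) / 9)
  have g3 := expo_max h0 ((8 * τ + 32 - 46 * σ) / 11) (τ + 2 - 7 * σ / 2)
  linarith

end Pool.Agent.Lib.MP_ecd12e_nt.Sch
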