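import Pool.Agent.Lib.MP_ecd12e_nt.Sch.Main
import Pool.Agent.Lib.MP_ecd12e_nt.Sch.Expo

set_option autoImplicit false

namespace Pool.Agent.Lib.MP_ecd12e_nt.Sch

open Finset Real MeasureTheory
open Pool.Agent.Lib.MP_ecd12e_nt.Bar (ei)

/-- Short ranges. For `N ≥ N0` combine `core_energy`, `core_main`, `expo` with `η = ε / 6`;
for `N < N0` use `R ≤ T + 1 ≤ 2 N0 ^ 2` and `1 ≤ N ^ (3 - 3 σ)`. -/
theorem short {ε : ℝ} (hε : 0 < ε) :
    ∃ C : ℝ, 0 ≤ C ∧ ∀ (σ : ℝ) (N : ℕ) (T : ℝ) (b : ℕ → ℂ) (W : Finset ℤ), 7 / 10 ≤ σ → σ ≤ 1 →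
      1 ≤ N → (N : ℝ) ≤ T → T ≤ (N : ℝ) ^ ts σ → LV N T ((N : ℝ) ^ σ) b W →
      (W.card : ℝ) ≤ C * (N : ℝ) ^ ε * ((N : ℝ) ^ (3 - 3 * σ) +
        T ^ (5 / 9 : ℝ) * (N : ℝ) ^ ((24 - 32 * σ) / 9) +
        T ^ (8 / 11 : ℝ) * (N : ℝ) ^ ((32 - 46 * σ) / 11) + T * (N : ℝ) ^ (2 - 7 * σ / 2)) := by
  have hη : 0 < ε / 6 := by positivity
  obtain ⟨N1, h1⟩ := core_energy hη
  obtain ⟨N2, h2⟩ := core_main hη
  obtain ⟨N3, h3⟩ := exists_absorb hη 3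
  refine ⟨((N1 + N2 + N3 + 2 : ℕ) : ℝ) ^ 2 + 1, by positivity,
    fun σ N T b W s1 s2 hN hT hts h => ?_⟩
  have hN1 : (1 : ℝ) ≤ N := by exact_mod_cast hN
  have hN0 : (0 : ℝ) < N := by linarith
  have hT0 : 0 ≤ T := by linarith
  have hT2 : T ≤ (N : ℝ) ^ 2 := by
    refine hts.trans ?_
    rw [← Real.rpow_natCast]
    exact Real.rpow_le_rpow_of_exponent_le hN1 (by simpa using (ts_bounds s1).2)
  have e1 : 1 ≤ (N : ℝ) ^ ε := Real.one_le_rpow hN1 hε.le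
  have e2 : 1 ≤ (N : ℝ) ^ (3 - 3 * σ) := Real.one_le_rpow hN1 (by linarith)
  have e3 : 1 ≤ (N : ℝ) ^ (3 - 3 * σ) + T ^ (5 / 9 : ℝ) * (N : ℝ) ^ ((24 - 32 * σ) / 9) +
      T ^ (8 / 11 : ℝ) * (N : ℝ) ^ ((32 - 46 * σ) / 11) + T * (N : ℝ) ^ (2 - 7 * σ / 2) := by
    have a1 : 0 ≤ T ^ (5 / 9 : ℝ) * (N : ℝ) ^ ((24 - 32 * σ) / 9) := by positivity
    have a2 : 0 ≤ T ^ (8 / 11 : ℝ) * (N : ℝ) ^ ((32 - 46 * σ) / 11) := by positivity
    have a3 : 0 ≤ T * (N : ℝ) ^ (2 - 7 * σ / 2) := by positivity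
    linarith
  by_cases hbig : N1 + N2 + N3 + 2 ≤ N
  · rcases W.eq_empty_or_nonempty with rfl | hW
    · rw [card_empty, Nat.cast_zero]
      positivity
    · have hV : (0 : ℝ) < (N : ℝ) ^ σ := Real.rpow_pos_of_pos hN0 σ
      have k1 := h1 N T _ b W (by omega) hT hT2 hV.le h
      have k2 := h2 N T _ b W (by omega) hT hT2 hV h hW
      have k3 := expo (R := W.card) (E := en W) (by exact_mod_cast (by omega : 1 < N)) hη.le
        (h3 N (by omega)) (by exact_mod_cast hW.card_pos) (one_le_en hW) hT s1 s2 hts k1 k2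
      rw [show 6 * (ε / 6) = ε by ring] at k3
      refine k3.trans (mul_le_mul_of_nonneg_right ?_ (by linarith))
      exact le_mul_of_one_le_left (by linarith) (le_add_of_nonneg_left (by positivity))
  · have k1 : (N : ℝ) ≤ ((N1 + N2 + N3 + 2 : ℕ) : ℝ) := by exact_mod_cast (not_le.1 hbig).le
    have k2 : (W.card : ℝ) ≤ ((N1 + N2 + N3 + 2 : ℕ) : ℝ) ^ 2 + 1 := by
      have := card_le_of_inR hT0 h.inr
      have := pow_le_pow_left₀ hN0.le k1 2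
      linarith
    refine k2.trans ?_
    rw [mul_assoc]
    exact le_mul_of_one_le_right (by positivity) (one_le_mul_of_one_le_of_one_le e1 e3)

/-- Subdivision. With `h = ⌊T0⌋₊ + 1` split `W` by `t / h = k`, `0 ≤ k ≤ T / h`; the translate of a
piece by `- k h` lies in `[0, T0]` and is a set of large values for the coefficients
`b n * ei (k h log n)`. There are at most `T / T0 + 1 ≤ 2 T / T0` pieces. -/
theorem subdivide {N : ℕ} {T T0 V B : ℝ} (h0 : 0 < T0) (hT : T0 ≤ T)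
    (hB : ∀ (b : ℕ → ℂ) (W : Finset ℤ), LV N T0 V b W → (W.card : ℝ) ≤ B)
    {b : ℕ → ℂ} {W : Finset ℤ} (h : LV N T V b W) : (W.card : ℝ) ≤ 2 * T / T0 * B := by
  have hB0 : 0 ≤ B := by
    simpa using hB b ∅ ⟨h.hb, fun t ht => absurd ht (notMem_empty t),
      fun t ht => absurd ht (notMem_empty t)⟩
  set q : ℤ := ⌊T0⌋ + 1 with hq
  have hq1 : T0 < q := by
    rw [hq]
    push_cast
    exact Int.lt_floor_add_one T0
  have hq0 : 0 < q := by exact_mod_cast h0.trans hq1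
  have hmap : ∀ t ∈ W, t / q ∈ Icc (0 : ℤ) ⌊T / T0⌋ := by
    intro t ht
    obtain ⟨t0, t1⟩ := h.inr t ht
    have a0 : 0 ≤ t / q := Int.ediv_nonneg t0 hq0.le
    refine mem_Icc.2 ⟨a0, Int.le_floor.2 ?_⟩
    rw [le_div_iff₀ h0]
    have a1 : ((t / q : ℤ) : ℝ) * q ≤ t := by exact_mod_cast Int.ediv_mul_le t hq0.ne'
    have a2 : (0 : ℝ) ≤ ((t / q : ℤ) : ℝ) := by exact_mod_cast a0
    nlinarith
  have hpiece : ∀ k : ℤ, ((W.filter fun t => t / q = k).card : ℝ) ≤ B := by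
    intro k
    have hinj : Function.Injective fun t : ℤ => t - k * q := fun a b hab => by simpa using hab
    rw [← card_image_of_injective _ hinj]
    refine hB (fun n => b n * ei ((k * q : ℤ) * Real.log n)) _ ⟨fun n => ?_, ?_, ?_⟩
    · rw [norm_mul, Bar.norm_ei, mul_one]
      exact h.hb n
    · intro u hu
      obtain ⟨t, ht, rfl⟩ := mem_image.1 hu
      obtain ⟨-, rfl⟩ := mem_filter.1 ht
      have a1 : t - t / q * q = t % q := by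
        rw [Int.emod_def, mul_comm]
      rw [a1]
      refine ⟨Int.emod_nonneg t hq0.ne', ?_⟩
      have a2 : t % q ≤ ⌊T0⌋ := Int.lt_add_one_iff.1 (Int.emod_lt_of_pos t hq0)
      exact Int.le_floor.1 a2
    · intro u hu
      obtain ⟨t, ht, rfl⟩ := mem_image.1 hu
      refine (h.big t (mem_filter.1 ht).1).trans (le_of_eq ?_)
      congr 1
      refine sum_congr rfl fun n _ => ?_
      rw [mul_assoc, ← Bar.ei_add]
      congr 2
      push_cast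
      ring
  have hr : 1 ≤ T / T0 := (one_le_div h0).2 hT
  have hfl : 0 ≤ ⌊T / T0⌋ := Int.floor_nonneg.2 (by linarith)
  have hcard : ((Icc (0 : ℤ) ⌊T / T0⌋).card : ℝ) ≤ 2 * T / T0 := by
    have a1 : (((Icc (0 : ℤ) ⌊T / T0⌋).card : ℤ) : ℝ) = ((⌊T / T0⌋ + 1 : ℤ) : ℝ) := by
      rw [Int.card_Icc, Int.toNat_of_nonneg (by omega), sub_zero]
    push_cast at a1
    rw [a1, mul_div_assoc]
    linarith [Int.floor_le (T / T0)]
  rw [card_eq_sum_card_fiberwise hmap]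
  push_cast
  refine (sum_le_card_nsmul _ _ B fun k _ => hpiece k).trans ?_
  rw [nsmul_eq_mul]
  exact mul_le_mul_of_nonneg_right hcard hB0

/-- If `T ≤ N ^ ts σ` use `short`; otherwise `subdivide` with `T0 = N ^ ts σ` and `lp_sub`. -/
theorem large_values :
    ∀ ε : ℝ, 0 < ε → ∃ C : ℝ, ∀ σ : ℝ, 7 / 10 ≤ σ → σ ≤ 1 →
      ∀ N : ℕ, 1 ≤ N → ∀ T : ℝ, (N : ℝ) ≤ T →
      ∀ b : ℕ → ℂ, (∀ n, ‖b n‖ ≤ 1) →
      ∀ W : Finset ℤ,
        (∀ t ∈ W, 0 ≤ (t : ℝ) ∧ (t : ℝ) ≤ T ∧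
          (N : ℝ) ^ σ < ‖∑ n ∈ Finset.Icc N (2 * N),
              b n * Complex.exp ((((t : ℝ) * Real.log (n : ℝ) : ℝ) : ℂ) * Complex.I)‖) →
        (W.card : ℝ) ≤ C * (N : ℝ) ^ ε * ((N : ℝ) ^ (3 - 3 * σ) +
          T ^ (5 / 9 : ℝ) * (N : ℝ) ^ ((24 - 32 * σ) / 9) +
          T ^ (8 / 11 : ℝ) * (N : ℝ) ^ ((32 - 46 * σ) / 11) +
          T * (N : ℝ) ^ (2 - 7 * σ / 2) + T * (N : ℝ) ^ ((10 - 16 * σ) / 3)) := by
  intro ε hε
  obtain ⟨C, hC, H⟩ := short hε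
  refine ⟨8 * C, fun σ s1 s2 N hN T hT b hb W hW => ?_⟩
  have hN1 : (1 : ℝ) ≤ N := by exact_mod_cast hN
  have hN0 : (0 : ℝ) < N := by linarith
  have hT0 : 0 ≤ T := by linarith
  have h : LV N T ((N : ℝ) ^ σ) b W :=
    ⟨hb, fun t ht => ⟨by exact_mod_cast (hW t ht).1, (hW t ht).2.1⟩, fun t ht => (hW t ht).2.2.le⟩
  have hc : 0 ≤ C * (N : ℝ) ^ ε := by positivity
  have a0 : 0 ≤ (N : ℝ) ^ (3 - 3 * σ) := by positivity
  have a1 : 0 ≤ T ^ (5 / 9 : ℝ) * (N : ℝ) ^ ((24 - 32 * σ) / 9) := by positivity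
  have a2 : 0 ≤ T ^ (8 / 11 : ℝ) * (N : ℝ) ^ ((32 - 46 * σ) / 11) := by positivity
  have a3 : 0 ≤ T * (N : ℝ) ^ (2 - 7 * σ / 2) := by positivity
  have a4 : 0 ≤ T * (N : ℝ) ^ ((10 - 16 * σ) / 3) := by positivity
  rw [mul_assoc 8, mul_comm 8, mul_assoc (C * (N : ℝ) ^ ε)]
  rcases le_total T ((N : ℝ) ^ ts σ) with hts | hts
  · refine (H σ N T b W s1 s2 hN hT hts h).trans (mul_le_mul_of_nonneg_left ?_ hc)
    linarith
  · have hp : (0 : ℝ) < (N : ℝ) ^ ts σ := Real.rpow_pos_of_pos hN0 _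
    have hle : (N : ℝ) ≤ (N : ℝ) ^ ts σ := by
      simpa using Real.rpow_le_rpow_of_exponent_le hN1 (ts_bounds s1).1
    have k := subdivide hp hts (fun b W h => H σ N _ b W s1 s2 hN hle le_rfl h) h
    obtain ⟨l1, l2, l3⟩ := lp_sub s1 s2
    have key : ∀ x : ℝ, x ≤ ts σ + max (2 - 7 * σ / 2) ((10 - 16 * σ) / 3) →
        (N : ℝ) ^ x ≤ (N : ℝ) ^ ts σ *
          ((N : ℝ) ^ (2 - 7 * σ / 2) + (N : ℝ) ^ ((10 - 16 * σ) / 3)) := by
      intro x hx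
      refine (Real.rpow_le_rpow_of_exponent_le hN1 hx).trans ?_
      rw [Real.rpow_add hN0]
      refine mul_le_mul_of_nonneg_left ?_ hp.le
      rcases max_choice (2 - 7 * σ / 2) ((10 - 16 * σ) / 3) with e | e <;> rw [e]
      · exact le_add_of_nonneg_right (by positivity)
      · exact le_add_of_nonneg_left (by positivity)
    have m1 := key _ l1
    have m2 : ((N : ℝ) ^ ts σ) ^ (5 / 9 : ℝ) * (N : ℝ) ^ ((24 - 32 * σ) / 9) ≤ (N : ℝ) ^ ts σ *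
        ((N : ℝ) ^ (2 - 7 * σ / 2) + (N : ℝ) ^ ((10 - 16 * σ) / 3)) := by
      rw [← Real.rpow_mul hN0.le, ← Real.rpow_add hN0]
      exact key _ (by linarith)
    have m3 : ((N : ℝ) ^ ts σ) ^ (8 / 11 : ℝ) * (N : ℝ) ^ ((32 - 46 * σ) / 11) ≤ (N : ℝ) ^ ts σ *
        ((N : ℝ) ^ (2 - 7 * σ / 2) + (N : ℝ) ^ ((10 - 16 * σ) / 3)) := by
      rw [← Real.rpow_mul hN0.le, ← Real.rpow_add hN0]
      exact key _ (by linarith)
    have m4 : (N : ℝ) ^ ts σ * (N : ℝ) ^ (2 - 7 * σ / 2) ≤ (N : ℝ) ^ ts σ *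
        ((N : ℝ) ^ (2 - 7 * σ / 2) + (N : ℝ) ^ ((10 - 16 * σ) / 3)) :=
      mul_le_mul_of_nonneg_left (le_add_of_nonneg_right (by positivity)) hp.le
    calc (W.card : ℝ) ≤ 2 * T / (N : ℝ) ^ ts σ * (C * (N : ℝ) ^ ε * (4 * ((N : ℝ) ^ ts σ *
          ((N : ℝ) ^ (2 - 7 * σ / 2) + (N : ℝ) ^ ((10 - 16 * σ) / 3))))) := by
          refine k.trans (mul_le_mul_of_nonneg_left (mul_le_mul_of_nonneg_left ?_ hc)
            (by positivity))
          linarith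
      _ = C * (N : ℝ) ^ ε * (8 * (T * (N : ℝ) ^ (2 - 7 * σ / 2) +
          T * (N : ℝ) ^ ((10 - 16 * σ) / 3))) := by
          field_simp
          ring
      _ ≤ _ := mul_le_mul_of_nonneg_left (by linarith) hc

end Pool.Agent.Lib.MP_ecd12e_nt.Sch
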