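import Pool.Agent.Lib.MP_ecd12e_nt.Sch.Poisson
import Pool.Agent.Lib.MP_ecd12e_nt.Sch.Swap

set_option autoImplicit false

namespace Pool.Agent.Lib.MP_ecd12e_nt.Sch

open Finset Real MeasureTheory
open Pool.Agent.Lib.MP_ecd12e_nt.Bar (ei)

lemma gram_range (n : ℕ) : ∑ m ∈ range (n + 1), 1 / (1 + (m : ℝ) ^ 2) ≤ 3 - 2 / ((n : ℝ) + 1) := by
  induction n with
  | zero => norm_num
  | succ n ih =>
    rw [sum_range_succ]
    have h0 : (0 : ℝ) ≤ n := Nat.cast_nonneg n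
    have : 1 / (1 + ((n + 1 : ℕ) : ℝ) ^ 2) ≤ 2 / ((n : ℝ) + 1) - 2 / (((n + 1 : ℕ) : ℝ) + 1) := by
      push_cast
      rw [div_sub_div _ _ (by positivity) (by positivity),
        div_le_div_iff₀ (by positivity) (by positivity)]
      nlinarith [sq_nonneg (n : ℝ), mul_nonneg h0 (sq_nonneg (n : ℝ))]
    linarith

lemma gram_five (W : Finset ℤ) (c : ℤ) : ∑ s ∈ W, 1 / (1 + ((c - s : ℤ) : ℝ) ^ 2) ≤ 5 := by
  obtain ⟨n, hn⟩ : ∃ n : ℕ, ∀ s ∈ W, (c - s).natAbs ≤ n :=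
    ⟨W.sup fun s => (c - s).natAbs, fun s hs => le_sup (f := fun s => (c - s).natAbs) hs⟩
  rw [← sum_image (s := W) (g := fun s => c - s) (f := fun t : ℤ => 1 / (1 + (t : ℝ) ^ 2))
    fun a _ b _ h => sub_right_injective h]
  refine (sum_le_sum_of_subset_of_nonneg (t := Icc (-(n : ℤ)) n) (image_subset_iff.2 fun s hs => ?_)
    fun _ _ _ => by positivity).trans ?_
  · have := hn s hs
    rw [mem_Icc]
    omega
  · rw [sum_Icc_of_even_eq_range (f := fun t : ℤ => 1 / (1 + (t : ℝ) ^ 2)) fun t => by simp]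
    have h1 := gram_range n
    have h2 : 0 ≤ 2 / ((n : ℝ) + 1) := by positivity
    simp only [Int.cast_natCast, nsmul_eq_mul, Nat.cast_ofNat, Int.cast_zero]
    linarith

lemma gram_schur (W : Finset ℤ) (k : ℤ → ℤ → ℂ) (D : ℤ → ℤ → ℝ) {R : ℝ}
    (hsym : ∀ s s', D s s' = D s' s) (hk : ∀ s ∈ W, ∀ s' ∈ W, ‖k s s'‖ ≤ D s s')
    (hrow : ∀ s ∈ W, ∑ s' ∈ W, D s s' ≤ R) (x : ℤ → ℂ) :
    ‖∑ s ∈ W, ∑ s' ∈ W, (starRingEnd ℂ) (x s) * k s s' * x s'‖ ≤ R * ∑ s ∈ W, ‖x s‖ ^ 2 := by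
  have h1 : ∑ s ∈ W, ∑ s' ∈ W, D s s' * ‖x s‖ ^ 2 ≤ R * ∑ s ∈ W, ‖x s‖ ^ 2 := by
    rw [mul_sum]
    refine sum_le_sum fun s hs => ?_
    rw [← sum_mul]
    exact mul_le_mul_of_nonneg_right (hrow s hs) (sq_nonneg _)
  have h2 : ∑ s ∈ W, ∑ s' ∈ W, D s s' * ‖x s'‖ ^ 2 = ∑ s ∈ W, ∑ s' ∈ W, D s s' * ‖x s‖ ^ 2 := by
    rw [sum_comm]
    exact sum_congr rfl fun s _ => sum_congr rfl fun s' _ => by rw [hsym]
  calc _ ≤ ∑ s ∈ W, ∑ s' ∈ W, (D s s' * ‖x s‖ ^ 2 + D s s' * ‖x s'‖ ^ 2) / 2 := by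
        refine (norm_sum_le _ _).trans (sum_le_sum fun s hs => (norm_sum_le _ _).trans
          (sum_le_sum fun s' hs' => ?_))
        rw [norm_mul, norm_mul, Complex.norm_conj]
        have h3 := hk s hs s' hs'
        have h4 := (norm_nonneg _).trans h3
        calc _ ≤ ‖x s‖ * D s s' * ‖x s'‖ := by gcongr
          _ ≤ _ := by nlinarith [mul_nonneg h4 (sq_nonneg (‖x s‖ - ‖x s'‖))]
    _ = (∑ s ∈ W, ∑ s' ∈ W, D s s' * ‖x s‖ ^ 2 + ∑ s ∈ W, ∑ s' ∈ W, D s s' * ‖x s'‖ ^ 2) / 2 := by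
        simp only [← sum_div, sum_add_distrib]
    _ ≤ _ := by linarith

/-- Schur test: `‖∑ conj (x s) * k (s - s') * x s'‖ ≤ 5 A ∑ ‖x s‖ ^ 2` when
`‖k t‖ ≤ A / (1 + t ^ 2)`, as the sum of `1 / (1 + t ^ 2)` over any finite set of integers is at
most `5`. -/
theorem schur_le (W : Finset ℤ) (k : ℤ → ℂ) {A : ℝ} (hA : 0 ≤ A)
    (hk : ∀ t : ℤ, ‖k t‖ ≤ A / (1 + (t : ℝ) ^ 2)) (x : ℤ → ℂ) :
    ‖∑ s ∈ W, ∑ s' ∈ W, (starRingEnd ℂ) (x s) * k (s - s') * x s'‖ ≤ 5 * A * ∑ s ∈ W, ‖x s‖ ^ 2 := by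
  refine gram_schur W (fun s s' => k (s - s')) (fun s s' => A / (1 + ((s - s' : ℤ) : ℝ) ^ 2))
    (fun s s' => by push_cast; ring) (fun s _ s' _ => hk _) (fun s _ => ?_) x
  simp only [div_eq_mul_one_div A, ← mul_sum]
  nlinarith [gram_five W s]

lemma gram_form (w : ℝ → ℝ) (N : ℕ) (W : Finset ℤ) (x : ℤ → ℂ) :
    ∑ s ∈ W, ∑ s' ∈ W, (starRingEnd ℂ) (x s) * gg w N ((s - s' : ℤ) : ℝ) * x s' =
      ((∑ n ∈ range (3 * N), w (n / N) *
        ‖∑ s ∈ W, x s * ei (-(s * Real.log (n / N)))‖ ^ 2 : ℝ) : ℂ) := by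
  simp only [gg, mul_sum, sum_mul]
  push_cast
  rw [sum_congr rfl fun s _ => sum_comm, sum_comm]
  refine sum_congr rfl fun n _ => ?_
  rw [← Complex.conj_mul', map_sum, sum_mul_sum, mul_sum]
  refine sum_congr rfl fun s _ => ?_
  rw [mul_sum]
  refine sum_congr rfl fun s' _ => ?_
  rw [map_mul, Bar.conj_ei, neg_neg, sub_mul, sub_eq_add_neg, Bar.ei_add]
  ring

lemma gram_abs {W : Finset ℤ} {T : ℝ} (h : InR W T) {s s' : ℤ} (hs : s ∈ W) (hs' : s' ∈ W) :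
    |((s - s' : ℤ) : ℝ)| ≤ T := by
  have h1 := h s hs
  have h2 := h s' hs'
  have h3 : (0 : ℝ) ≤ s := by exact_mod_cast h1.1
  have h4 : (0 : ℝ) ≤ s' := by exact_mod_cast h2.1
  push_cast
  exact abs_le.2 ⟨by linarith [h2.2], by linarith [h1.2]⟩

lemma gram_key {w : ℝ → ℝ} (hw : Wt w) :
    ∃ C : ℝ, 0 ≤ C ∧ ∀ (N M : ℕ) (T e0 : ℝ) (W : Finset ℤ), InR W T →
      (∀ t : ℤ, |(t : ℝ)| ≤ T → ‖gg w N t - N * ff w t 0 - kr w N M t‖ ≤ e0) →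
      ∀ x : ℤ → ℂ, ∑ n ∈ range (3 * N), w (n / N) *
        ‖∑ s ∈ W, x s * ei (-(s * Real.log (n / N)))‖ ^ 2 ≤
        (∑ s ∈ W, ∑ s' ∈ W, (starRingEnd ℂ) (x s) * kr w N M (s - s') * x s').re +
          (C * N + W.card * e0) * ∑ s ∈ W, ‖x s‖ ^ 2 := by
  obtain ⟨C, hC, hd⟩ := decay_t hw.toSm
  refine ⟨5 * C, by positivity, fun N M T e0 W hW he x => ?_⟩
  have h1 := schur_le W (fun t => N * ff w t 0) (A := N * C) (by positivity) (fun t => by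
    rw [norm_mul, Complex.norm_natCast, mul_div_assoc]
    exact mul_le_mul_of_nonneg_left (hd t) (Nat.cast_nonneg N)) x
  have h2 := gram_schur W (fun s s' => gg w N ((s - s' : ℤ) : ℝ) - N * ff w ((s - s' : ℤ) : ℝ) 0 -
    kr w N M (s - s')) (fun _ _ => e0) (R := W.card * e0) (fun _ _ => rfl)
    (fun s hs s' hs' => he _ (gram_abs hW hs hs')) (fun _ _ => by simp) x
  have h3 := congrArg Complex.re (gram_form w N W x)
  rw [Complex.ofReal_re] at h3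
  simp only [mul_sub, sub_mul, sum_sub_distrib] at h2
  have h4 := (Complex.re_le_norm _).trans h1
  have h5 := (Complex.re_le_norm _).trans h2
  rw [Complex.sub_re, Complex.sub_re, h3] at h5
  nlinarith

/-- The form of `gg` equals `∑ n, w (n / N) ‖∑ s, x s * ei (- s log (n / N))‖ ^ 2`. Write
`kr = gg - N ff (·, 0) - err`, use `decay_t`, `schur_le`, and
`‖∑ conj (x s) err (s - s') x s'‖ ≤ e0 R ∑ ‖x s‖ ^ 2`. -/
theorem gram_psd {w : ℝ → ℝ} (hw : Wt w) :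
    ∃ C : ℝ, 0 ≤ C ∧ ∀ (N M : ℕ) (T e0 : ℝ) (W : Finset ℤ), 1 ≤ N → 0 ≤ e0 → InR W T →
      (∀ t : ℤ, |(t : ℝ)| ≤ T → ‖gg w N t - N * ff w t 0 - kr w N M t‖ ≤ e0) →
      (∀ x : ℤ → ℂ, 0 ≤ (∑ s ∈ W, ∑ s' ∈ W, (starRingEnd ℂ) (x s) * kr w N M (s - s') * x s').re +
        (C * N + W.card * e0) * ∑ s ∈ W, ‖x s‖ ^ 2) := by
  obtain ⟨C, hC, h⟩ := gram_key hw
  exact ⟨C, hC, fun N M T e0 W _ _ hW he x => le_trans
    (sum_nonneg fun n _ => mul_nonneg (hw.nonneg _) (sq_nonneg _)) (h N M T e0 W hW he x)⟩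

lemma gram_shift {ι : Type*} (J : Finset ι) (a : ι → ℂ) (u : ι → ℝ) (v : ℝ) :
    ‖∑ n ∈ J, a n * ei (u n - v)‖ = ‖∑ n ∈ J, a n * ei (u n)‖ := by
  simp only [sub_eq_add_neg, Bar.ei_add, ← mul_assoc, ← sum_mul, norm_mul, Bar.norm_ei, mul_one]

/-- Lower bound. Let `D s = ∑ b n * ei (s log (n / N))`, of the same norm as the polynomial, and
`η s` of norm one with `conj (η s) * D s = ‖D s‖`. Then
`R V ≤ ∑ s, ‖D s‖ ≤ √(N + 1) √(∑ n ∈ Icc N (2 N), ‖∑ s, η s * ei (- s log (n / N))‖ ^ 2)`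
and the last sum is at most the form of `gg` at `η`. -/
theorem gram_low {w : ℝ → ℝ} (hw : Wt w) :
    ∃ C : ℝ, 0 ≤ C ∧ ∀ (N M : ℕ) (T V e0 : ℝ) (b : ℕ → ℂ) (W : Finset ℤ), 1 ≤ N → 0 ≤ e0 → 0 ≤ V →
      LV N T V b W →
      (∀ t : ℤ, |(t : ℝ)| ≤ T → ‖gg w N t - N * ff w t 0 - kr w N M t‖ ≤ e0) →
      ∃ η : ℤ → ℂ, (∀ t, ‖η t‖ = 1) ∧
        (W.card * V ^ 2 / (2 * N) - (C * N + W.card * e0)) * W.card ≤
          (∑ s ∈ W, ∑ s' ∈ W, (starRingEnd ℂ) (η s) * kr w N M (s - s') * η s').re := by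
  obtain ⟨C, hC, h⟩ := gram_key hw
  refine ⟨C, hC, fun N M T V e0 b W hN _ hV hL he => ?_⟩
  have hN0 : (0 : ℝ) < N := by exact_mod_cast hN
  have hN1 : (1 : ℝ) ≤ N := by exact_mod_cast hN
  choose c hc1 hc2 using fun s : ℤ => Complex.exists_norm_eq_mul_self
    (∑ n ∈ Icc N (2 * N), b n * ei (s * Real.log (n / N)))
  refine ⟨fun s => (starRingEnd ℂ) (c s), fun s => by rw [Complex.norm_conj, hc1], ?_⟩
  have h1 := h N M T e0 W hL.inr he fun s => (starRingEnd ℂ) (c s)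
  simp only [Complex.norm_conj, hc1, one_pow, sum_const, nsmul_eq_mul, mul_one] at h1
  have h2 : W.card * V ≤ ∑ n ∈ Icc N (2 * N),
      ‖∑ s ∈ W, (starRingEnd ℂ) (c s) * ei (-(s * Real.log (n / N)))‖ := by
    calc W.card * V = ∑ s ∈ W, V := by simp
      _ ≤ ∑ s ∈ W, ‖∑ n ∈ Icc N (2 * N), b n * ei (s * Real.log (n / N))‖ := by
        refine sum_le_sum fun s hs => (hL.big s hs).trans_eq ?_
        rw [← gram_shift _ _ _ (s * Real.log N)]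
        refine congrArg _ (sum_congr rfl fun n hn => ?_)
        have : (0 : ℝ) < n := by exact_mod_cast hN.trans (mem_Icc.1 hn).1
        rw [Real.log_div this.ne' hN0.ne', mul_sub]
      _ = (∑ s ∈ W, c s * ∑ n ∈ Icc N (2 * N), b n * ei (s * Real.log (n / N))).re := by
        rw [Complex.re_sum]
        exact sum_congr rfl fun s _ => by rw [← hc2, Complex.ofReal_re]
      _ ≤ ‖∑ n ∈ Icc N (2 * N), b n * ∑ s ∈ W, c s * ei (s * Real.log (n / N))‖ := by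
        refine (Complex.re_le_norm _).trans_eq (congrArg _ ?_)
        simp only [mul_sum]
        rw [sum_comm]
        exact sum_congr rfl fun n _ => sum_congr rfl fun s _ => by ring
      _ ≤ _ := by
        refine (norm_sum_le _ _).trans (sum_le_sum fun n _ => ?_)
        rw [norm_mul]
        refine (mul_le_of_le_one_left (norm_nonneg _) (hL.hb n)).trans_eq ?_
        rw [← Complex.norm_conj, map_sum]
        simp only [map_mul, Bar.conj_ei]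
  have h3 := (pow_le_pow_left₀ (by positivity) h2 2).trans sq_sum_le_card_mul_sum_sq
  have h4 : ∑ n ∈ Icc N (2 * N),
      ‖∑ s ∈ W, (starRingEnd ℂ) (c s) * ei (-(s * Real.log (n / N)))‖ ^ 2 ≤
      ∑ n ∈ range (3 * N), w (n / N) *
        ‖∑ s ∈ W, (starRingEnd ℂ) (c s) * ei (-(s * Real.log (n / N)))‖ ^ 2 := by
    refine le_trans (sum_le_sum fun n hn => ?_) (sum_le_sum_of_subset_of_nonneg
      (s := Icc N (2 * N)) (fun n hn => ?_) fun n _ _ => mul_nonneg (hw.nonneg _) (sq_nonneg _))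
    · have h5 := inI_Icc N n hn
      rw [hw.one _ ((one_le_div hN0).2 h5.1) ((div_le_iff₀ hN0).2 h5.2), one_mul]
    · rw [mem_Icc] at hn
      rw [mem_range]
      omega
  have h5 : ((Icc N (2 * N)).card : ℝ) ≤ 2 * N := by
    rw [Nat.card_Icc]
    exact_mod_cast (by omega : 2 * N + 1 - N ≤ 2 * N)
  have h6 := h3.trans (mul_le_mul h5 h4 (sum_nonneg fun _ _ => sq_nonneg _) (by positivity))
  have h7 : W.card * V ^ 2 / (2 * N) * W.card = (W.card * V) ^ 2 / (2 * N) := by ring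
  rw [sub_mul, h7]
  have h8 := (div_le_iff₀' (by positivity : (0 : ℝ) < 2 * N)).2 h6
  linarith

/-- The Hilbert-Schmidt norm. `‖kr‖ ^ 2 ≤ 3 (‖gg‖ ^ 2 + N ^ 2 ‖ff t 0‖ ^ 2 + e0 ^ 2)`, and
`‖gg t‖ = ‖∑ n ∈ J, w (n / N) * ei (t log n)‖` for `J` the naturals in `[3 N / 4, 9 N / 4]`;
`swap_le`. -/
theorem gram_hs {w : ℝ → ℝ} (hw : Wt w) :
    ∃ C : ℝ, 0 ≤ C ∧ ∀ (N M : ℕ) (T e0 : ℝ) (W : Finset ℤ), 1 ≤ N → 0 ≤ e0 → InR W T →
      (∀ t : ℤ, |(t : ℝ)| ≤ T → ‖gg w N t - N * ff w t 0 - kr w N M t‖ ≤ e0) →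
      ∃ J : Finset ℕ, InI J (3 / 4 * N) 4 ∧
        ∑ t ∈ W, ∑ s ∈ W, ‖kr w N M (t - s)‖ ^ 2 ≤
          3 * ∑ n ∈ J, ∑ n' ∈ J, ‖rr W (Real.log n - Real.log n')‖ ^ 2 +
            C * (N : ℝ) ^ 2 * W.card + 3 * (W.card * e0) ^ 2 := by
  obtain ⟨C, hC, hd⟩ := decay_t hw.toSm
  refine ⟨15 * C ^ 2, by positivity, fun N M T e0 W hN he0 hW he =>
    ⟨(range (3 * N)).filter fun n => 3 / 4 * (N : ℝ) ≤ n, fun n hn => ?_, ?_⟩⟩
  · obtain ⟨h1, h2⟩ := mem_filter.1 hn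
    have h3 : (n : ℝ) ≤ (3 * N : ℕ) := by exact_mod_cast (mem_range.1 h1).le
    push_cast at h3
    exact ⟨h2, by linarith⟩
  have hN0 : (0 : ℝ) < N := by exact_mod_cast hN
  have h1 := swap_le W ((range (3 * N)).filter fun n => 3 / 4 * (N : ℝ) ≤ n)
    (fun n => (w (n / N) : ℂ)) (D := 1) fun n _ => by
      rw [Complex.norm_real, Real.norm_of_nonneg (hw.nonneg _)]
      exact hw.le_one _
  have h2 : ∀ t : ℝ, ‖gg w N t‖ = ‖∑ n ∈ (range (3 * N)).filter fun n : ℕ => 3 / 4 * (N : ℝ) ≤ n,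
      (w (n / N) : ℂ) * ei (t * Real.log n)‖ := fun t => by
    rw [← gram_shift _ _ _ (t * Real.log N), gg, sum_filter]
    refine congrArg _ (sum_congr rfl fun n _ => ?_)
    split_ifs with h
    · have : (0 : ℝ) < n := lt_of_lt_of_le (by positivity) h
      rw [Real.log_div this.ne' hN0.ne', mul_sub]
    · rw [hw.supp _ (Or.inl ((div_lt_iff₀ hN0).2 (not_le.1 h)))]
      simp
  simp only [← h2, one_pow, one_mul] at h1
  have h3 : ∀ t ∈ W, ∀ s ∈ W, ‖kr w N M (t - s)‖ ^ 2 ≤ 3 * ‖gg w N ((t - s : ℤ) : ℝ)‖ ^ 2 +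
      3 * (C * N) ^ 2 * (1 / (1 + ((t - s : ℤ) : ℝ) ^ 2)) + 3 * e0 ^ 2 := fun t ht s hs => by
    have a1 := he _ (gram_abs hW ht hs)
    have a2 : ‖(N : ℂ) * ff w ((t - s : ℤ) : ℝ) 0‖ ≤ C * N * (1 / (1 + ((t - s : ℤ) : ℝ) ^ 2)) := by
      rw [norm_mul, Complex.norm_natCast, mul_comm C, mul_assoc, mul_one_div]
      exact mul_le_mul_of_nonneg_left (hd _) hN0.le
    have a3 : 0 < 1 / (1 + ((t - s : ℤ) : ℝ) ^ 2) := by positivity
    have a4 : 1 / (1 + ((t - s : ℤ) : ℝ) ^ 2) ≤ 1 := by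
      rw [div_le_one (by positivity)]
      linarith [sq_nonneg ((t - s : ℤ) : ℝ)]
    generalize 1 / (1 + ((t - s : ℤ) : ℝ) ^ 2) = q at a2 a3 a4 ⊢
    generalize (N : ℂ) * ff w ((t - s : ℤ) : ℝ) 0 = F at a1 a2
    generalize gg w N ((t - s : ℤ) : ℝ) = G at a1 ⊢
    generalize kr w N M (t - s) = K at a1 ⊢
    have a5 : ‖K‖ ≤ ‖G‖ + C * N * q + e0 := by
      calc ‖K‖ = ‖G - F - (G - F - K)‖ := by congr 1; ring
        _ ≤ ‖G‖ + ‖F‖ + ‖G - F - K‖ := (norm_sub_le _ _).trans (by gcongr; exact norm_sub_le _ _)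
        _ ≤ _ := by gcongr
    have a6 : (C * N * q) ^ 2 ≤ (C * N) ^ 2 * q := by
      rw [mul_pow (C * N)]
      exact mul_le_mul_of_nonneg_left (by nlinarith) (sq_nonneg _)
    refine (pow_le_pow_left₀ (norm_nonneg _) a5 2).trans ?_
    nlinarith [sq_nonneg (‖G‖ - C * N * q), sq_nonneg (‖G‖ - e0), sq_nonneg (C * N * q - e0)]
  refine (sum_le_sum fun t ht => sum_le_sum fun s hs => h3 t ht s hs).trans ?_
  simp only [sum_add_distrib, ← mul_sum, sum_const, nsmul_eq_mul]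
  have h4 : ∑ t ∈ W, ∑ s ∈ W, 1 / (1 + ((t - s : ℤ) : ℝ) ^ 2) ≤ (W.card : ℝ) * 5 := by
    simpa only [nsmul_eq_mul] using sum_le_card_nsmul W _ 5 fun t _ => gram_five W t
  have h5 := mul_le_mul_of_nonneg_left h4 (show 0 ≤ 3 * (C * N) ^ 2 by positivity)
  nlinarith

end Pool.Agent.Lib.MP_ecd12e_nt.Sch
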