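import Pool.Agent.Lib.MP_ecd12e_nt.Sch.Defs

set_option autoImplicit false

namespace Pool.Agent.Lib.MP_ecd12e_nt.Sch

open Finset Real MeasureTheory
open Pool.Agent.Lib.MP_ecd12e_nt.Bar (ei)

lemma trace_two {V : Type} [AddCommGroup V] [Module ℝ V] (Q : V →ₗ[ℝ] V →ₗ[ℝ] ℝ)
    (hs : ∀ u v, Q u v = Q v u) (hp : ∀ v, 0 ≤ Q v v) (a : ℝ) (x y : V) :
    2 * a * Q y x - a ^ 2 * Q x x ≤ Q y y := by
  have h := hp (y - a • x)
  simp only [map_sub, map_smul, LinearMap.sub_apply, LinearMap.smul_apply, smul_eq_mul] at h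
  rw [hs x y] at h
  linarith

lemma trace_sum {V ι : Type} [AddCommGroup V] [Module ℝ V] (Q : V →ₗ[ℝ] V →ₗ[ℝ] ℝ)
    (hs : ∀ u v, Q u v = Q v u) (hp : ∀ v, 0 ≤ Q v v) (s : Finset ι) (v : ι → V) :
    Q (∑ t ∈ s, v t) (∑ t ∈ s, v t) ≤ s.card * ∑ t ∈ s, Q (v t) (v t) := by
  rw [LinearMap.map_sum₂]
  simp only [map_sum]
  have h1 : ∑ t ∈ s, ∑ t' ∈ s, Q (v t) (v t') ≤
      ∑ t ∈ s, ∑ t' ∈ s, (Q (v t) (v t) / 2 + Q (v t') (v t') / 2) :=
    sum_le_sum fun t _ => sum_le_sum fun t' _ => by linarith [trace_two Q hs hp 1 (v t') (v t)]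
  refine h1.trans (le_of_eq ?_)
  simp only [sum_add_distrib, sum_const, nsmul_eq_mul, ← mul_sum, ← sum_div]
  ring

/-- The real part of the form with kernel `k`. -/
noncomputable def trace_K (k : ℤ → ℂ) (W : Finset ℤ) : (ℤ → ℂ) →ₗ[ℝ] (ℤ → ℂ) →ₗ[ℝ] ℝ :=
  LinearMap.mk₂ ℝ (fun u v => (∑ s ∈ W, ∑ s' ∈ W, (starRingEnd ℂ) (u s) * k (s - s') * v s').re)
    (fun u u' v => by simp only [Pi.add_apply, map_add, add_mul, sum_add_distrib, Complex.add_re])
    (fun a u v => by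
      simp only [Pi.smul_apply, Complex.real_smul, map_mul, Complex.conj_ofReal, mul_assoc,
        ← mul_sum, Complex.re_ofReal_mul, smul_eq_mul])
    (fun u v v' => by simp only [Pi.add_apply, mul_add, sum_add_distrib, Complex.add_re])
    (fun a u v => by
      simp only [Pi.smul_apply, Complex.real_smul, mul_left_comm _ (a : ℂ), ← mul_sum,
        Complex.re_ofReal_mul, smul_eq_mul])

/-- The real part of the scalar product. -/
noncomputable def trace_I (W : Finset ℤ) : (ℤ → ℂ) →ₗ[ℝ] (ℤ → ℂ) →ₗ[ℝ] ℝ :=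
  LinearMap.mk₂ ℝ (fun u v => (∑ s ∈ W, (starRingEnd ℂ) (u s) * v s).re)
    (fun u u' v => by simp only [Pi.add_apply, map_add, add_mul, sum_add_distrib, Complex.add_re])
    (fun a u v => by
      simp only [Pi.smul_apply, Complex.real_smul, map_mul, Complex.conj_ofReal, mul_assoc,
        ← mul_sum, Complex.re_ofReal_mul, smul_eq_mul])
    (fun u v v' => by simp only [Pi.add_apply, mul_add, sum_add_distrib, Complex.add_re])
    (fun a u v => by
      simp only [Pi.smul_apply, Complex.real_smul, mul_left_comm _ (a : ℂ), ← mul_sum,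
        Complex.re_ofReal_mul, smul_eq_mul])

lemma trace_K_apply (k : ℤ → ℂ) (W : Finset ℤ) (u v : ℤ → ℂ) : trace_K k W u v =
    (∑ s ∈ W, ∑ s' ∈ W, (starRingEnd ℂ) (u s) * k (s - s') * v s').re := rfl

lemma trace_I_apply (W : Finset ℤ) (u v : ℤ → ℂ) :
    trace_I W u v = (∑ s ∈ W, (starRingEnd ℂ) (u s) * v s).re := rfl

lemma trace_I_self (W : Finset ℤ) (u : ℤ → ℂ) : trace_I W u u = ∑ s ∈ W, ‖u s‖ ^ 2 := by
  rw [trace_I_apply, Complex.re_sum]
  refine sum_congr rfl fun s _ => ?_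
  rw [Complex.conj_mul', ← Complex.ofReal_pow, Complex.ofReal_re]

lemma trace_I_symm (W : Finset ℤ) (u v : ℤ → ℂ) : trace_I W u v = trace_I W v u := by
  rw [trace_I_apply, trace_I_apply, ← Complex.conj_re, map_sum]
  congr 1
  refine sum_congr rfl fun s _ => ?_
  rw [map_mul, Complex.conj_conj, mul_comm]

lemma trace_K_symm {k : ℤ → ℂ} (hk : ∀ t, k (-t) = (starRingEnd ℂ) (k t)) (W : Finset ℤ)
    (u v : ℤ → ℂ) : trace_K k W u v = trace_K k W v u := by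
  rw [trace_K_apply, trace_K_apply, ← Complex.conj_re, map_sum, sum_comm]
  congr 1
  refine sum_congr rfl fun s _ => ?_
  rw [map_sum]
  refine sum_congr rfl fun s' _ => ?_
  rw [map_mul, map_mul, Complex.conj_conj, ← hk, neg_sub]
  ring

lemma trace_cut {W W' : Finset ℤ} (hW' : W' ⊆ W) (η : ℤ → ℂ) (g : ℤ → ℂ → ℂ)
    (hg : ∀ s, g s 0 = 0) :
    ∑ s ∈ W, g s (if s ∈ W' then η s else 0) = ∑ s ∈ W', g s (η s) := by
  rw [← sum_subset hW' fun s _ hs => by rw [if_neg hs, hg]]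
  exact sum_congr rfl fun s hs => by rw [if_pos hs]

/-- The trace inequality. Let `A = (k (s - s')) + c I` on `W`, a positive semidefinite form, and
`e t = (k (s - t)) s`. Put `B t t' = ⟨e t, A (e t')⟩`; then
`B t t = ∑ k (t - s) k (s - s') k (s' - t) + c ∑ ‖k (t - s)‖ ^ 2 ≥ 0` and
`‖B t t'‖ ^ 2 ≤ B t t * B t' t'`. For `x = η / √|W'|` on `W'` and `y = ∑ x t • e t` one has
`⟨y, A y⟩ ≤ ∑ t ∈ W', B t t ≤ ∑ t ∈ U, ω t * B t t`. With `l = ⟨x, y⟩ ≥ lam` (real) one has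
`⟨x, A x⟩ = l + c`, `⟨x, A y⟩ = ‖y‖ ^ 2 + c l ≥ l (l + c)`, so Cauchy-Schwarz for `A` gives
`⟨y, A y⟩ ≥ l ^ 2 (l + c) ≥ lam ^ 3`. -/
theorem cube_le (k : ℤ → ℂ) (hk : ∀ t, k (-t) = (starRingEnd ℂ) (k t)) (W W' U : Finset ℤ)
    (hW' : W' ⊆ W) (hU : W' ⊆ U) (hne : W'.Nonempty) {c lam : ℝ} (hc : 0 ≤ c) (hlam : 0 ≤ lam)
    (hpsd : ∀ x : ℤ → ℂ, 0 ≤ (∑ s ∈ W, ∑ s' ∈ W, (starRingEnd ℂ) (x s) * k (s - s') * x s').re +
      c * ∑ s ∈ W, ‖x s‖ ^ 2)
    (η : ℤ → ℂ) (hη : ∀ t ∈ W', ‖η t‖ = 1)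
    (hl : lam * W'.card ≤ (∑ s ∈ W', ∑ s' ∈ W', (starRingEnd ℂ) (η s) * k (s - s') * η s').re)
    (ω : ℤ → ℝ) (hω : ∀ t ∈ U, 0 ≤ ω t) (hω' : ∀ t ∈ W', 1 ≤ ω t) :
    lam ^ 3 ≤ ‖tri k k k U W W (fun t => (ω t : ℂ)) (fun _ => 1) (fun _ => 1)‖ +
      c * ∑ t ∈ U, ω t * ∑ s ∈ W, ‖k (t - s)‖ ^ 2 := by
  rcases hlam.eq_or_lt with rfl | hlam
  · rw [zero_pow three_ne_zero]
    exact add_nonneg (norm_nonneg _) (mul_nonneg hc (sum_nonneg fun t ht =>
      mul_nonneg (hω t ht) (sum_nonneg fun _ _ => by positivity)))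
  obtain ⟨Q, hQ⟩ : ∃ Q, Q = trace_K k W + c • trace_I W := ⟨_, rfl⟩
  have hQa : ∀ u v, Q u v = trace_K k W u v + c * trace_I W u v := fun u v => by
    rw [hQ]
    rfl
  have hs : ∀ u v, Q u v = Q v u := fun u v => by
    rw [hQa, hQa, trace_K_symm hk, trace_I_symm]
  have hp : ∀ v, 0 ≤ Q v v := fun v => by
    rw [hQa, trace_I_self]
    exact hpsd v
  obtain ⟨B, hB⟩ : ∃ B : ℤ → ℝ, B = fun t =>
      (∑ s ∈ W, ∑ s' ∈ W, k (t - s) * k (s - s') * k (s' - t)).re +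
        c * ∑ s ∈ W, ‖k (t - s)‖ ^ 2 := ⟨_, rfl⟩
  have hv : ∀ (t : ℤ) (z : ℂ), ‖z‖ = 1 →
      Q (fun s => z * k (s - t)) (fun s => z * k (s - t)) = B t := by
    intro t z hz
    have h1 : (starRingEnd ℂ) z * z = 1 := by rw [Complex.conj_mul', hz]; simp
    rw [hQa, trace_I_self, trace_K_apply, hB]
    congr 2
    · refine sum_congr rfl fun s _ => sum_congr rfl fun s' _ => ?_
      rw [map_mul, ← hk (s - t), neg_sub]
      linear_combination (k (t - s) * k (s - s') * k (s' - t)) * h1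
    · refine sum_congr rfl fun s _ => ?_
      rw [norm_mul, hz, one_mul, ← neg_sub t s, hk, Complex.norm_conj]
  have hB0 : ∀ t, 0 ≤ B t := fun t => hv t 1 norm_one ▸ hp _
  have h1 : ∑ t ∈ W', B t ≤ ∑ t ∈ U, ω t * B t :=
    (sum_le_sum fun t ht => le_mul_of_one_le_left (hB0 t) (hω' t ht)).trans
      (sum_le_sum_of_subset_of_nonneg hU fun t ht _ => mul_nonneg (hω t ht) (hB0 t))
  have h2 : ∑ t ∈ U, ω t * B t =
      (tri k k k U W W (fun t => (ω t : ℂ)) (fun _ => 1) (fun _ => 1)).re +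
        c * ∑ t ∈ U, ω t * ∑ s ∈ W, ‖k (t - s)‖ ^ 2 := by
    simp only [tri, hB, mul_one, ← mul_sum]
    rw [Complex.re_sum, mul_sum, ← sum_add_distrib]
    refine sum_congr rfl fun t _ => ?_
    rw [Complex.re_ofReal_mul]
    ring
  obtain ⟨x, hx⟩ : ∃ x : ℤ → ℂ, x = fun s => if s ∈ W' then η s else 0 := ⟨_, rfl⟩
  obtain ⟨y, hy⟩ : ∃ y : ℤ → ℂ, y = ∑ t ∈ W', fun s => η t * k (s - t) := ⟨_, rfl⟩
  have hy' : ∀ s, y s = ∑ s' ∈ W, k (s - s') * x s' := fun s => by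
    rw [hy, hx, Finset.sum_apply,
      trace_cut hW' η (fun s' z => k (s - s') * z) fun _ => mul_zero _]
    exact sum_congr rfl fun t _ => mul_comm _ _
  have hKx : ∀ u, trace_K k W u x = trace_I W u y := fun u => by
    simp only [trace_K_apply, trace_I_apply, hy', mul_sum, mul_assoc]
  obtain ⟨L, hL⟩ : ∃ L, L = trace_I W x y := ⟨_, rfl⟩
  have hL1 : lam * W'.card ≤ L := by
    refine hl.trans (le_of_eq ?_)
    rw [hL, trace_I_apply, hx,
      trace_cut hW' η (fun s z => (starRingEnd ℂ) z * y s) fun _ => by simp]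
    congr 1
    refine sum_congr rfl fun s _ => ?_
    rw [hy, Finset.sum_apply, mul_sum]
    exact sum_congr rfl fun t _ => by ring
  have hxx : trace_I W x x = W'.card := by
    rw [trace_I_apply, hx, trace_cut hW' η (fun s z => (starRingEnd ℂ) z * z) fun _ => by simp,
      sum_congr rfl (g := fun _ => (1 : ℂ)) fun s hs => by rw [Complex.conj_mul', hη s hs]; simp]
    simp
  have hn : (0 : ℝ) < W'.card := by exact_mod_cast hne.card_pos
  have h3 : Q y y ≤ W'.card * ∑ t ∈ W', B t := by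
    have h := trace_sum Q hs hp W' fun t s => η t * k (s - t)
    rw [← hy, sum_congr rfl fun t ht => hv t (η t) (hη t ht)] at h
    exact h
  obtain ⟨a, ha⟩ : ∃ a, L = a * W'.card := ⟨L / W'.card, by field_simp⟩
  have ha1 : lam ≤ a := le_of_mul_le_mul_right (ha ▸ hL1) hn
  have ha0 : 0 < a := hlam.trans_le ha1
  have h4 := trace_two (trace_I W) (trace_I_symm W)
    (fun v => by rw [trace_I_self]; positivity) a x y
  have h5 := trace_two Q hs hp a x y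
  rw [hQa y x, hQa x x, hKx, hKx] at h5
  rw [trace_I_symm W y x, ← hL, hxx, ha] at h4 h5
  have h6 : lam ^ 3 ≤ a ^ 3 := pow_le_pow_left₀ hlam.le ha1 3
  have h7 : W'.card * a ^ 3 ≤ Q y y := by
    have h8 := mul_le_mul_of_nonneg_left h4 ha0.le
    have h9 : 0 ≤ a ^ 2 * c * W'.card := by positivity
    linarith
  have h10 := le_of_mul_le_mul_left (h7.trans h3) hn
  linarith [Complex.re_le_norm (tri k k k U W W (fun t => (ω t : ℂ)) (fun _ => 1) (fun _ => 1))]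

end Pool.Agent.Lib.MP_ecd12e_nt.Sch
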