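import Pool.Agent.Lib.MP_ecd12e_nt.Sch.Cube
import Pool.Agent.Lib.MP_ecd12e_nt.Sch.Energy
import Pool.Agent.Lib.MP_ecd12e_nt.Sch.Gram
import Pool.Agent.Lib.MP_ecd12e_nt.Sch.Trace

set_option autoImplicit false

namespace Pool.Agent.Lib.MP_ecd12e_nt.Sch

open Finset Real MeasureTheory
open Pool.Agent.Lib.MP_ecd12e_nt.Bar (ei)

/-- The loss factor: `exists_tauLe` with `Y = N ^ η`, `k η ≥ 8`, and `log x ≤ x ^ η / η`
(`Real.log_le_rpow_div`). -/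
theorem exists_loss {η : ℝ} (hη : 0 < η) :
    ∃ C : ℝ, 1 ≤ C ∧ ∀ N T : ℝ, 1 ≤ T → 1 ≤ N → T ≤ N ^ 2 → Loss T (C * N ^ η) := by
  obtain ⟨k, hk⟩ := exists_nat_ge (8 / η)
  rw [div_le_iff₀ hη] at hk
  obtain ⟨C, hC1, hC⟩ := exists_tauLe (k := k + 1) k.succ_pos (A := 16) (by norm_num)
  have h8 : 0 < 8 / η := by positivity
  refine ⟨C + 101 + 8 / η, by linarith, fun N T hT hN hTN => ?_⟩
  have hY : 1 ≤ N ^ η := Real.one_le_rpow hN hη.le
  have h1 : T ^ 4 ≤ N ^ 8 := by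
    rw [show N ^ 8 = (N ^ 2) ^ 4 by ring]
    exact pow_le_pow_left₀ (by linarith) hTN 4
  have h2 : N ^ 8 ≤ (N ^ η) ^ (k + 1) := by
    rw [← Real.rpow_natCast, ← Real.rpow_natCast, ← Real.rpow_mul (by linarith)]
    refine Real.rpow_le_rpow_of_exponent_le hN ?_
    push_cast
    linarith
  refine ⟨hT, fun n h3 h4 => (hC _ hY n h3 (h4.trans (by linarith))).trans ?_, ?_⟩
  · exact mul_le_mul_of_nonneg_right (by linarith) (by linarith)
  · have h3 : Real.log (100 * T ^ 4) ≤ Real.log (100 * N ^ 8) :=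
      Real.log_le_log (by positivity) (by linarith)
    rw [Real.log_mul (x := 100) (y := N ^ 8) (by norm_num) (by positivity), Real.log_pow] at h3
    have h4 := Real.log_le_rpow_div (x := N) (by linarith) hη
    have h5 := Real.log_le_sub_one_of_pos (x := 100) (by norm_num)
    have h6 : (C + 101 + 8 / η) * N ^ η = C * N ^ η + 101 * N ^ η + 8 * (N ^ η / η) := by ring
    have h7 : 0 ≤ C * N ^ η := by positivity
    push_cast at h3
    rw [h6]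
    linarith

/-- Constants are absorbed for large `N`. -/
theorem exists_absorb {η : ℝ} (hη : 0 < η) (C : ℝ) :
    ∃ N0 : ℕ, ∀ N : ℕ, N0 ≤ N → C ≤ (N : ℝ) ^ η := by
  exact Filter.eventually_atTop.1
    (((tendsto_rpow_atTop hη).comp tendsto_natCast_atTop_atTop).eventually_ge_atTop C)

theorem card_le_of_inR {W : Finset ℤ} {T : ℝ} (hT : 0 ≤ T) (h : InR W T) :
    (W.card : ℝ) ≤ T + 1 := by
  have h1 : W ⊆ Icc 0 ⌊T⌋ := fun t ht => mem_Icc.2 ⟨(h t ht).1, Int.le_floor.2 (h t ht).2⟩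
  have h2 : (W.card : ℤ) ≤ ⌊T⌋ + 1 := by
    have h3 := card_le_card h1
    have h4 := Int.floor_nonneg.2 hT
    rw [Int.card_Icc] at h3
    omega
  have h3 : (W.card : ℝ) ≤ ⌊T⌋ + 1 := by exact_mod_cast h2
  linarith [Int.floor_le T]

theorem one_le_en {W : Finset ℤ} (h : W.Nonempty) : 1 ≤ en W := by
  obtain ⟨t, ht⟩ := h
  have h0 : ∀ t1 t2 t3 : ℤ, (0 : ℝ) ≤ if t1 + t3 - t2 ∈ W then 1 * 1 else 0 := fun _ _ _ => by
    split_ifs <;> norm_num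
  unfold en wen
  refine le_trans ?_ (single_le_sum (f := fun t1 => ∑ t2 ∈ W, ∑ t3 ∈ W,
    if t1 + t3 - t2 ∈ W then (1 : ℝ) * 1 else 0)
    (fun _ _ => sum_nonneg fun _ _ => sum_nonneg fun _ _ => h0 _ _ _) ht)
  refine le_trans ?_ (single_le_sum (f := fun t2 => ∑ t3 ∈ W,
    if t + t3 - t2 ∈ W then (1 : ℝ) * 1 else 0) (fun _ _ => sum_nonneg fun _ _ => h0 _ _ _) ht)
  refine le_trans ?_ (single_le_sum (f := fun t3 =>
    if t + t3 - t ∈ W then (1 : ℝ) * 1 else 0) (fun _ _ => h0 _ _ _) ht)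
  simp [ht]

/-- `energy` with `P = C N ^ (η / 6)`. -/
theorem core_energy {η : ℝ} (hη : 0 < η) :
    ∃ N0 : ℕ, ∀ (N : ℕ) (T V : ℝ) (b : ℕ → ℂ) (W : Finset ℤ), N0 ≤ N → (N : ℝ) ≤ T →
      T ≤ (N : ℝ) ^ 2 → 0 ≤ V → LV N T V b W →
      V ^ 2 * en W ≤ (N : ℝ) ^ η * ((N : ℝ) ^ 2 * √(W.card * en W) +
        N * (W.card : ℝ) ^ 2 * √(yy T W) + N * (W.card : ℝ) ^ (5 / 6 : ℝ) * yy T W) := by
  obtain ⟨C, hC1, hC⟩ := exists_loss (η := η / 6) (by positivity)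
  obtain ⟨N0, hN0⟩ := exists_absorb (η := η / 2) (by positivity) (500 * C ^ 3)
  refine ⟨N0 + 1, fun N T V b W hN hNT hTN hV h => ?_⟩
  have hN1 : 1 ≤ N := by omega
  have hN1' : (1 : ℝ) ≤ N := by exact_mod_cast hN1
  refine (energy h hV (hC N T (hN1'.trans hNT) hN1' hTN) hN1 hNT hTN).trans
    (mul_le_mul_of_nonneg_right ?_ ?_)
  · have h1 : ((N : ℝ) ^ (η / 6)) ^ 3 = (N : ℝ) ^ (η / 2) := by
      rw [← Real.rpow_natCast, ← Real.rpow_mul (by linarith)]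
      congr 1
      push_cast
      ring
    have h2 : (N : ℝ) ^ η = (N : ℝ) ^ (η / 2) * (N : ℝ) ^ (η / 2) := by
      rw [← Real.rpow_add (by linarith), add_halves]
    rw [mul_pow, h1, h2, ← mul_assoc]
    exact mul_le_mul_of_nonneg_right (hN0 N (by omega)) (by positivity)
  · have := yy_nonneg T W
    positivity

theorem main_fin {U X1 X2 X3 lam : ℝ} (hU : 100000 ≤ U) (h1 : 1 ≤ X1) (h2 : 0 ≤ X2) (h3 : 0 ≤ X3)
    (h : lam ^ 3 ≤ U ^ 15 * (9 * U ^ 3 * X3 + 1) + U * (1500 * U ^ 4 * (X1 + X2) + U * X1)) :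
    (4 * lam) ^ 3 ≤ U ^ 20 * (X1 + X2 + X3) := by
  have hU1 : 1 ≤ U := by linarith
  have k1 : U ^ 5 ≤ U ^ 15 := pow_le_pow_right₀ hU1 (by norm_num)
  have k2 : U ^ 2 ≤ U ^ 15 := pow_le_pow_right₀ hU1 (by norm_num)
  have k3 : U ≤ U ^ 5 := le_self_pow₀ hU1 (by norm_num)
  have k4 : U ≤ U ^ 2 := le_self_pow₀ hU1 (by norm_num)
  have k5 : 100000 * U ^ 15 ≤ U ^ 20 := by
    rw [show U ^ 20 = U ^ 5 * U ^ 15 by ring]
    exact mul_le_mul_of_nonneg_right (by linarith) (by positivity)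
  have k6 : 576 * U ^ 18 ≤ U ^ 20 := by
    rw [show U ^ 20 = U ^ 2 * U ^ 18 by ring]
    exact mul_le_mul_of_nonneg_right (by linarith) (by positivity)
  have k7 : 0 ≤ U ^ 15 := by positivity
  have m1 := mul_le_mul_of_nonneg_right k6 h3
  have m2 := mul_le_mul_of_nonneg_left h1 k7
  have m3 := mul_le_mul_of_nonneg_right k1 (zero_le_one.trans h1)
  have m4 := mul_le_mul_of_nonneg_right k2 (zero_le_one.trans h1)
  have m5 := mul_le_mul_of_nonneg_right k5 (zero_le_one.trans h1)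
  have m6 := mul_le_mul_of_nonneg_right k1 h2
  have m7 := mul_le_mul_of_nonneg_right k5 h2
  have m8 := mul_nonneg k7 h2
  have m9 := mul_nonneg k7 (zero_le_one.trans h1)
  have e1 : U ^ 15 * (9 * U ^ 3 * X3 + 1) + U * (1500 * U ^ 4 * (X1 + X2) + U * X1) =
      9 * U ^ 18 * X3 + U ^ 15 + 1500 * (U ^ 5 * X1) + 1500 * (U ^ 5 * X2) + U ^ 2 * X1 := by ring
  rw [e1] at h
  have e2 : (4 * lam) ^ 3 = 64 * lam ^ 3 := by ring
  rw [e2, mul_add, mul_add]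
  linarith

theorem main_sqrt {U M Q R Y : ℝ} (hU : 1 ≤ U) (hM : 0 ≤ M) (hR : 0 ≤ R) (hY : 0 ≤ Y)
    (h : M ≤ 3 * U * Q) : √(R * M ^ 4 + M ^ 2 * Y) ≤ 9 * U ^ 2 * √(R * Q ^ 4 + Q ^ 2 * Y) := by
  have k1 : M ^ 4 ≤ (3 * U * Q) ^ 4 := pow_le_pow_left₀ hM h 4
  have k2 : M ^ 2 ≤ (3 * U * Q) ^ 2 := pow_le_pow_left₀ hM h 2
  have k3 : (3 * U) ^ 2 ≤ (3 * U) ^ 4 := pow_le_pow_right₀ (by linarith) (by norm_num)
  have k4 := mul_le_mul_of_nonneg_right k3 (sq_nonneg Q)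
  rw [← Real.sqrt_sq (show 0 ≤ 9 * U ^ 2 by positivity), ← Real.sqrt_mul (sq_nonneg _)]
  refine Real.sqrt_le_sqrt ?_
  have k5 := mul_le_mul_of_nonneg_left k1 hR
  have k6 : M ^ 2 * Y ≤ (3 * U) ^ 4 * Q ^ 2 * Y :=
    mul_le_mul_of_nonneg_right (k2.trans (by rw [mul_pow]; exact k4)) hY
  have e1 : (9 * U ^ 2) ^ 2 * (R * Q ^ 4 + Q ^ 2 * Y) =
      R * (3 * U * Q) ^ 4 + (3 * U) ^ 4 * Q ^ 2 * Y := by ring
  rw [e1]
  linarith

theorem main_param {η : ℝ} (hη : 0 < η) : ∃ (j : ℕ) (a : ℝ), 2 ≤ j ∧ 0 < a ∧ ∀ N : ℝ, 1 ≤ N →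
    (N ^ a) ^ 2 ≤ N ∧ (N ^ a) ^ 20 ≤ N ^ η ∧ N ^ 16 ≤ (N ^ a) ^ j := by
  obtain ⟨a, ha0, ha1, ha2⟩ : ∃ a : ℝ, 0 < a ∧ a ≤ η / 20 ∧ a ≤ 1 / 2 :=
    ⟨min (η / 20) (1 / 2), lt_min (by positivity) (by norm_num), min_le_left _ _, min_le_right _ _⟩
  obtain ⟨j, hj⟩ := exists_nat_ge (16 / a)
  rw [div_le_iff₀ ha0] at hj
  refine ⟨j + 2, a, by omega, ha0, fun N hN => ⟨?_, ?_, ?_⟩⟩
  · rw [← Real.rpow_natCast, ← Real.rpow_mul (by linarith)]
    refine (Real.rpow_le_rpow_of_exponent_le hN (y := a * (2 : ℕ)) (z := 1) ?_).trans_eq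
      (Real.rpow_one N)
    push_cast
    linarith
  · rw [← Real.rpow_natCast, ← Real.rpow_mul (by linarith)]
    refine Real.rpow_le_rpow_of_exponent_le hN ?_
    push_cast
    linarith
  · rw [← Real.rpow_natCast, ← Real.rpow_natCast, ← Real.rpow_mul (by linarith)]
    refine Real.rpow_le_rpow_of_exponent_le hN ?_
    push_cast
    linarith

/-- The main inequality. Fix a weight `w` (`exists_wt`), `a = min (η / 20) (1 / 2)`, `U = N ^ a`,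
`P = C N ^ a`, a natural `j ≥ 2` with `a j ≥ 16`, and `M = ⌈U (1 + T) / N⌉₊ ≤ 3 U T / N ≤ T`
(for `3 U ≤ N`). Then `approx` holds with `e0 = C N M / U ^ j`; as `R ≤ T + 1 ≤ 2 N ^ 2` and
`M ≤ N ^ 2`, for large `N` both `R e0 ≤ 1` and `N ^ 3 M ^ 3 R ^ 3 / U ^ j ≤ 1`. If
`R V ^ 2 > N ^ (2 + η)` then `lam = R V ^ 2 / (4 N)` is admissible in `cube_le` (with
`W' = U = W`, `ω = 1`, `gram_psd`, `gram_low`, `kr_neg`). Bound the trace by `cube_bound`, using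
`√(R M ^ 4 + M ^ 2 Y) ≤ 9 U ^ 2 √(R (T / N) ^ 4 + (T / N) ^ 2 Y)`, and the second term by
`gram_hs` and `double_sum` with `L = 3 N / 4`. The total loss is a constant times `N ^ (10 a)`. -/
theorem core_main {η : ℝ} (hη : 0 < η) :
    ∃ N0 : ℕ, ∀ (N : ℕ) (T V : ℝ) (b : ℕ → ℂ) (W : Finset ℤ), N0 ≤ N → (N : ℝ) ≤ T →
      T ≤ (N : ℝ) ^ 2 → 0 < V → LV N T V b W → W.Nonempty →
      W.card * V ^ 2 ≤ (N : ℝ) ^ (2 + η) ∨
      (W.card * V ^ 2 / N) ^ 3 ≤ (N : ℝ) ^ η * ((N : ℝ) ^ 3 * W.card + (N : ℝ) ^ 2 * yy T W +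
        (N : ℝ) ^ 2 * √(W.card : ℝ) * √(opn N T W) / V *
          √(W.card * (T / N) ^ 4 + (T / N) ^ 2 * yy T W)) := by
  obtain ⟨w, hw⟩ := exists_wt
  obtain ⟨j, a, hj, ha, hpar⟩ := main_param hη
  obtain ⟨CL, hCL1, hCL⟩ := exists_loss ha
  obtain ⟨Ca, hCa0, hCa⟩ := approx hw.toSm hj
  obtain ⟨Cp, hCp0, hCp⟩ := gram_psd hw
  obtain ⟨Cl, hCl0, hCl⟩ := gram_low hw
  obtain ⟨Ch, hCh0, hCh⟩ := gram_hs hw
  obtain ⟨Cc, hCc0, hCc⟩ := cube_bound hw j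
  obtain ⟨N0, hN0⟩ := exists_absorb ha (100000 + CL + 2 * Ca + Cp + Cl + Ch + Cc)
  refine ⟨N0 + 1, fun N T V b W hN hNT hTN hV h hne => ?_⟩
  have hN1 : 1 ≤ N := by omega
  have hN1' : (1 : ℝ) ≤ N := by exact_mod_cast hN1
  have hT1 : 1 ≤ T := hN1'.trans hNT
  have hK := hN0 N (by omega)
  have hP := hCL N T hT1 hN1' hTN
  obtain ⟨hU2, hU20, hUj⟩ := hpar N hN1'
  generalize (N : ℝ) ^ a = U at hK hP hU2 hU20 hUj
  have hU : 100000 ≤ U := by linarith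
  have hU0 : 0 < U := by linarith
  have hUN : 100000 * U ≤ N := le_trans (by nlinarith only [hU]) hU2
  have hN0' : (0 : ℝ) < N := by linarith
  have hR1 : (1 : ℝ) ≤ W.card := by exact_mod_cast hne.card_pos
  have hR2 : (W.card : ℝ) ≤ 2 * (N : ℝ) ^ 2 := by
    have := card_le_of_inR (by linarith) h.inr
    linarith
  obtain ⟨M, hM⟩ : ∃ M : ℕ, M = ⌈U * (1 + T) / N⌉₊ := ⟨_, rfl⟩
  have hM0 : 0 < U * (1 + T) / N := by positivity
  have hM1 : 1 ≤ M := by rw [hM]; exact Nat.ceil_pos.2 hM0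
  have hM2 : U * (1 + T) ≤ M * N := by
    rw [← div_le_iff₀ hN0', hM]
    exact Nat.le_ceil _
  have hQ1 : 1 ≤ T / N := (one_le_div hN0').2 hNT
  have hM3 : (M : ℝ) ≤ 3 * U * (T / N) := by
    have h1 : (M : ℝ) < U * (1 + T) / N + 1 := by rw [hM]; exact Nat.ceil_lt_add_one hM0.le
    have h2 : U * (1 + T) / N ≤ 2 * (U * (T / N)) := by
      rw [← mul_div_assoc, ← mul_div_assoc]
      exact div_le_div_of_nonneg_right (by nlinarith only [hT1, hU0]) hN0'.le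
    have h3 : 1 ≤ U * (T / N) := one_le_mul_of_one_le_of_one_le (by linarith) hQ1
    linarith
  have hM4 : (M : ℝ) ≤ T := by
    refine hM3.trans ?_
    rw [← mul_div_assoc, div_le_iff₀ hN0']
    nlinarith only [hUN, hU0, hT1]
  have hM5 : (M : ℝ) ≤ (N : ℝ) ^ 2 := hM4.trans hTN
  have hMn : (0 : ℝ) ≤ M := Nat.cast_nonneg M
  have hUj0 : 0 < U ^ j := by positivity
  obtain ⟨e0, he0⟩ : ∃ e0 : ℝ, e0 = Ca * (N * M) / U ^ j := ⟨_, rfl⟩
  have he1 : 0 ≤ e0 := by rw [he0]; positivity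
  have he2 : W.card * e0 ≤ 1 := by
    rw [he0, ← mul_div_assoc, div_le_one hUj0]
    refine le_trans ?_ hUj
    calc (W.card : ℝ) * (Ca * (N * M)) ≤ 2 * (N : ℝ) ^ 2 * (Ca * (N * (N : ℝ) ^ 2)) := by gcongr
      _ = 2 * Ca * (N : ℝ) ^ 5 := by ring
      _ ≤ N * (N : ℝ) ^ 5 := mul_le_mul_of_nonneg_right (by linarith) (by positivity)
      _ = (N : ℝ) ^ 6 := by ring
      _ ≤ _ := pow_le_pow_right₀ hN1' (by norm_num)
  have he3 : (N : ℝ) ^ 3 * (M : ℝ) ^ 3 * (W.card : ℝ) ^ 3 / U ^ j ≤ 1 := by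
    rw [div_le_one hUj0]
    refine le_trans ?_ hUj
    calc (N : ℝ) ^ 3 * (M : ℝ) ^ 3 * (W.card : ℝ) ^ 3
        ≤ (N : ℝ) ^ 3 * ((N : ℝ) ^ 2) ^ 3 * (2 * (N : ℝ) ^ 2) ^ 3 := by gcongr
      _ = 8 * (N : ℝ) ^ 15 := by ring
      _ ≤ N * (N : ℝ) ^ 15 := mul_le_mul_of_nonneg_right (by linarith) (by positivity)
      _ = _ := by ring
  have happ : ∀ t : ℤ, |(t : ℝ)| ≤ T → ‖gg w N t - N * ff w t 0 - kr w N M t‖ ≤ e0 := by
    intro t ht
    rw [he0]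
    exact hCa N M U t hN1 hM1 hU0 (le_trans (by gcongr) hM2)
  refine or_iff_not_imp_left.2 fun hbig => ?_
  rw [not_le, Real.rpow_add hN0', Real.rpow_two] at hbig
  obtain ⟨lam, hlam⟩ : ∃ lam : ℝ, lam = W.card * V ^ 2 / (4 * N) := ⟨_, rfl⟩
  have hl0 : 0 ≤ lam := by rw [hlam]; positivity
  have hl1 : Cl * N + W.card * e0 ≤ lam := by
    have h1 : U ^ 2 ≤ U ^ 20 := pow_le_pow_right₀ (by linarith) (by norm_num)
    have h0 : Cl + 1 ≤ U := by linarith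
    have h2 : 4 * (Cl + 1) ≤ (N : ℝ) ^ η := by nlinarith only [h0, h1, hU, hU20]
    have h3 := mul_le_mul_of_nonneg_left h2 (sq_nonneg (N : ℝ))
    rw [hlam, le_div_iff₀ (by positivity)]
    have h4 : (Cl * N + W.card * e0) * (4 * N) ≤ (Cl * N + N) * (4 * N) :=
      mul_le_mul_of_nonneg_right (by linarith) (by positivity)
    have h5 : (Cl * N + N) * (4 * N) = (N : ℝ) ^ 2 * (4 * (Cl + 1)) := by ring
    linarith
  obtain ⟨θ, hθ1, hθ2⟩ := hCl N M T V e0 b W hN1 he1 hV.le h happ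
  have hl2 : lam * W.card ≤ (W.card * V ^ 2 / (2 * N) - (Cl * N + W.card * e0)) * W.card := by
    refine mul_le_mul_of_nonneg_right ?_ (by linarith)
    have h1 : W.card * V ^ 2 / (2 * N) = 2 * lam := by
      rw [hlam]
      field_simp
      ring
    linarith
  have hcube := cube_le (kr w N M) (kr_neg w N M) W W W subset_rfl subset_rfl hne
    (c := Cp * N + W.card * e0) (by positivity) hl0 (hCp N M T e0 W hN1 he1 h.inr happ) θ
    (fun t _ => hθ1 t) (hl2.trans hθ2) (fun _ => 1) (fun _ _ => zero_le_one) fun _ _ => le_rfl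
  simp only [Complex.ofReal_one, one_mul] at hcube
  have htri := hCc N M T V _ U b W hN1 hNT hV h hP hne hM1 hM4 hU0 (by linarith)
  obtain ⟨J, hJ, hhs⟩ := hCh N M T e0 W hN1 he1 h.inr happ
  have hds := double_sum hP (L := 3 / 4 * N) (by positivity) (by nlinarith only [hNT, hT1]) hJ h.inr
  have hY := yy_nonneg T W
  have hPU : CL * U ≤ U ^ 2 := by
    rw [sq]
    exact mul_le_mul_of_nonneg_right (by linarith) hU0.le
  have hP0 : 0 ≤ CL * U := by positivity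
  have hsq := main_sqrt (U := U) (by linarith) hMn (Nat.cast_nonneg W.card) hY hM3
  obtain ⟨Z, hZ⟩ : ∃ Z : ℝ, Z = (N : ℝ) ^ 2 * √(W.card : ℝ) * √(opn N T W) / V := ⟨_, rfl⟩
  have hZ0 : 0 ≤ Z := by rw [hZ]; positivity
  have hZ1 : U * (N : ℝ) ^ 2 * √(W.card : ℝ) * √(opn N T W) / V = U * Z := by rw [hZ]; ring
  rw [hZ1] at htri
  rw [← hZ]
  generalize √(W.card * (T / N) ^ 4 + (T / N) ^ 2 * yy T W) = S at hsq ⊢
  have hS0 : 0 ≤ S := by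
    by_contra h1
    have h2 : 9 * U ^ 2 * S < 0 := mul_neg_of_pos_of_neg (by positivity) (not_le.1 h1)
    linarith [Real.sqrt_nonneg (W.card * (M : ℝ) ^ 4 + (M : ℝ) ^ 2 * yy T W)]
  have hX1 : 1 ≤ (N : ℝ) ^ 3 * W.card := one_le_mul_of_one_le_of_one_le (one_le_pow₀ hN1') hR1
  have hX2 : 0 ≤ (N : ℝ) ^ 2 * yy T W := by positivity
  have hX3 : 0 ≤ Z * S := by positivity
  have k1 : Cc * (CL * U) ^ 7 ≤ U ^ 15 := by
    calc Cc * (CL * U) ^ 7 ≤ U * (U ^ 2) ^ 7 := by gcongr; linarith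
      _ = U ^ 15 := by ring
  have k2 : U * Z * √(W.card * (M : ℝ) ^ 4 + (M : ℝ) ^ 2 * yy T W) ≤ 9 * U ^ 3 * (Z * S) :=
    (mul_le_mul_of_nonneg_left hsq (by positivity)).trans_eq (by ring)
  have k3 := htri.trans (mul_le_mul k1 (add_le_add k2 he3) (by positivity) (by positivity))
  have k4 : Cp * N + W.card * e0 ≤ U * N := by
    have h1 := mul_le_mul_of_nonneg_right (show Cp + 1 ≤ U by linarith) hN0'.le
    linarith only [h1, he2, hN1']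
  have k5 : 500 * (CL * U) ^ 2 * (W.card * (3 / 4 * N) ^ 2 + 3 / 4 * N * yy T W) ≤
      500 * (U ^ 2) ^ 2 * (W.card * (N : ℝ) ^ 2 + N * yy T W) := by
    gcongr <;> linarith
  have k6 : Ch * (N : ℝ) ^ 2 * W.card + 3 * (W.card * e0) ^ 2 ≤ U * ((N : ℝ) ^ 2 * W.card) := by
    have h1 : (W.card * e0) ^ 2 ≤ 1 := pow_le_one₀ (by positivity) he2
    have h2 : 1 ≤ (N : ℝ) ^ 2 * W.card := one_le_mul_of_one_le_of_one_le (one_le_pow₀ hN1') hR1
    have h3 := mul_le_mul_of_nonneg_right (show Ch + 3 ≤ U by linarith) (zero_le_one.trans h2)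
    linarith
  have k7 : ∑ t ∈ W, ∑ s ∈ W, ‖kr w N M (t - s)‖ ^ 2 ≤
      1500 * U ^ 4 * (W.card * (N : ℝ) ^ 2 + N * yy T W) + U * ((N : ℝ) ^ 2 * W.card) := by
    linarith
  have k8 := mul_le_mul k4 k7 (sum_nonneg fun _ _ => sum_nonneg fun _ _ => sq_nonneg _)
    (by positivity)
  have k9 := main_fin hU hX1 hX2 hX3 (lam := lam) (by linarith)
  have e1 : W.card * V ^ 2 / N = 4 * lam := by
    rw [hlam]
    field_simp
  rw [e1]
  exact k9.trans (mul_le_mul_of_nonneg_right hU20 (by positivity))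

end Pool.Agent.Lib.MP_ecd12e_nt.Sch
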