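import Pool.Agent.Lib.MP_ecd12e_nt.Sch.Decay

set_option autoImplicit false

namespace Pool.Agent.Lib.MP_ecd12e_nt.Sch

open Finset Real MeasureTheory
open Pool.Agent.Lib.MP_ecd12e_nt.Bar (ei)

lemma poisson_bound {w : ℝ → ℝ} {j : ℕ} {C : ℝ}
    (hC : ∀ t ξ : ℝ, |ξ| ^ j * ‖ff w t ξ‖ ≤ C * (1 + |t|) ^ j) {N : ℕ} (hN : 1 ≤ N) (t : ℝ)
    {m : ℝ} (hm : m ≠ 0) :
    ‖(N : ℂ) * ff w t (m * N)‖ ≤ N * C * ((1 + |t|) / N / |m|) ^ j := by
  have hN' : (0 : ℝ) < N := by exact_mod_cast hN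
  have hm' : 0 < |m| := abs_pos.2 hm
  have h1 := hC t (m * N)
  rw [abs_mul, abs_of_pos hN'] at h1
  rw [norm_mul, Complex.norm_natCast, mul_assoc, div_div, div_pow, ← mul_div_assoc]
  refine mul_le_mul_of_nonneg_left ?_ hN'.le
  rw [le_div_iff₀ (by positivity), mul_comm, mul_comm (N : ℝ)]
  exact h1

lemma poisson_fourier (w : ℝ → ℝ) {N : ℕ} (hN : 1 ≤ N) (t ξ : ℝ) :
    FourierTransform.fourier
      (fun x : ℝ => (w (x / N) : ℂ) * ei (t * Real.log (x / N))) ξ = N * ff w t (ξ * N) := by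
  have hN' : (0 : ℝ) < N := by exact_mod_cast hN
  have h1 := Measure.integral_comp_div
    (fun u : ℝ => (w u : ℂ) * ei (t * Real.log u - 2 * π * (ξ * N) * u)) (N : ℝ)
  rw [abs_of_pos hN', Complex.real_smul, Complex.ofReal_natCast] at h1
  rw [Real.fourier_real_eq_integral_exp_smul, ff, ← h1]
  congr 1
  funext v
  have h2 : t * Real.log (v / N) - 2 * π * (ξ * N) * (v / N) =
      -2 * π * v * ξ + t * Real.log (v / N) := by
    field_simp
    ring
  rw [h2, Bar.ei_add, smul_eq_mul]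
  change ei (-2 * π * v * ξ) * _ = _
  ring

/-- Poisson summation for `f x = φ (x / N) * ei (t log (x / N))`, which is continuous with compact
support; its Fourier transform at `m` is `N * ff φ t (m N)`, summable by `decay_xi 2`
(`Real.tsum_eq_tsum_fourier_of_rpow_decay_of_summable` or a similar form). -/
theorem poisson {w : ℝ → ℝ} (h : Sm w) {N : ℕ} (hN : 1 ≤ N) (t : ℝ) :
    HasSum (fun m : ℤ => (N : ℂ) * ff w t (m * N)) (gg w N t) := by
  have hN' : (0 : ℝ) < N := by exact_mod_cast hN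
  obtain ⟨C, -, hC⟩ := decay_xi 2 h
  have hs : Summable fun m : ℤ => (N : ℂ) * ff w t (m * N) := by
    refine Summable.of_norm_bounded_eventually
      (g := fun m : ℤ => N * C * ((1 + |t|) / N) ^ 2 * (1 / (m : ℝ) ^ 2))
      ((Real.summable_one_div_int_pow.2 one_lt_two).mul_left _) ?_
    filter_upwards [(Set.finite_singleton (0 : ℤ)).compl_mem_cofinite] with m hm
    refine (poisson_bound hC hN t (Int.cast_ne_zero.2 hm)).trans (le_of_eq ?_)
    rw [div_pow _ |(m : ℝ)|, sq_abs]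
    ring
  set f : ℝ → ℂ := fun x => (w (x / N) : ℂ) * ei (t * Real.log (x / N)) with hf
  have hc : Continuous f := by
    have h1 := (h.cont_int t 0).comp (continuous_id.div_const (N : ℝ))
    refine h1.congr fun x => ?_
    simp [hf]
  have hz : ∀ x : ℝ, x < 0 ∨ 3 * (N : ℝ) ≤ x → f x = 0 := by
    intro x hx
    have h1 : w (x / N) = 0 := by
      refine h.supp _ (hx.imp (fun hx => ?_) fun hx => ?_)
      · exact (div_neg_of_neg_of_pos hx hN').trans (by norm_num)
      · rw [lt_div_iff₀ hN']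
        linarith
    simp [hf, h1]
  have hO : f =O[Filter.cocompact ℝ] fun x : ℝ => |x| ^ (-(2 : ℝ)) := by
    refine (Asymptotics.isBigO_zero _ _).congr' ?_ Filter.EventuallyEq.rfl
    filter_upwards [(isCompact_Icc (a := (0 : ℝ)) (b := 3 * N)).compl_mem_cocompact] with x hx
    refine (hz x ?_).symm
    by_contra hn
    rw [not_or, not_lt, not_le] at hn
    exact hx ⟨hn.1, hn.2.le⟩
  have hF : ∀ m : ℤ, FourierTransform.fourier f (m : ℝ) = (N : ℂ) * ff w t (m * N) :=
    fun m => poisson_fourier w hN t m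
  have hP := Real.tsum_eq_tsum_fourier_of_rpow_decay_of_summable hc one_lt_two hO
    (hs.congr fun m => (hF m).symm) 0
  simp only [zero_add, hF, QuotientAddGroup.mk_zero, fourier_eval_zero, mul_one] at hP
  have hL : ∑' n : ℤ, f n = gg w N t := by
    rw [tsum_eq_sum (s := (range (3 * N)).image (Nat.cast : ℕ → ℤ)), sum_image
      (fun a _ b _ e => Nat.cast_injective e)]
    · simp [gg, hf]
    · intro n hn
      refine hz _ ?_
      by_contra hc'
      rw [not_or, not_lt, not_le] at hc'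
      have h1 : 0 ≤ n := by exact_mod_cast hc'.1
      have h2 : n < 3 * N := by exact_mod_cast hc'.2
      exact hn (mem_image.2 ⟨n.toNat, mem_range.2 (by omega), Int.toNat_of_nonneg h1⟩)
  rw [← hL, hP]
  exact hs.hasSum

/-- Truncation: the tail is at most
`2 N C ((1 + |t|) / N) ^ j ∑ m > M, m ^ (-j) ≤ 2 C N M / U ^ j`. -/
theorem approx {w : ℝ → ℝ} (h : Sm w) {j : ℕ} (hj : 2 ≤ j) :
    ∃ C : ℝ, 0 ≤ C ∧ ∀ (N M : ℕ) (U : ℝ) (t : ℤ), 1 ≤ N → 1 ≤ M → 0 < U →
      U * (1 + |(t : ℝ)|) ≤ M * N →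
      ‖gg w N t - N * ff w t 0 - kr w N M t‖ ≤ C * (N * M) / U ^ j := by
  obtain ⟨C, hC0, hC⟩ := decay_xi j h
  refine ⟨2 * C, by positivity, fun N M U t hN hM hU hUt => ?_⟩
  have hN' : (0 : ℝ) < N := by exact_mod_cast hN
  have hM' : (0 : ℝ) < M := by exact_mod_cast hM
  let b : ℕ → ℂ := fun n => (N : ℂ) * ff w t (n * N) + N * ff w t (-n * N)
  have h1 : HasSum b (gg w N t + N * ff w t 0) := by
    have h2 := (poisson h hN t).nat_add_neg
    simpa only [Int.cast_natCast, Int.cast_neg, Int.cast_zero, zero_mul] using h2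
  have h2 := (hasSum_nat_add_iff' (M + 1)).2 h1
  have h3 : ∑ i ∈ range (M + 1), b i = 2 * (N * ff w t 0) + kr w N M t := by
    rw [range_eq_Ico, sum_eq_sum_Ico_succ_bot (Nat.succ_pos M), kr, blk, blk, ← sum_add_distrib]
    congr 1
    · simp only [b, Nat.cast_zero, neg_zero, zero_mul]
      ring
    · refine sum_congr rfl fun m _ => ?_
      simp only [b, one_mul, neg_mul]
  have h4 : gg w N t + N * ff w t 0 - ∑ i ∈ range (M + 1), b i =
      gg w N t - N * ff w t 0 - kr w N M t := by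
    rw [h3]
    ring
  rw [h4] at h2
  have hq : (1 + |(t : ℝ)|) / N ≤ M / U := by
    rw [div_le_div_iff₀ hN' hU, mul_comm]
    exact hUt
  have hb : ∀ n : ℕ, ‖b (n + (M + 1))‖ ≤
      2 * C * (N * M) / U ^ j * (M / ((n : ℝ) + M) - M / (((n + 1 : ℕ) : ℝ) + M)) := by
    intro n
    have hx : (0 : ℝ) < (n : ℝ) + M := by positivity
    set x : ℝ := ((n + (M + 1) : ℕ) : ℝ) with hxd
    have hx' : x = n + M + 1 := by rw [hxd]; push_cast; ring
    have hx0 : 0 < x := by rw [hx']; positivity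
    have k1 := poisson_bound hC hN t hx0.ne'
    have k2 := poisson_bound hC hN t (neg_ne_zero.2 hx0.ne')
    rw [abs_neg] at k2
    rw [abs_of_pos hx0] at k1 k2
    have k3 : ((1 + |(t : ℝ)|) / N / x) ^ j ≤ (M / x) ^ 2 / U ^ j := by
      calc ((1 + |(t : ℝ)|) / N / x) ^ j ≤ (M / U / x) ^ j := by gcongr
        _ = (M / x) ^ j / U ^ j := by rw [div_right_comm, div_pow]
        _ ≤ (M / x) ^ 2 / U ^ j := by
          refine div_le_div_of_nonneg_right (pow_le_pow_of_le_one (by positivity) ?_ hj)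
            (by positivity)
          rw [div_le_one hx0, hx']
          linarith [Nat.cast_nonneg (α := ℝ) n]
    have k4 : ((M : ℝ) / x) ^ 2 ≤ M * (M / ((n : ℝ) + M) - M / (((n + 1 : ℕ) : ℝ) + M)) := by
      have e : (M : ℝ) * (M / ((n : ℝ) + M) - M / (((n + 1 : ℕ) : ℝ) + M)) =
          M ^ 2 / (((n : ℝ) + M) * x) := by
        rw [hx']
        push_cast
        field_simp
        ring
      rw [e, div_pow]
      refine div_le_div_of_nonneg_left (by positivity) (by positivity) ?_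
      rw [sq]
      exact mul_le_mul_of_nonneg_right (by rw [hx']; linarith) hx0.le
    calc ‖b (n + (M + 1))‖ ≤ _ := norm_add_le _ _
      _ ≤ 2 * (N * C * ((1 + |(t : ℝ)|) / N / x) ^ j) := by linarith
      _ ≤ 2 * (N * C * (M * (M / ((n : ℝ) + M) - M / (((n + 1 : ℕ) : ℝ) + M)) / U ^ j)) := by
        gcongr
        exact k3.trans (div_le_div_of_nonneg_right k4 (by positivity))
      _ = _ := by ring
  refine le_of_tendsto' h2.tendsto_sum_nat.norm fun n => ?_
  refine (norm_sum_le _ _).trans ((sum_le_sum fun i _ => hb i).trans ?_)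
  rw [← mul_sum, sum_range_sub' (fun i : ℕ => (M : ℝ) / ((i : ℝ) + M))]
  refine mul_le_of_le_one_right (by positivity) ?_
  rw [Nat.cast_zero, zero_add, div_self hM'.ne']
  exact sub_le_self _ (by positivity)

lemma poisson_blk_neg (w : ℝ → ℝ) (N : ℕ) (s : ℝ) (I : Finset ℕ) (t : ℤ) :
    blk w N (-s) I (-t) = (starRingEnd ℂ) (blk w N s I t) := by
  rw [blk, blk, map_sum]
  refine sum_congr rfl fun m _ => ?_
  rw [map_mul, map_natCast, ← ff_conj, Int.cast_neg, neg_mul, neg_mul]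

theorem kr_neg (w : ℝ → ℝ) (N M : ℕ) (t : ℤ) :
    kr w N M (-t) = (starRingEnd ℂ) (kr w N M t) := by
  rw [kr, kr, map_add, ← poisson_blk_neg, ← poisson_blk_neg, neg_neg, add_comm]

end Pool.Agent.Lib.MP_ecd12e_nt.Sch
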