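import Pool.Agent.Lib.MP_ecd12e_nt.Sch.Decay

set_option autoImplicit false

namespace Pool.Agent.Lib.MP_ecd12e_nt.Sch

open Finset Real MeasureTheory
open Pool.Agent.Lib.MP_ecd12e_nt.Bar (ei)

/-- The scalar weight of one triple `(m1, m2, m3)`. -/
noncomputable def kw (w : ℝ → ℝ) (s1 s2 s3 x1 x2 x3 : ℝ) (q : ℝ × (ℝ × ℝ)) : ℂ :=
  ((q.1 ^ 2 * Real.exp (q.2.1 + q.2.2) : ℝ) : ℂ) * ei (-(2 * π * q.1 * lin s1 s2 s3 q.2)) *
    ((w (q.1 * Real.exp q.2.1 / x1) * w (q.1 * Real.exp q.2.2 / x2) * w (q.1 / x3) : ℝ) : ℂ)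

theorem kw_cont {w : ℝ → ℝ} (h : Sm w) (s1 s2 s3 x1 x2 x3 : ℝ) :
    Continuous (kw w s1 s2 s3 x1 x2 x3) := by
  have hw : Continuous w := (h.smooth 0).continuous
  have he := continuous_ei
  unfold kw lin
  fun_prop

/-- On the support `3/4 x3 ≤ r ≤ 9/4 x3` and `x1 / (3 x3) ≤ exp a ≤ 3 x1 / x3`, the same for `b`. -/
theorem kw_supp {w : ℝ → ℝ} (h : Sm w) (s1 s2 s3 : ℝ) {x1 x2 x3 : ℝ} (h1 : 0 < x1) (h2 : 0 < x2)
    (h3 : 0 < x3) : HasCompactSupport (kw w s1 s2 s3 x1 x2 x3) := by
  have hsupp : ∀ u, w u ≠ 0 → 3 / 4 ≤ u ∧ u ≤ 9 / 4 := fun u hu => by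
    by_contra hc
    rw [not_and_or, not_le, not_le] at hc
    exact hu (h.supp u hc)
  have key : ∀ {x r a : ℝ}, 0 < x → 3 / 4 ≤ r / x3 → r / x3 ≤ 9 / 4 →
      3 / 4 ≤ r * Real.exp a / x → r * Real.exp a / x ≤ 9 / 4 →
      a ∈ Set.Icc (Real.log (x / (3 * x3))) (Real.log (3 * x / x3)) := by
    intro x r a hx a1 a2 a3 a4
    rw [le_div_iff₀ h3] at a1
    rw [div_le_iff₀ h3] at a2
    rw [le_div_iff₀ hx] at a3
    rw [div_le_iff₀ hx] at a4
    have he := Real.exp_pos a
    constructor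
    · rw [Real.log_le_iff_le_exp (by positivity), div_le_iff₀ (by positivity)]
      nlinarith
    · rw [Real.le_log_iff_exp_le (by positivity), le_div_iff₀ h3]
      nlinarith
  refine HasCompactSupport.intro (K := Set.Icc (3 / 4 * x3) (9 / 4 * x3) ×ˢ
    (Set.Icc (Real.log (x1 / (3 * x3))) (Real.log (3 * x1 / x3)) ×ˢ
      Set.Icc (Real.log (x2 / (3 * x3))) (Real.log (3 * x2 / x3))))
    (isCompact_Icc.prod (isCompact_Icc.prod isCompact_Icc)) fun q hq => ?_
  by_contra hne
  have hw : w (q.1 * Real.exp q.2.1 / x1) * w (q.1 * Real.exp q.2.2 / x2) * w (q.1 / x3) ≠ 0 := by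
    intro h0
    apply hne
    unfold kw
    rw [h0]
    simp
  obtain ⟨hw12, hw3⟩ := mul_ne_zero_iff.1 hw
  obtain ⟨hw1, hw2⟩ := mul_ne_zero_iff.1 hw12
  obtain ⟨a1, a2⟩ := hsupp _ hw3
  refine hq ⟨⟨(le_div_iff₀ h3).1 a1, (div_le_iff₀ h3).1 a2⟩,
    key h1 a1 a2 (hsupp _ hw1).1 (hsupp _ hw1).2, key h2 a1 a2 (hsupp _ hw2).1 (hsupp _ hw2).2⟩

/-- Linear substitution `u = r / x`. -/
theorem ff_lin (w : ℝ → ℝ) (t s : ℝ) {x : ℝ} (hx : 0 < x) :
    (x : ℂ) * ff w t (s * x) =
      ∫ r : ℝ, (w (r / x) : ℂ) * ei (t * Real.log (r / x) - 2 * π * s * r) := by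
  have h1 := Measure.integral_comp_div
    (fun u : ℝ => (w u : ℂ) * ei (t * Real.log u - 2 * π * (s * x) * u)) x
  rw [abs_of_pos hx, Complex.real_smul] at h1
  unfold ff
  rw [← h1]
  refine integral_congr_ae (Filter.Eventually.of_forall fun r => ?_)
  have : 2 * π * (s * x) * (r / x) = 2 * π * s * r := by field_simp
  simp only [this]

/-- Exponential substitution `u = r * exp a / x` for `r > 0`: the integrand of `ff` vanishes for
`u ≤ 0`; `integral_image_eq_integral_abs_deriv_smul` on `univ`, or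
`MeasureTheory.integral_comp_mul_deriv` type lemmas, or `integral_Ioi` with `Real.exp`. -/
theorem ff_exp {w : ℝ → ℝ} (h : Sm w) (t s : ℝ) {x r : ℝ} (hx : 0 < x) (hr : 0 < r) :
    (x : ℂ) * ff w t (s * x) =
      ∫ a : ℝ, ((r * Real.exp a : ℝ) : ℂ) * (w (r * Real.exp a / x) : ℂ) *
        ei (t * (Real.log r + a - Real.log x) - 2 * π * s * (r * Real.exp a)) := by
  have him : (fun a : ℝ => r * Real.exp a / x) '' Set.univ = Set.Ioi 0 := by
    ext u
    simp only [Set.image_univ, Set.mem_range, Set.mem_Ioi]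
    constructor
    · rintro ⟨a, rfl⟩
      positivity
    · intro hu
      refine ⟨Real.log (u * x / r), ?_⟩
      rw [Real.exp_log (by positivity)]
      field_simp
  have hder : ∀ a ∈ (Set.univ : Set ℝ), HasDerivWithinAt (fun a : ℝ => r * Real.exp a / x)
      (r * Real.exp a / x) Set.univ a := fun a _ =>
    (((Real.hasDerivAt_exp a).const_mul r).div_const x).hasDerivWithinAt
  have hinj : Set.InjOn (fun a : ℝ => r * Real.exp a / x) Set.univ := by
    intro a _ b _ hab
    have : Real.exp a = Real.exp b := by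
      simp only at hab
      field_simp at hab
      exact hab
    exact Real.exp_injective this
  have h1 := integral_image_eq_integral_abs_deriv_smul MeasurableSet.univ hder hinj
    (fun u : ℝ => (w u : ℂ) * ei (t * Real.log u - 2 * π * (s * x) * u))
  rw [him, Measure.restrict_univ, setIntegral_eq_integral_of_forall_compl_eq_zero
    (fun u hu => by
      have : w u = 0 := h.supp u (Or.inl (by simp only [Set.mem_Ioi, not_lt] at hu; linarith))
      simp [this])] at h1
  unfold ff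
  rw [h1, ← integral_const_mul]
  refine integral_congr_ae (Filter.Eventually.of_forall fun a => ?_)
  have he := Real.exp_pos a
  have e1 : Real.log (r * Real.exp a / x) = Real.log r + a - Real.log x := by
    rw [Real.log_div (by positivity) hx.ne', Real.log_mul hr.ne' he.ne', Real.log_exp]
  have e2 : 2 * π * (s * x) * (r * Real.exp a / x) = 2 * π * s * (r * Real.exp a) := by
    field_simp
  have hx' : (x : ℂ) ≠ 0 := by exact_mod_cast hx.ne'
  simp only [e1, e2]
  rw [abs_of_pos (by positivity), Complex.real_smul, ← mul_assoc, ← mul_assoc]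
  congr 2
  push_cast
  field_simp

/-- The product of three integrals with `u1 + u2 + u3 = 0`. Write the third factor by `ff_lin`;
for `r ≤ 0` its integrand vanishes; for `r > 0` write the first two factors by `ff_exp` and their
product as an integral over `ℝ × ℝ` (`integral_prod_mul`). The powers of `r` cancel. Finish with
`integral_prod` (the integrand is continuous with compact support). -/
theorem triple_id {w : ℝ → ℝ} (h : Sm w) (s1 s2 s3 : ℝ) {x1 x2 x3 : ℝ} (h1 : 0 < x1) (h2 : 0 < x2)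
    (h3 : 0 < x3) (t1 t2 t3 : ℝ) :
    ((x1 : ℂ) * ff w (t1 - t2) (s1 * x1)) * ((x2 : ℂ) * ff w (t2 - t3) (s2 * x2)) *
      ((x3 : ℂ) * ff w (t3 - t1) (s3 * x3)) =
      ∫ q : ℝ × (ℝ × ℝ), kw w s1 s2 s3 x1 x2 x3 q *
        (ei (t1 * (q.2.1 - Real.log x1 + Real.log x3)) *
          ei (t2 * (q.2.2 - q.2.1 - Real.log x2 + Real.log x1)) *
          ei (t3 * (-q.2.2 - Real.log x3 + Real.log x2))) := by
  have he := continuous_ei
  have hint : Integrable (fun q : ℝ × (ℝ × ℝ) => kw w s1 s2 s3 x1 x2 x3 q *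
        (ei (t1 * (q.2.1 - Real.log x1 + Real.log x3)) *
          ei (t2 * (q.2.2 - q.2.1 - Real.log x2 + Real.log x1)) *
          ei (t3 * (-q.2.2 - Real.log x3 + Real.log x2)))) (volume.prod volume) := by
    rw [← Measure.volume_eq_prod]
    refine Continuous.integrable_of_hasCompactSupport ((kw_cont h _ _ _ _ _ _).mul (by fun_prop))
      ((kw_supp h s1 s2 s3 h1 h2 h3).mul_right)
  rw [Measure.volume_eq_prod, integral_prod _ hint, ff_lin w _ _ h3, ← integral_const_mul]
  refine integral_congr_ae (Filter.Eventually.of_forall fun r => ?_)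
  rcases le_or_gt r 0 with hr | hr
  · have : w (r / x3) = 0 := h.supp _ (Or.inl (by
      have := div_nonpos_of_nonpos_of_nonneg hr h3.le
      linarith))
    simp [kw, this]
  · simp only
    rw [ff_exp h _ _ h1 hr, ff_exp h _ _ h2 hr, ← integral_prod_mul, ← integral_mul_const,
      Measure.volume_eq_prod]
    refine integral_congr_ae (Filter.Eventually.of_forall fun p => ?_)
    have e1 : ei ((t1 - t2) * (Real.log r + p.1 - Real.log x1) - 2 * π * s1 * (r * Real.exp p.1)) *
        ei ((t2 - t3) * (Real.log r + p.2 - Real.log x2) - 2 * π * s2 * (r * Real.exp p.2)) *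
        ei ((t3 - t1) * Real.log (r / x3) - 2 * π * s3 * r) =
        ei (-(2 * π * r * lin s1 s2 s3 p)) * (ei (t1 * (p.1 - Real.log x1 + Real.log x3)) *
          ei (t2 * (p.2 - p.1 - Real.log x2 + Real.log x1)) *
          ei (t3 * (-p.2 - Real.log x3 + Real.log x2))) := by
      rw [← Bar.ei_add, ← Bar.ei_add, ← Bar.ei_add, ← Bar.ei_add, ← Bar.ei_add,
        Real.log_div hr.ne' h3.ne']
      congr 1
      unfold lin
      ring
    simp only [kw, Real.exp_add]
    push_cast at e1 ⊢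
    linear_combination ((r : ℂ) ^ 2 * Complex.exp p.1 * Complex.exp p.2 *
      w (r * Real.exp p.1 / x1) * w (r * Real.exp p.2 / x2) * w (r / x3)) * e1

end Pool.Agent.Lib.MP_ecd12e_nt.Sch
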