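import Pool.Agent.Lib.MP_ecd12e_nt.Sch.RepA

set_option autoImplicit false

namespace Pool.Agent.Lib.MP_ecd12e_nt.Sch

open Finset Real MeasureTheory
open Pool.Agent.Lib.MP_ecd12e_nt.Bar (ei)

/-- `hh` as a finite sum of the scalar weights. -/
theorem hh_eq (w : ℝ → ℝ) (N : ℕ) (s1 s2 s3 : ℝ) (I1 I2 I3 : Finset ℕ) (p1 p2 p3 : ℝ → ℂ)
    (r : ℝ) (p : ℝ × ℝ) :
    hh w N s1 s2 s3 I1 I2 I3 p1 p2 p3 r p =
      ∑ m1 ∈ I1, ∑ m2 ∈ I2, ∑ m3 ∈ I3, ((1 / (m1 * m2 * m3) : ℝ) : ℂ) *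
        kw w s1 s2 s3 (m1 * N) (m2 * N) (m3 * N) (r, p) *
        (p1 (p.1 - Real.log m1 + Real.log m3) * p2 (p.2 - p.1 - Real.log m2 + Real.log m1) *
          p3 (-p.2 - Real.log m3 + Real.log m2)) := by
  unfold hh dsum kw
  simp only [mul_sum]
  refine sum_congr rfl fun m1 _ => sum_congr rfl fun m2 _ => sum_congr rfl fun m3 _ => ?_
  push_cast
  ring

theorem repb_pos {N m : ℕ} (hN : 1 ≤ N) (hm : 1 ≤ m) : (0 : ℝ) < (m : ℝ) * N :=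
  mul_pos (by exact_mod_cast hm) (by exact_mod_cast hN)

theorem repb_int {w : ℝ → ℝ} (h : Sm w) (s1 s2 s3 : ℝ) {x1 x2 x3 : ℝ} (h1 : 0 < x1) (h2 : 0 < x2)
    (h3 : 0 < x3) (c : ℂ) {g : ℝ × (ℝ × ℝ) → ℂ} (hg : Continuous g) :
    Integrable (fun q : ℝ × (ℝ × ℝ) => c * kw w s1 s2 s3 x1 x2 x3 q * g q) :=
  Continuous.integrable_of_hasCompactSupport
    ((continuous_const.mul (kw_cont h s1 s2 s3 x1 x2 x3)).mul hg)
    (kw_supp h s1 s2 s3 h1 h2 h3).mul_left.mul_right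


/-- Continuous with compact support. -/
theorem hh_integrable {w : ℝ → ℝ} (h : Sm w) {N : ℕ} (hN : 1 ≤ N) (s1 s2 s3 : ℝ)
    {I1 I2 I3 : Finset ℕ} (h1 : ∀ m ∈ I1, 1 ≤ m) (h2 : ∀ m ∈ I2, 1 ≤ m) (h3 : ∀ m ∈ I3, 1 ≤ m)
    {p1 p2 p3 : ℝ → ℂ} (c1 : Continuous p1) (c2 : Continuous p2) (c3 : Continuous p3) :
    Integrable (fun q : ℝ × (ℝ × ℝ) => hh w N s1 s2 s3 I1 I2 I3 p1 p2 p3 q.1 q.2) := by
  simp only [hh_eq]
  refine integrable_finsetSum _ fun m1 k1 => integrable_finsetSum _ fun m2 k2 =>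
    integrable_finsetSum _ fun m3 k3 => ?_
  refine repb_int h s1 s2 s3 (repb_pos hN (h1 _ k1)) (repb_pos hN (h2 _ k2))
    (repb_pos hN (h3 _ k3)) _ ?_
  fun_prop

theorem repb_cont (t : ℤ) : Continuous fun θ : ℝ => ei (t * θ) :=
  continuous_ei.comp (continuous_const.mul continuous_id)

theorem repb_mul3 {α β γ : Type} (A : Finset α) (B : Finset β) (C : Finset γ) (f : α → ℂ)
    (g : β → ℂ) (k : γ → ℂ) :
    (∑ a ∈ A, f a) * (∑ b ∈ B, g b) * ∑ c ∈ C, k c =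
      ∑ a ∈ A, ∑ b ∈ B, ∑ c ∈ C, f a * g b * k c := by
  rw [sum_mul_sum, sum_mul]
  refine sum_congr rfl fun a _ => ?_
  rw [sum_mul]
  exact sum_congr rfl fun b _ => mul_sum _ _ _

theorem repb_comm3 {α β γ δ : Type} (A : Finset α) (B : Finset β) (C : Finset γ) (D : Finset δ)
    (f : α → β → γ → δ → ℂ) :
    ∑ a ∈ A, ∑ b ∈ B, ∑ c ∈ C, ∑ d ∈ D, f a b c d =
      ∑ d ∈ D, ∑ a ∈ A, ∑ b ∈ B, ∑ c ∈ C, f a b c d :=
  calc ∑ a ∈ A, ∑ b ∈ B, ∑ c ∈ C, ∑ d ∈ D, f a b c d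
      = ∑ a ∈ A, ∑ b ∈ B, ∑ d ∈ D, ∑ c ∈ C, f a b c d :=
        sum_congr rfl fun _ _ => sum_congr rfl fun _ _ => sum_comm
    _ = ∑ a ∈ A, ∑ d ∈ D, ∑ b ∈ B, ∑ c ∈ C, f a b c d := sum_congr rfl fun _ _ => sum_comm
    _ = _ := sum_comm

theorem repb_tp (w : ℝ → ℝ) (N : ℕ) (s1 s2 s3 : ℝ) (I1 I2 I3 : Finset ℕ) (U1 U2 U3 : Finset ℤ)
    (c1 c2 c3 : ℤ → ℂ) (r : ℝ) (p : ℝ × ℝ) :
    hh w N s1 s2 s3 I1 I2 I3 (tp U1 c1) (tp U2 c2) (tp U3 c3) r p =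
      ∑ t1 ∈ U1, ∑ t2 ∈ U2, ∑ t3 ∈ U3, c1 t1 * c2 t2 * c3 t3 *
        hh w N s1 s2 s3 I1 I2 I3 (fun θ => ei (t1 * θ)) (fun θ => ei (t2 * θ))
          (fun θ => ei (t3 * θ)) r p := by
  simp only [hh_eq, tp, repb_mul3]
  simp only [mul_sum]
  rw [repb_comm3]
  refine sum_congr rfl fun t1 _ => ?_
  rw [repb_comm3]
  refine sum_congr rfl fun t2 _ => ?_
  rw [repb_comm3]
  refine sum_congr rfl fun t3 _ => sum_congr rfl fun m1 _ => sum_congr rfl fun m2 _ =>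
    sum_congr rfl fun m3 _ => ?_
  ring

theorem repb_scale {N m : ℕ} (hm : 1 ≤ m) (w : ℝ → ℝ) (t s : ℝ) :
    (N : ℂ) * ff w t (s * m * N) =
      (m : ℂ)⁻¹ * ((((m : ℝ) * N : ℝ) : ℂ) * ff w t (s * (m * N))) := by
  have h : (m : ℂ) ≠ 0 := Nat.cast_ne_zero.2 (by omega)
  rw [mul_assoc s]
  push_cast
  rw [mul_assoc (m : ℂ), inv_mul_cancel_left₀ h]

theorem repb_blk {w : ℝ → ℝ} (h : Sm w) {N : ℕ} (hN : 1 ≤ N) (s1 s2 s3 : ℝ)
    {I1 I2 I3 : Finset ℕ} (h1 : ∀ m ∈ I1, 1 ≤ m) (h2 : ∀ m ∈ I2, 1 ≤ m) (h3 : ∀ m ∈ I3, 1 ≤ m)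
    (t1 t2 t3 : ℤ) :
    blk w N s1 I1 (t1 - t2) * blk w N s2 I2 (t2 - t3) * blk w N s3 I3 (t3 - t1) =
      ∫ q : ℝ × (ℝ × ℝ), hh w N s1 s2 s3 I1 I2 I3 (fun θ => ei (t1 * θ)) (fun θ => ei (t2 * θ))
        (fun θ => ei (t3 * θ)) q.1 q.2 := by
  have hi : ∀ m1 ∈ I1, ∀ m2 ∈ I2, ∀ m3 ∈ I3, Integrable (fun q : ℝ × (ℝ × ℝ) =>
      ((1 / (m1 * m2 * m3) : ℝ) : ℂ) * kw w s1 s2 s3 (m1 * N) (m2 * N) (m3 * N) q *
        (ei (t1 * (q.2.1 - Real.log m1 + Real.log m3)) *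
          ei (t2 * (q.2.2 - q.2.1 - Real.log m2 + Real.log m1)) *
          ei (t3 * (-q.2.2 - Real.log m3 + Real.log m2)))) := fun m1 k1 m2 k2 m3 k3 => by
    refine repb_int h s1 s2 s3 (repb_pos hN (h1 _ k1)) (repb_pos hN (h2 _ k2))
      (repb_pos hN (h3 _ k3)) _ ?_
    have := continuous_ei
    fun_prop
  simp only [hh_eq]
  unfold blk
  rw [repb_mul3, integral_finsetSum _ fun m1 k1 => integrable_finsetSum _ fun m2 k2 =>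
    integrable_finsetSum _ fun m3 k3 => hi m1 k1 m2 k2 m3 k3]
  refine sum_congr rfl fun m1 k1 => ?_
  rw [integral_finsetSum _ fun m2 k2 => integrable_finsetSum _ fun m3 k3 => hi m1 k1 m2 k2 m3 k3]
  refine sum_congr rfl fun m2 k2 => ?_
  rw [integral_finsetSum _ fun m3 k3 => hi m1 k1 m2 k2 m3 k3]
  refine sum_congr rfl fun m3 k3 => ?_
  have key := triple_id h s1 s2 s3 (repb_pos hN (h1 _ k1)) (repb_pos hN (h2 _ k2))
    (repb_pos hN (h3 _ k3)) t1 t2 t3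
  have hn : (N : ℝ) ≠ 0 := Nat.cast_ne_zero.2 (by omega)
  have l : ∀ m : ℕ, 1 ≤ m → Real.log ((m : ℝ) * N) = Real.log m + Real.log N := fun m hm =>
    Real.log_mul (Nat.cast_ne_zero.2 (by omega)) hn
  have e : ∀ x a b c : ℝ, x - (a + c) + (b + c) = x - a + b := fun x a b c => by ring
  simp only [l _ (h1 _ k1), l _ (h2 _ k2), l _ (h3 _ k3), e] at key
  simp only [mul_assoc ((1 / (m1 * m2 * m3) : ℝ) : ℂ)]
  rw [integral_const_mul, ← key, repb_scale (h1 _ k1), repb_scale (h2 _ k2), repb_scale (h3 _ k3)]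
  push_cast
  ring


/-- The representation. Use `triple_id` with `x i = m i * N` (so that
`N * ff w t (s * m * N) = (1 / m) * (x * ff w t (s * x))` and `log N` cancels), exchange finite
sums and the integral, then `integral_prod_symm`. -/
theorem rep_id {w : ℝ → ℝ} (h : Sm w) {N : ℕ} (hN : 1 ≤ N) (s1 s2 s3 : ℝ)
    {I1 I2 I3 : Finset ℕ} (h1 : ∀ m ∈ I1, 1 ≤ m) (h2 : ∀ m ∈ I2, 1 ≤ m) (h3 : ∀ m ∈ I3, 1 ≤ m)
    (U1 U2 U3 : Finset ℤ) (c1 c2 c3 : ℤ → ℂ) :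
    tri (blk w N s1 I1) (blk w N s2 I2) (blk w N s3 I3) U1 U2 U3 c1 c2 c3 =
      ∫ p : ℝ × ℝ, ∫ r : ℝ, hh w N s1 s2 s3 I1 I2 I3 (tp U1 c1) (tp U2 c2) (tp U3 c3) r p := by
  have hi : ∀ t1 t2 t3 : ℤ, Integrable (fun q : ℝ × (ℝ × ℝ) => c1 t1 * c2 t2 * c3 t3 *
      hh w N s1 s2 s3 I1 I2 I3 (fun θ => ei (t1 * θ)) (fun θ => ei (t2 * θ))
        (fun θ => ei (t3 * θ)) q.1 q.2) := fun t1 t2 t3 =>
    (hh_integrable h hN s1 s2 s3 h1 h2 h3 (repb_cont t1) (repb_cont t2) (repb_cont t3)).const_mul _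
  rw [← integral_prod_symm _ (hh_integrable h hN s1 s2 s3 h1 h2 h3 (continuous_tp U1 c1)
    (continuous_tp U2 c2) (continuous_tp U3 c3)), ← Measure.volume_eq_prod]
  simp only [repb_tp]
  unfold tri
  rw [integral_finsetSum _ fun t1 _ => integrable_finsetSum _ fun t2 _ =>
    integrable_finsetSum _ fun t3 _ => hi t1 t2 t3]
  refine sum_congr rfl fun t1 _ => ?_
  rw [integral_finsetSum _ fun t2 _ => integrable_finsetSum _ fun t3 _ => hi t1 t2 t3]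
  refine sum_congr rfl fun t2 _ => ?_
  rw [integral_finsetSum _ fun t3 _ => hi t1 t2 t3]
  refine sum_congr rfl fun t3 _ => ?_
  rw [integral_const_mul, repb_blk h hN s1 s2 s3 h1 h2 h3]

theorem repb_supp {w : ℝ → ℝ} (h : Sm w) {u : ℝ} (hu : w u ≠ 0) : 3 / 4 ≤ u ∧ u ≤ 9 / 4 :=
  ⟨not_lt.1 fun k => hu (h.supp u (Or.inl k)), not_lt.1 fun k => hu (h.supp u (Or.inr k))⟩

theorem repb_abs {M M' n x y r a : ℝ} (hM : 0 < M) (hM' : 0 < M') (hn : 0 < n)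
    (hx : M ≤ x ∧ x ≤ 2 * M) (hy : M' ≤ y ∧ y ≤ 2 * M')
    (h1 : 3 / 4 ≤ r * Real.exp a / (x * n) ∧ r * Real.exp a / (x * n) ≤ 9 / 4)
    (h2 : 3 / 4 ≤ r / (y * n) ∧ r / (y * n) ≤ 9 / 4) : |a - Real.log (M / M')| ≤ 2 := by
  have px : 0 < x * n := mul_pos (hM.trans_le hx.1) hn
  have py : 0 < y * n := mul_pos (hM'.trans_le hy.1) hn
  rw [le_div_iff₀ px, div_le_iff₀ px] at h1
  rw [le_div_iff₀ py, div_le_iff₀ py] at h2
  have pE := Real.exp_pos a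
  have x1 := mul_le_mul_of_nonneg_right hx.1 hn.le
  have x2 := mul_le_mul_of_nonneg_right hx.2 hn.le
  have y1 := mul_le_mul_of_nonneg_right hy.1 hn.le
  have y2 := mul_le_mul_of_nonneg_right hy.2 hn.le
  have r1 := mul_le_mul_of_nonneg_right (show 3 / 4 * (M' * n) ≤ r by linarith [h2.1]) pE.le
  have r2 := mul_le_mul_of_nonneg_right (show r ≤ 9 / 2 * (M' * n) by linarith [h2.2]) pE.le
  have u1 : M' * Real.exp a ≤ 6 * M :=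
    le_of_mul_le_mul_right (a := n) (by linarith [h1.2]) hn
  have u2 : M ≤ 6 * (M' * Real.exp a) :=
    le_of_mul_le_mul_right (a := n) (by linarith [h1.1]) hn
  have e2 : (6 : ℝ) ≤ Real.exp 2 := by
    have h3 := Real.exp_one_gt_d9
    rw [show (2 : ℝ) = 1 + 1 by norm_num, Real.exp_add]
    nlinarith
  have pq : 0 < M / M' := div_pos hM hM'
  rw [abs_le]
  constructor
  · have h4 : Real.log (M / M') ≤ 2 + a := by
      rw [Real.log_le_iff_le_exp pq, Real.exp_add, div_le_iff₀ hM']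
      have := mul_le_mul_of_nonneg_right e2 (mul_pos hM' pE).le
      linarith
    linarith
  · have h4 : a - 2 ≤ Real.log (M / M') := by
      rw [Real.le_log_iff_exp_le pq, Real.exp_sub, div_le_div_iff₀ (Real.exp_pos 2) hM']
      have := mul_le_mul_of_nonneg_right e2 hM.le
      linarith
    linarith


/-- Outside the box the integrand vanishes: on the support `exp a * m3 / m1 ∈ [1/3, 3]`, so
`exp a * M3 / M1 ∈ [1/6, 6]`, and `log 6 ≤ 2`. -/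
theorem hh_box {w : ℝ → ℝ} (h : Sm w) {N : ℕ} (hN : 1 ≤ N) (s1 s2 s3 : ℝ) {M1 M2 M3 : ℝ}
    (m1 : 0 < M1) (m2 : 0 < M2) (m3 : 0 < M3) {I1 I2 I3 : Finset ℕ} (h1 : InI I1 M1 2)
    (h2 : InI I2 M2 2) (h3 : InI I3 M3 2) (p1 p2 p3 : ℝ → ℂ) (r : ℝ) {p : ℝ × ℝ}
    (hp : p ∉ box M1 M2 M3) : hh w N s1 s2 s3 I1 I2 I3 p1 p2 p3 r p = 0 := by
  rw [hh_eq]
  refine sum_eq_zero fun k1 hk1 => sum_eq_zero fun k2 hk2 => sum_eq_zero fun k3 hk3 => ?_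
  by_contra hne
  have h4 := right_ne_zero_of_mul (right_ne_zero_of_mul (left_ne_zero_of_mul hne))
  rw [Complex.ofReal_ne_zero] at h4
  have hn : (0 : ℝ) < N := by exact_mod_cast hN
  have w3 := repb_supp h (right_ne_zero_of_mul h4)
  exact hp ⟨repb_abs m1 m3 hn (h1 _ hk1) (h3 _ hk3)
      (repb_supp h (left_ne_zero_of_mul (left_ne_zero_of_mul h4))) w3,
    repb_abs m2 m3 hn (h2 _ hk2) (h3 _ hk3)
      (repb_supp h (right_ne_zero_of_mul (left_ne_zero_of_mul h4))) w3⟩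

end Pool.Agent.Lib.MP_ecd12e_nt.Sch
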