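import Pool.Agent.Lib.MP_ecd12e_nt.Sch.RepB

set_option autoImplicit false

namespace Pool.Agent.Lib.MP_ecd12e_nt.Sch

open Finset Real MeasureTheory
open Pool.Agent.Lib.MP_ecd12e_nt.Bar (ei)

lemma repc_exp4 : Real.exp 4 ≤ 100 := by
  have h1 : Real.exp 4 = Real.exp 1 ^ 4 := by
    rw [← Real.exp_nat_mul]
    norm_num
  have h2 := Real.exp_one_lt_d9
  have h3 := Real.exp_pos 1
  rw [h1]
  calc Real.exp 1 ^ 4 ≤ 3 ^ 4 := pow_le_pow_left₀ h3.le (by linarith) 4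
    _ ≤ 100 := by norm_num

lemma repc_box {M1 M2 M3 : ℝ} (m1 : 0 < M1) (m2 : 0 < M2) (m3 : 0 < M3) {p : ℝ × ℝ}
    (hp : p ∈ box M1 M2 M3) : Real.exp (p.1 + p.2) ≤ 100 * (M1 * M2 / M3 ^ 2) := by
  have h1 := (abs_le.1 hp.1).2
  have h2 := (abs_le.1 hp.2).2
  have h3 : Real.exp (p.1 + p.2) ≤ Real.exp (4 + (Real.log (M1 / M3) + Real.log (M2 / M3))) :=
    Real.exp_le_exp.2 (by linarith)
  rw [Real.exp_add 4, Real.exp_add (Real.log _), Real.exp_log (by positivity),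
    Real.exp_log (by positivity)] at h3
  have e : M1 / M3 * (M2 / M3) = M1 * M2 / M3 ^ 2 := by field_simp
  rw [e] at h3
  exact h3.trans (mul_le_mul_of_nonneg_right repc_exp4 (by positivity))

lemma repc_scale (I1 I2 I3 : Finset ℕ) (p1 p2 p3 : ℝ → ℂ) (d1 d2 d3 : ℕ → ℂ) (a b c : ℂ)
    (p : ℝ × ℝ) :
    dsum I1 I2 I3 p1 p2 p3 (fun m => a * d1 m) (fun m => b * d2 m) (fun m => c * d3 m) p =
      a * b * c * dsum I1 I2 I3 p1 p2 p3 d1 d2 d3 p := by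
  unfold dsum
  simp only [mul_sum]
  refine sum_congr rfl fun m1 _ => sum_congr rfl fun m2 _ => sum_congr rfl fun m3 _ => ?_
  ring

lemma repc_wt {w : ℝ → ℝ} (h : Wt w) {M : ℝ} (hM : 0 < M) {I : Finset ℕ} (hI : InI I M 2)
    (u : ℕ → ℝ) : ∀ m ∈ I, ‖(M : ℂ) * ((w (u m) / m : ℝ) : ℂ)‖ ≤ 1 := by
  intro m hm
  have h1 := (hI m hm).1
  have h2 : (0 : ℝ) < m := hM.trans_le h1
  have h3 := h.nonneg (u m)
  have h4 := h.le_one (u m)
  rw [norm_mul, Complex.norm_real, Complex.norm_real, Real.norm_of_nonneg hM.le,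
    Real.norm_of_nonneg (by positivity), ← mul_div_assoc, div_le_one h2]
  nlinarith

lemma repc_G_nonneg {I1 I2 I3 : Finset ℕ} {p1 p2 p3 : ℝ → ℂ} {p : ℝ × ℝ}
    {G : ℝ} (hG : ∀ d1 d2 d3 : ℕ → ℂ, (∀ m ∈ I1, ‖d1 m‖ ≤ 1) → (∀ m ∈ I2, ‖d2 m‖ ≤ 1) →
      (∀ m ∈ I3, ‖d3 m‖ ≤ 1) → ‖dsum I1 I2 I3 p1 p2 p3 d1 d2 d3 p‖ ≤ G) : 0 ≤ G :=
  (norm_nonneg _).trans (hG 0 0 0 (by simp) (by simp) (by simp))

lemma repc_kw_int {w : ℝ → ℝ} (h : Sm w) (s1 s2 s3 x1 x2 : ℝ) {x3 : ℝ} (h3 : 0 < x3)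
    (p : ℝ × ℝ) : Integrable fun r : ℝ => kw w s1 s2 s3 x1 x2 x3 (r, p) := by
  refine Continuous.integrable_of_hasCompactSupport
    ((kw_cont h s1 s2 s3 x1 x2 x3).comp (Continuous.prodMk_left p)) ?_
  refine HasCompactSupport.intro (K := Set.Icc 0 (3 * x3)) isCompact_Icc fun r hr => ?_
  have : w (r / x3) = 0 := by
    refine h.supp _ ?_
    rw [Set.mem_Icc, not_and_or, not_le, not_le] at hr
    rcases hr with hr | hr
    · left
      have := div_neg_of_neg_of_pos hr h3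
      linarith
    · right
      rw [lt_div_iff₀ h3]
      linarith
  simp [kw, this]

lemma repc_kw_eq (w : ℝ → ℝ) (s1 s2 s3 x1 x2 : ℝ) {x3 : ℝ} (h3 : 0 < x3) (p : ℝ × ℝ) :
    ∫ r : ℝ, kw w s1 s2 s3 x1 x2 x3 (r, p) = ((x3 ^ 3 * Real.exp (p.1 + p.2) : ℝ) : ℂ) *
      ∫ ρ : ℝ, ((ρ * (ρ * w ρ) * w (x3 * Real.exp p.1 / x1 * ρ) *
        w (x3 * Real.exp p.2 / x2 * ρ) : ℝ) : ℂ) * ei (-(2 * π * ρ * (x3 * lin s1 s2 s3 p))) := by
  have h1 := Measure.integral_comp_mul_left (fun r : ℝ => kw w s1 s2 s3 x1 x2 x3 (r, p)) x3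
  have h2 : ∀ ρ : ℝ, kw w s1 s2 s3 x1 x2 x3 (x3 * ρ, p) =
      ((x3 ^ 2 * Real.exp (p.1 + p.2) : ℝ) : ℂ) * (((ρ * (ρ * w ρ) *
        w (x3 * Real.exp p.1 / x1 * ρ) * w (x3 * Real.exp p.2 / x2 * ρ) : ℝ) : ℂ) *
          ei (-(2 * π * ρ * (x3 * lin s1 s2 s3 p)))) := by
    intro ρ
    have e1 : x3 * ρ * Real.exp p.1 / x1 = x3 * Real.exp p.1 / x1 * ρ := by ring
    have e2 : x3 * ρ * Real.exp p.2 / x2 = x3 * Real.exp p.2 / x2 * ρ := by ring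
    have e3 : x3 * ρ / x3 = ρ := by field_simp
    have e4 : 2 * π * (x3 * ρ) * lin s1 s2 s3 p = 2 * π * ρ * (x3 * lin s1 s2 s3 p) := by ring
    simp only [kw, e1, e2, e3, e4]
    push_cast
    ring
  simp only [h2] at h1
  rw [integral_const_mul, abs_of_pos (inv_pos.2 h3), Complex.real_smul] at h1
  have h4 : (x3 : ℂ) ≠ 0 := by exact_mod_cast h3.ne'
  have h5 : ∫ r : ℝ, kw w s1 s2 s3 x1 x2 x3 (r, p) =
      (x3 : ℂ) * (((x3⁻¹ : ℝ) : ℂ) * ∫ r : ℝ, kw w s1 s2 s3 x1 x2 x3 (r, p)) := by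
    push_cast
    field_simp
  rw [h5, ← h1]
  push_cast
  ring

lemma repc_box_eq (M1 M2 M3 : ℝ) : box M1 M2 M3 =
    Set.Icc (Real.log (M1 / M3) - 2) (Real.log (M1 / M3) + 2) ×ˢ
      Set.Icc (Real.log (M2 / M3) - 2) (Real.log (M2 / M3) + 2) := by
  ext p
  simp only [box, Set.mem_ofPred_eq, Set.mem_prod, Set.mem_Icc, abs_le]
  constructor
  · rintro ⟨⟨a, b⟩, c, d⟩
    exact ⟨⟨by linarith, by linarith⟩, by linarith, by linarith⟩
  · rintro ⟨⟨a, b⟩, c, d⟩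
    exact ⟨⟨by linarith, by linarith⟩, by linarith, by linarith⟩

lemma repc_one_le {I : Finset ℕ} {M : ℝ} (hM : 0 < M) (hI : InI I M 2) : ∀ m ∈ I, 1 ≤ m := by
  intro m hm
  have : (0 : ℝ) < m := hM.trans_le (hI m hm).1
  exact_mod_cast this

/-- Near the line. The integrand vanishes unless `0 ≤ r ≤ 9/2 M3 N`; in the box
`exp (a + b) ≤ e ^ 4 M1 M2 / M3 ^ 2`; the weights are `d i m / M i` with
`d i m = M i * w (..) / m` of norm at most one. So the integrand is at most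
`(9/2 M3 N) ^ 2 e ^ 4 / M3 ^ 3 * G`, and `(9/2) ^ 3 e ^ 4 ≤ 10000`. -/
theorem near_le {w : ℝ → ℝ} (h : Wt w) {N : ℕ} (hN : 1 ≤ N) (s1 s2 s3 : ℝ) {M1 M2 M3 : ℝ}
    (m1 : 0 < M1) (m2 : 0 < M2) (m3 : 0 < M3) {I1 I2 I3 : Finset ℕ} (h1 : InI I1 M1 2)
    (h2 : InI I2 M2 2) (h3 : InI I3 M3 2) (p1 p2 p3 : ℝ → ℂ) {p : ℝ × ℝ} (hp : p ∈ box M1 M2 M3)
    {G : ℝ} (hG : ∀ d1 d2 d3 : ℕ → ℂ, (∀ m ∈ I1, ‖d1 m‖ ≤ 1) → (∀ m ∈ I2, ‖d2 m‖ ≤ 1) →
      (∀ m ∈ I3, ‖d3 m‖ ≤ 1) → ‖dsum I1 I2 I3 p1 p2 p3 d1 d2 d3 p‖ ≤ G) :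
    ‖∫ r : ℝ, hh w N s1 s2 s3 I1 I2 I3 p1 p2 p3 r p‖ ≤ 10000 * (N : ℝ) ^ 3 * G := by
  have hG0 := repc_G_nonneg hG
  have hN' : (1 : ℝ) ≤ N := by exact_mod_cast hN
  have hR : 0 ≤ 9 / 2 * M3 * N := by positivity
  have hz : ∀ r, r ∉ Set.Icc 0 (9 / 2 * M3 * N) → hh w N s1 s2 s3 I1 I2 I3 p1 p2 p3 r p = 0 := by
    intro r hr
    have : ∀ m ∈ I3, w (r / (m * N)) = 0 := by
      intro m hm
      have a1 := (h3 m hm).2
      have a2 : (0 : ℝ) < m := m3.trans_le (h3 m hm).1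
      have a3 : (0 : ℝ) < m * N := by positivity
      refine h.supp _ ?_
      rw [Set.mem_Icc, not_and_or, not_le, not_le] at hr
      rcases hr with hr | hr
      · left
        have := div_neg_of_neg_of_pos hr a3
        linarith
      · right
        rw [lt_div_iff₀ a3]
        nlinarith
    unfold hh dsum
    refine mul_eq_zero_of_right _ (sum_eq_zero fun _ _ => sum_eq_zero fun _ _ =>
      sum_eq_zero fun m hm => ?_)
    simp [this m hm]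
  have hb : ∀ r ∈ Set.Icc 0 (9 / 2 * M3 * N), ‖hh w N s1 s2 s3 I1 I2 I3 p1 p2 p3 r p‖ ≤
      (9 / 2 * M3 * N) ^ 2 * 100 * G / M3 ^ 3 := by
    intro r hr
    have a1 := hG _ _ _ (repc_wt h m1 h1 fun m => r * Real.exp p.1 / (m * N))
      (repc_wt h m2 h2 fun m => r * Real.exp p.2 / (m * N)) (repc_wt h m3 h3 fun m => r / (m * N))
    rw [repc_scale, norm_mul, norm_mul, norm_mul, Complex.norm_real, Complex.norm_real,
      Complex.norm_real, Real.norm_of_nonneg m1.le, Real.norm_of_nonneg m2.le,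
      Real.norm_of_nonneg m3.le, ← le_div_iff₀' (by positivity)] at a1
    unfold hh
    rw [norm_mul, norm_mul, Bar.norm_ei, mul_one, Complex.norm_real,
      Real.norm_of_nonneg (by positivity)]
    have a2 : r ^ 2 ≤ (9 / 2 * M3 * N) ^ 2 := pow_le_pow_left₀ hr.1 hr.2 2
    have a3 := mul_le_mul a2 (repc_box m1 m2 m3 hp) (Real.exp_pos _).le (by positivity)
    refine (mul_le_mul a3 a1 (norm_nonneg _) (by positivity)).trans (le_of_eq ?_)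
    field_simp
  rw [← setIntegral_eq_integral_of_forall_compl_eq_zero hz]
  refine (norm_setIntegral_le_of_norm_le_const (by simp) hb).trans ?_
  rw [Real.volume_real_Icc_of_le hR, sub_zero]
  have e : (9 / 2 * M3 * N) ^ 2 * 100 * G / M3 ^ 3 * (9 / 2 * M3 * N) =
      9112.5 * ((N : ℝ) ^ 3 * G) := by
    field_simp
    ring
  rw [e]
  have : 0 ≤ (N : ℝ) ^ 3 * G := by positivity
  linarith

/-- Far from the line. By `hh_eq` the integral is a sum over `(m1, m2, m3)`; substitute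
`r = m3 N ρ` and apply `radial j` to `(ρ ^ 2 w ρ, w, w)` (`Sm.mul_id` twice) with
`x = m3 N * lin`. Each term is at most
`exp (a + b) (m3 N) ^ 3 / (m1 m2 m3) * C / (δ M3 N) ^ j * B1 B2 B3`, where
`exp (a + b) m3 ^ 2 / (m1 m2) ≤ 4 e ^ 4` in the box, and there are at most `8 M1 M2 M3` terms. -/
theorem far_le {w : ℝ → ℝ} (h : Wt w) (j : ℕ) :
    ∃ C : ℝ, 0 ≤ C ∧ ∀ (N : ℕ) (s1 s2 s3 M1 M2 M3 δ B1 B2 B3 : ℝ) (I1 I2 I3 : Finset ℕ)
      (p1 p2 p3 : ℝ → ℂ) (p : ℝ × ℝ), 1 ≤ N → 0 < M1 → 0 < M2 → 0 < M3 → 0 < δ →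
      InI I1 M1 2 → InI I2 M2 2 → InI I3 M3 2 →
      (∀ θ, ‖p1 θ‖ ≤ B1) → (∀ θ, ‖p2 θ‖ ≤ B2) → (∀ θ, ‖p3 θ‖ ≤ B3) →
      p ∈ box M1 M2 M3 → δ ≤ |lin s1 s2 s3 p| →
      ‖∫ r : ℝ, hh w N s1 s2 s3 I1 I2 I3 p1 p2 p3 r p‖ ≤
        C * (N : ℝ) ^ 3 * (M1 * M2 * M3 * (B1 * B2 * B3) / (δ * M3 * N) ^ j) := by
  obtain ⟨C, hC, hrad⟩ := radial j h.toSm.mul_id.mul_id h.toSm h.toSm
  refine ⟨3200 * C, by positivity, ?_⟩
  intro N s1 s2 s3 M1 M2 M3 δ B1 B2 B3 I1 I2 I3 p1 p2 p3 p hN m1 m2 m3 hδ h1 h2 h3 b1 b2 b3 hp hl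
  have hN' : (0 : ℝ) < N := by exact_mod_cast hN
  have c1 : 0 ≤ B1 := (norm_nonneg _).trans (b1 0)
  have c2 : 0 ≤ B2 := (norm_nonneg _).trans (b2 0)
  have c3 : 0 ≤ B3 := (norm_nonneg _).trans (b3 0)
  have hint : ∀ (a b : ℕ), ∀ c ∈ I3, ∀ z z' : ℂ, Integrable fun r : ℝ =>
      z * kw w s1 s2 s3 (a * N) (b * N) (c * N) (r, p) * z' := by
    intro a b c hc z z'
    have : (0 : ℝ) < c := m3.trans_le (h3 c hc).1
    exact ((repc_kw_int h.toSm s1 s2 s3 _ _ (by positivity) p).const_mul z).mul_const z'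
  have hterm : ∀ a ∈ I1, ∀ b ∈ I2, ∀ c ∈ I3, ‖∫ r : ℝ, ((1 / (a * b * c) : ℝ) : ℂ) *
      kw w s1 s2 s3 (a * N) (b * N) (c * N) (r, p) *
      (p1 (p.1 - Real.log a + Real.log c) * p2 (p.2 - p.1 - Real.log b + Real.log a) *
        p3 (-p.2 - Real.log c + Real.log b))‖ ≤
      400 * C * (N : ℝ) ^ 3 * (B1 * B2 * B3 / (δ * M3 * N) ^ j) := by
    intro a ha b hb c hc
    have a0 : (0 : ℝ) < a := m1.trans_le (h1 a ha).1
    have b0 : (0 : ℝ) < b := m2.trans_le (h2 b hb).1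
    have c0 : (0 : ℝ) < c := m3.trans_le (h3 c hc).1
    have hx : (0 : ℝ) < c * N := by positivity
    rw [integral_mul_const, integral_const_mul, repc_kw_eq w s1 s2 s3 _ _ hx, norm_mul, norm_mul,
      norm_mul, norm_mul, norm_mul, Complex.norm_real, Complex.norm_real,
      Real.norm_of_nonneg (by positivity), Real.norm_of_nonneg (by positivity)]
    have r1 := hrad (c * N * Real.exp p.1 / (a * N)) (c * N * Real.exp p.2 / (b * N))
      (c * N * lin s1 s2 s3 p)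
    have r2 : (δ * M3 * N) ^ j ≤ |c * N * lin s1 s2 s3 p| ^ j := by
      refine pow_le_pow_left₀ (by positivity) ?_ j
      rw [abs_mul, abs_of_pos hx]
      calc δ * M3 * N = M3 * N * δ := by ring
        _ ≤ _ := mul_le_mul (mul_le_mul_of_nonneg_right (h3 c hc).1 hN'.le) hl hδ.le hx.le
    have r3 := (mul_le_mul_of_nonneg_right r2 (norm_nonneg _)).trans r1
    rw [← le_div_iff₀' (by positivity)] at r3
    have r4 := mul_le_mul (mul_le_mul (b1 (p.1 - Real.log a + Real.log c))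
      (b2 (p.2 - p.1 - Real.log b + Real.log a)) (norm_nonneg _) c1)
      (b3 (-p.2 - Real.log c + Real.log b)) (norm_nonneg _) (by positivity)
    have r5 : 1 / ((a : ℝ) * b * c) * ((c * N) ^ 3 * Real.exp (p.1 + p.2)) ≤ 400 * (N : ℝ) ^ 3 := by
      have q1 : (c : ℝ) ^ 2 ≤ (2 * M3) ^ 2 := pow_le_pow_left₀ c0.le (h3 c hc).2 2
      have q2 : M1 * M2 ≤ a * b := mul_le_mul (h1 a ha).1 (h2 b hb).1 m2.le a0.le
      have q3 := mul_le_mul q1 (repc_box m1 m2 m3 hp) (Real.exp_pos _).le (by positivity)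
      have q4 : (2 * M3) ^ 2 * (100 * (M1 * M2 / M3 ^ 2)) = 400 * (M1 * M2) := by
        field_simp
        ring
      have q5 : 1 / ((a : ℝ) * b * c) * ((c * N) ^ 3 * Real.exp (p.1 + p.2)) =
          (c : ℝ) ^ 2 * Real.exp (p.1 + p.2) / (a * b) * (N : ℝ) ^ 3 := by
        field_simp
      rw [q5]
      refine mul_le_mul_of_nonneg_right ?_ (by positivity)
      rw [div_le_iff₀ (by positivity)]
      linarith
    rw [← mul_assoc (1 / ((a : ℝ) * b * c))]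
    refine (mul_le_mul (mul_le_mul r5 r3 (norm_nonneg _) (by positivity)) r4 (by positivity)
      (by positivity)).trans (le_of_eq ?_)
    ring
  simp only [hh_eq]
  rw [integral_finsetSum _ fun a _ => integrable_finsetSum _ fun b _ =>
    integrable_finsetSum _ fun c hc => hint a b c hc _ _]
  have k1 := h1.card_le m1 (by norm_num)
  have k2 := h2.card_le m2 (by norm_num)
  have k3 := h3.card_le m3 (by norm_num)
  have k0 : 0 ≤ 400 * C * (N : ℝ) ^ 3 * (B1 * B2 * B3 / (δ * M3 * N) ^ j) := by positivity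
  calc _ ≤ ∑ a ∈ I1, ∑ b ∈ I2, ∑ c ∈ I3,
        400 * C * (N : ℝ) ^ 3 * (B1 * B2 * B3 / (δ * M3 * N) ^ j) := by
        refine (norm_sum_le _ _).trans (sum_le_sum fun a ha => ?_)
        rw [integral_finsetSum _ fun b _ => integrable_finsetSum _ fun c hc => hint a b c hc _ _]
        refine (norm_sum_le _ _).trans (sum_le_sum fun b hb => ?_)
        rw [integral_finsetSum _ fun c hc => hint a b c hc _ _]
        exact (norm_sum_le _ _).trans (sum_le_sum fun c hc => hterm a ha b hb c hc)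
    _ = (I1.card : ℝ) * I2.card * I3.card *
        (400 * C * (N : ℝ) ^ 3 * (B1 * B2 * B3 / (δ * M3 * N) ^ j)) := by
        simp only [sum_const, nsmul_eq_mul]
        ring
    _ ≤ 2 * M1 * (2 * M2) * (2 * M3) *
        (400 * C * (N : ℝ) ^ 3 * (B1 * B2 * B3 / (δ * M3 * N) ^ j)) := by
        gcongr
    _ = _ := by ring

theorem measurableSet_reg (s1 s2 s3 δ M1 M2 M3 : ℝ) : MeasurableSet (reg s1 s2 s3 δ M1 M2 M3) := by
  refine MeasurableSet.inter (IsClosed.measurableSet (isClosed_le ?_ continuous_const)) ?_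
  · unfold lin
    fun_prop
  · rw [repc_box_eq]
    exact measurableSet_Icc.prod measurableSet_Icc

theorem isCompact_box (M1 M2 M3 : ℝ) : IsCompact (box M1 M2 M3) := by
  rw [repc_box_eq]
  exact isCompact_Icc.prod isCompact_Icc

theorem volume_box (M1 M2 M3 : ℝ) : volume.real (box M1 M2 M3) = 16 := by
  rw [repc_box_eq, Measure.volume_eq_prod, measureReal_prod_prod,
    Real.volume_real_Icc_of_le (by linarith), Real.volume_real_Icc_of_le (by linarith)]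
  ring

/-- The main bound. By `rep_id` the trace is the integral of `F p = ∫ r, hh r p`, and
`‖F p‖ ≤ indicator reg (10000 N ^ 3 G) p + indicator box (far bound) p`
(`near_le`, `far_le`, `hh_box`, `norm_tp_le`); `norm_integral_le_of_norm_le`. -/
theorem rep_main {w : ℝ → ℝ} (h : Wt w) (j : ℕ) :
    ∃ C : ℝ, 0 ≤ C ∧ ∀ (N : ℕ) (s1 s2 s3 M1 M2 M3 δ : ℝ) (I1 I2 I3 : Finset ℕ)
      (U1 U2 U3 : Finset ℤ) (c1 c2 c3 : ℤ → ℂ) (G : ℝ × ℝ → ℝ),
      1 ≤ N → 0 < M1 → 0 < M2 → 0 < M3 → 0 < δ →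
      InI I1 M1 2 → InI I2 M2 2 → InI I3 M3 2 → Continuous G →
      (∀ (p : ℝ × ℝ) (d1 d2 d3 : ℕ → ℂ), (∀ m ∈ I1, ‖d1 m‖ ≤ 1) → (∀ m ∈ I2, ‖d2 m‖ ≤ 1) →
        (∀ m ∈ I3, ‖d3 m‖ ≤ 1) →
        ‖dsum I1 I2 I3 (tp U1 c1) (tp U2 c2) (tp U3 c3) d1 d2 d3 p‖ ≤ G p) →
      ‖tri (blk w N s1 I1) (blk w N s2 I2) (blk w N s3 I3) U1 U2 U3 c1 c2 c3‖ ≤
        C * (N : ℝ) ^ 3 * ((∫ p in reg s1 s2 s3 δ M1 M2 M3, G p) +
          M1 * M2 * M3 * ((∑ t ∈ U1, ‖c1 t‖) * (∑ t ∈ U2, ‖c2 t‖) * ∑ t ∈ U3, ‖c3 t‖) /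
            (δ * M3 * N) ^ j) := by
  obtain ⟨C, hC, hfar⟩ := far_le h j
  refine ⟨10000 + 16 * C, by positivity, ?_⟩
  intro N s1 s2 s3 M1 M2 M3 δ I1 I2 I3 U1 U2 U3 c1 c2 c3 G hN m1 m2 m3 hδ h1 h2 h3 hGc hG
  have hG0 : ∀ p, 0 ≤ G p := fun p => repc_G_nonneg (hG p)
  rw [rep_id h.toSm hN s1 s2 s3 (repc_one_le m1 h1) (repc_one_le m2 h2) (repc_one_le m3 h3)]
  obtain ⟨F, hF⟩ : ∃ F : ℝ, F = M1 * M2 * M3 *
    ((∑ t ∈ U1, ‖c1 t‖) * (∑ t ∈ U2, ‖c2 t‖) * ∑ t ∈ U3, ‖c3 t‖) / (δ * M3 * N) ^ j := ⟨_, rfl⟩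
  have hF0 : 0 ≤ F := by
    rw [hF]
    positivity
  rw [← hF]
  have hK := isCompact_box M1 M2 M3
  have hreg := measurableSet_reg s1 s2 s3 δ M1 M2 M3
  have i0 : IntegrableOn G (reg s1 s2 s3 δ M1 M2 M3) :=
    (hGc.continuousOn.integrableOn_compact hK).mono_set Set.inter_subset_right
  have i1 : Integrable ((reg s1 s2 s3 δ M1 M2 M3).indicator fun p => 10000 * (N : ℝ) ^ 3 * G p) :=
    IntegrableOn.integrable_indicator (i0.const_mul _) hreg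
  have i2 : Integrable ((box M1 M2 M3).indicator fun _ : ℝ × ℝ => C * (N : ℝ) ^ 3 * F) :=
    IntegrableOn.integrable_indicator (continuous_const.continuousOn.integrableOn_compact hK)
      hK.measurableSet
  have k0 : 0 ≤ C * (N : ℝ) ^ 3 * F := by positivity
  refine (norm_integral_le_of_norm_le (i1.add i2) (ae_of_all _ fun p => ?_)).trans ?_
  · rw [Pi.add_apply]
    by_cases hp : p ∈ box M1 M2 M3
    · rw [Set.indicator_of_mem hp]
      by_cases hl : |lin s1 s2 s3 p| ≤ δ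
      · rw [Set.indicator_of_mem (show p ∈ reg s1 s2 s3 δ M1 M2 M3 from ⟨hl, hp⟩)]
        have := near_le h hN s1 s2 s3 m1 m2 m3 h1 h2 h3 _ _ _ hp (hG p)
        linarith
      · rw [Set.indicator_of_notMem (show p ∉ reg s1 s2 s3 δ M1 M2 M3 from fun q => hl q.1),
          zero_add, hF]
        exact hfar N s1 s2 s3 M1 M2 M3 δ _ _ _ I1 I2 I3 _ _ _ p hN m1 m2 m3 hδ h1 h2 h3
          (norm_tp_le U1 c1) (norm_tp_le U2 c2) (norm_tp_le U3 c3) hp (not_le.1 hl).le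
    · rw [Set.indicator_of_notMem hp,
        Set.indicator_of_notMem (show p ∉ reg s1 s2 s3 δ M1 M2 M3 from fun q => hp q.2)]
      simp only [hh_box h.toSm hN s1 s2 s3 m1 m2 m3 h1 h2 h3 _ _ _ _ hp, integral_zero, norm_zero,
        add_zero, le_refl]
  · rw [integral_add' i1 i2, integral_indicator hreg, integral_indicator hK.measurableSet,
      integral_const_mul, setIntegral_const, volume_box, smul_eq_mul]
    have k1 : 0 ≤ ∫ p in reg s1 s2 s3 δ M1 M2 M3, G p := integral_nonneg hG0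
    have k2 : 0 ≤ (N : ℝ) ^ 3 * F := by positivity
    have k3 : 0 ≤ C * ((N : ℝ) ^ 3 * ∫ p in reg s1 s2 s3 δ M1 M2 M3, G p) := by positivity
    nlinarith

end Pool.Agent.Lib.MP_ecd12e_nt.Sch
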