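import Pool.Agent.Lib.MP_ecd12e_nt.Sch.Defs

set_option autoImplicit false

namespace Pool.Agent.Lib.MP_ecd12e_nt.Sch

open Finset Real MeasureTheory
open Pool.Agent.Lib.MP_ecd12e_nt.Bar (ei)

/-- Duality and the Schur test. -/
lemma sieve_dual {ι : Type*} (A : Finset ι) (K : Finset ℤ) (e : ι → ℤ → ℂ) (γ : ℤ → ℂ)
    (D : ι → ι → ℝ) (R : ℝ) (hR : 0 ≤ R) (hsym : ∀ a a', D a a' = D a' a)
    (hD : ∀ a ∈ A, ∀ a' ∈ A, ‖∑ k ∈ K, e a k * (starRingEnd ℂ) (e a' k)‖ ≤ D a a')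
    (hrow : ∀ a ∈ A, ∑ a' ∈ A, D a a' ≤ R) :
    ∑ a ∈ A, ‖∑ k ∈ K, γ k * e a k‖ ^ 2 ≤ R * ∑ k ∈ K, ‖γ k‖ ^ 2 := by
  set G : ι → ℂ := fun a => ∑ k ∈ K, γ k * e a k with hG
  set H : ℤ → ℂ := fun k => ∑ a ∈ A, (starRingEnd ℂ) (G a) * e a k with hH
  set S : ℝ := ∑ a ∈ A, ‖G a‖ ^ 2 with hS
  set C : ℝ := ∑ k ∈ K, ‖γ k‖ ^ 2 with hC
  have hS0 : 0 ≤ S := sum_nonneg fun _ _ => sq_nonneg _
  have hC0 : 0 ≤ C := sum_nonneg fun _ _ => sq_nonneg _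
  have h1 : (S : ℂ) = ∑ k ∈ K, γ k * H k := by
    simp only [hH, mul_sum]
    rw [sum_comm, hS]
    push_cast
    refine sum_congr rfl fun a _ => ?_
    rw [← Complex.conj_mul', hG]
    simp only []
    rw [mul_sum]
    refine sum_congr rfl fun k _ => ?_
    ring
  have h2 : S ≤ ∑ k ∈ K, ‖γ k‖ * ‖H k‖ := by
    have : S = ‖(S : ℂ)‖ := by rw [Complex.norm_real, Real.norm_eq_abs, abs_of_nonneg hS0]
    rw [this, h1]
    refine (norm_sum_le _ _).trans (le_of_eq ?_)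
    simp only [norm_mul]
  have h3 : (∑ k ∈ K, ‖γ k‖ * ‖H k‖) ^ 2 ≤ C * ∑ k ∈ K, ‖H k‖ ^ 2 :=
    sum_mul_sq_le_sq_mul_sq _ _ _
  have h4 : ((∑ k ∈ K, ‖H k‖ ^ 2 : ℝ) : ℂ) = ∑ a ∈ A, ∑ a' ∈ A,
      (starRingEnd ℂ) (G a) * G a' * ∑ k ∈ K, e a k * (starRingEnd ℂ) (e a' k) := by
    push_cast
    have : ∀ k ∈ K, ((‖H k‖ : ℂ)) ^ 2 = ∑ a ∈ A, ∑ a' ∈ A,
        (starRingEnd ℂ) (G a) * G a' * (e a k * (starRingEnd ℂ) (e a' k)) := by
      intro k _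
      rw [← Complex.mul_conj', hH]
      simp only [map_sum, map_mul, Complex.conj_conj]
      rw [sum_mul_sum]
      refine sum_congr rfl fun a _ => sum_congr rfl fun a' _ => ?_
      ring
    rw [sum_congr rfl this, sum_comm]
    refine sum_congr rfl fun a _ => ?_
    rw [sum_comm]
    refine sum_congr rfl fun a' _ => ?_
    exact (mul_sum _ _ _).symm
  have h5 : ∑ k ∈ K, ‖H k‖ ^ 2 ≤ ∑ a ∈ A, ∑ a' ∈ A, ‖G a‖ * ‖G a'‖ * D a a' := by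
    have h0 : 0 ≤ ∑ k ∈ K, ‖H k‖ ^ 2 := sum_nonneg fun _ _ => sq_nonneg _
    have : ∑ k ∈ K, ‖H k‖ ^ 2 = ‖((∑ k ∈ K, ‖H k‖ ^ 2 : ℝ) : ℂ)‖ := by
      rw [Complex.norm_real, Real.norm_eq_abs, abs_of_nonneg h0]
    rw [this, h4]
    refine (norm_sum_le _ _).trans (sum_le_sum fun a ha => ?_)
    refine (norm_sum_le _ _).trans (sum_le_sum fun a' ha' => ?_)
    rw [norm_mul, norm_mul, Complex.norm_conj]
    exact mul_le_mul_of_nonneg_left (hD a ha a' ha') (by positivity)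
  have h6 : ∑ a ∈ A, ∑ a' ∈ A, ‖G a‖ * ‖G a'‖ * D a a' ≤ R * S := by
    have hle : ∑ a ∈ A, ∑ a' ∈ A, ‖G a‖ * ‖G a'‖ * D a a' ≤
        ∑ a ∈ A, ∑ a' ∈ A, (‖G a‖ ^ 2 * D a a' / 2 + ‖G a'‖ ^ 2 * D a' a / 2) := by
      refine sum_le_sum fun a ha => sum_le_sum fun a' ha' => ?_
      have hD0 : 0 ≤ D a a' := (norm_nonneg _).trans (hD a ha a' ha')
      rw [hsym a' a]
      nlinarith [mul_nonneg hD0 (sq_nonneg (‖G a‖ - ‖G a'‖))]
    refine hle.trans ?_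
    simp only [sum_add_distrib]
    rw [sum_comm (f := fun a a' => ‖G a'‖ ^ 2 * D a' a / 2), ← sum_add_distrib, hS, mul_sum]
    refine sum_le_sum fun a ha => ?_
    rw [← sum_add_distrib]
    have : ∑ a' ∈ A, (‖G a‖ ^ 2 * D a a' / 2 + ‖G a‖ ^ 2 * D a a' / 2) =
        ‖G a‖ ^ 2 * ∑ a' ∈ A, D a a' := by
      rw [mul_sum]
      refine sum_congr rfl fun a' _ => ?_
      ring
    rw [this, mul_comm R]
    exact mul_le_mul_of_nonneg_left (hrow a ha) (sq_nonneg _)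
  have h7 : S * S ≤ (R * C) * S := by
    have : S ^ 2 ≤ (∑ k ∈ K, ‖γ k‖ * ‖H k‖) ^ 2 := pow_le_pow_left₀ hS0 h2 2
    have h8 : C * ∑ k ∈ K, ‖H k‖ ^ 2 ≤ C * (R * S) :=
      mul_le_mul_of_nonneg_left (h5.trans h6) hC0
    nlinarith
  rcases hS0.eq_or_lt with h | h
  · rw [← h]; positivity
  · exact le_of_mul_le_mul_right h7 h

/-- Telescoping geometric sum. -/
lemma sieve_geom (t : ℝ) (lo : ℤ) (n : ℕ) :
    (∑ k ∈ Ico lo (lo + n), ei (t * k)) * (ei t - 1) = ei (t * (lo + n)) - ei (t * lo) := by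
  induction n with
  | zero => simp
  | succ n ih =>
    have : Ico lo (lo + ((n + 1 : ℕ) : ℤ)) = insert (lo + n) (Ico lo (lo + n)) := by
      ext k; simp only [mem_Ico, mem_insert]; push_cast; omega
    rw [this, sum_insert (by simp), add_mul, ih, mul_sub, ← Bar.ei_add]
    push_cast
    ring_nf

lemma sieve_geom_le {x : ℝ} (h0 : 0 < |x|) (hx : |x| ≤ π) (n : ℕ) :
    ‖∑ k ∈ Ico (0 : ℤ) (0 + n), ei (x * k)‖ ≤ π / |x| := by
  have hpi := Real.pi_pos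
  have h2 := Bar.le_norm_ei_sub_one hx
  have h4 := congrArg norm (sieve_geom x 0 n)
  rw [norm_mul] at h4
  have h5 : ‖ei (x * ((0 : ℤ) + n)) - ei (x * (0 : ℤ))‖ ≤ 2 := by
    refine (norm_sub_le _ _).trans ?_
    rw [Bar.norm_ei, Bar.norm_ei]
    norm_num
  have h6 : ‖∑ k ∈ Ico (0 : ℤ) (0 + n), ei (x * k)‖ * (2 / π * |x|) ≤ 2 :=
    (mul_le_mul_of_nonneg_left h2 (norm_nonneg _)).trans (h4.le.trans h5)
  rw [div_mul_eq_mul_div, ← mul_div_assoc, div_le_iff₀ hpi] at h6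
  rw [le_div_iff₀ h0]
  linarith

lemma sieve_harm {ι : Type*} (T : Finset ι) (f : ι → ℝ) {Y : ℝ} (hY : 0 ≤ Y)
    (h1 : ∀ j ∈ T, 1 ≤ f j) (h2 : ∀ j ∈ T, f j ≤ Y)
    (h3 : ∀ j ∈ T, ∀ j' ∈ T, j ≠ j' → 1 ≤ |f j - f j'|) :
    ∑ j ∈ T, (f j)⁻¹ ≤ 1 + Real.log (1 + Y) := by
  have hinj : Set.InjOn (fun j => ⌊f j⌋₊) T := by
    intro j hj j' hj' h
    by_contra hne
    have a1 := h3 j hj j' hj' hne
    have a2 := Nat.floor_le (zero_le_one.trans (h1 j hj))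
    have a3 := Nat.floor_le (zero_le_one.trans (h1 j' hj'))
    have a4 := Nat.lt_floor_add_one (f j)
    have a5 := Nat.lt_floor_add_one (f j')
    have a6 : (⌊f j⌋₊ : ℝ) = ⌊f j'⌋₊ := by exact_mod_cast h
    exact absurd a1 (not_le.2 (abs_lt.2 ⟨by linarith, by linarith⟩))
  have hsub : T.image (fun j => ⌊f j⌋₊) ⊆ Icc 1 ⌊Y⌋₊ := by
    intro m hm
    obtain ⟨j, hj, rfl⟩ := mem_image.1 hm
    exact mem_Icc.2 ⟨(Nat.one_le_floor_iff _).2 (h1 j hj), Nat.floor_le_floor (h2 j hj)⟩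
  have h4 : ∑ j ∈ T, (f j)⁻¹ ≤ ∑ j ∈ T, ((⌊f j⌋₊ : ℕ) : ℝ)⁻¹ := by
    refine sum_le_sum fun j hj => inv_anti₀ ?_ (Nat.floor_le (zero_le_one.trans (h1 j hj)))
    exact_mod_cast (Nat.one_le_floor_iff _).2 (h1 j hj)
  have h5 : ∑ j ∈ T, ((⌊f j⌋₊ : ℕ) : ℝ)⁻¹ ≤ ∑ m ∈ Icc 1 ⌊Y⌋₊, (m : ℝ)⁻¹ := by
    rw [← sum_image (f := fun m : ℕ => (m : ℝ)⁻¹) hinj]
    exact sum_le_sum_of_subset_of_nonneg hsub fun _ _ _ => by positivity
  have h6 : ∑ m ∈ Icc 1 ⌊Y⌋₊, (m : ℝ)⁻¹ = ((harmonic ⌊Y⌋₊ : ℚ) : ℝ) := by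
    rw [harmonic_eq_sum_Icc]
    push_cast
    rfl
  have h7 : Real.log (⌊Y⌋₊ : ℕ) ≤ Real.log (1 + Y) := by
    rcases Nat.eq_zero_or_pos ⌊Y⌋₊ with h | h
    · rw [h, Nat.cast_zero, Real.log_zero]
      exact Real.log_nonneg (by linarith)
    · exact Real.log_le_log (by exact_mod_cast h) (by linarith [Nat.floor_le hY])
  linarith [harmonic_le_one_add_log ⌊Y⌋₊]

lemma sieve_side {ι : Type*} (T : Finset ι) (θ : ι → ℝ) (x : ℝ) {D : ℝ} (hD : 0 < D)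
    (h1 : ∀ j ∈ T, 1 ≤ D * |x - θ j|) (h2 : ∀ j ∈ T, |x - θ j| ≤ 3)
    (h3 : ∀ j ∈ T, ∀ j' ∈ T, j ≠ j' → 1 ≤ D * |θ j - θ j'|)
    (h4 : (∀ j ∈ T, θ j ≤ x) ∨ ∀ j ∈ T, x ≤ θ j) :
    ∑ j ∈ T, π / |x - θ j| ≤ π * D * (1 + Real.log (1 + 3 * D)) := by
  have h5 := sieve_harm T (fun j => D * |x - θ j|) (Y := 3 * D) (by positivity) h1
    (fun j hj => by nlinarith [h2 j hj]) fun j hj j' hj' hne => by
      refine (h3 j hj j' hj' hne).trans (le_of_eq ?_)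
      rw [← mul_sub, abs_mul, abs_of_pos hD]
      congr 1
      rcases h4 with h4 | h4
      · rw [abs_of_nonneg (sub_nonneg.2 (h4 j hj)), abs_of_nonneg (sub_nonneg.2 (h4 j' hj')),
          abs_sub_comm]
        congr 1
        ring
      · rw [abs_of_nonpos (sub_nonpos.2 (h4 j hj)), abs_of_nonpos (sub_nonpos.2 (h4 j' hj'))]
        congr 1
        ring
  refine le_trans (le_of_eq ?_) (mul_le_mul_of_nonneg_left h5 (mul_pos Real.pi_pos hD).le)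
  rw [mul_sum]
  refine sum_congr rfl fun j _ => ?_
  rw [mul_inv, mul_assoc, mul_inv_cancel_left₀ hD.ne', div_eq_mul_inv]

/-- Large sieve for well spaced points. Extend `K` to `Ico 0 n`, `n = ⌊H⌋₊ + 1`, by zero
coefficients; duality and the Schur test (copy `Bar.ls_dual` from `Bar/LS` with a general index
type); the geometric sum at `x = θ i - θ j`, `|x| ≤ 3 ≤ π`, is at most `2 / ‖ei x - 1‖ ≤ π / |x|`
(`Bar.ls_geom`, `Bar.le_norm_ei_sub_one`), on the diagonal it is `n ≤ H + 1`. For fixed `i` the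
numbers `⌊D |θ j - θ i|⌋₊` with `θ j > θ i` are distinct and lie in `[1, 3 D]`, the same on the
left side; so a row sum is at most `H + 1 + 2 π D (1 + log (1 + 3 D))`. -/
theorem sieve {ι : Type*} (S : Finset ι) (θ : ι → ℝ) {D H : ℝ} (hD : 0 < D) (hH : 0 ≤ H)
    (hθ : ∀ i ∈ S, |θ i| ≤ 3 / 2) (hsep : ∀ i ∈ S, ∀ j ∈ S, i ≠ j → 1 ≤ D * |θ i - θ j|)
    (K : Finset ℤ) (hK : InR K H) (c : ℤ → ℂ) :
    ∑ i ∈ S, ‖tp K c (θ i)‖ ^ 2 ≤
      (H + 1 + 7 * D * (1 + Real.log (1 + 3 * D))) * ∑ k ∈ K, ‖c k‖ ^ 2 := by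
  classical
  have hlog : 0 ≤ 1 + Real.log (1 + 3 * D) := by
    linarith [Real.log_nonneg (show 1 ≤ 1 + 3 * D by linarith)]
  have h3 : ∀ i ∈ S, ∀ j ∈ S, |θ i - θ j| ≤ 3 := fun i hi j hj => by
    linarith [abs_sub (θ i) (θ j), hθ i hi, hθ j hj]
  set n : ℕ := ⌊H⌋₊ + 1 with hn
  have hnH : (n : ℝ) ≤ H + 1 := by
    rw [hn]
    push_cast
    linarith [Nat.floor_le hH]
  have hsub : K ⊆ Ico (0 : ℤ) (0 + n) := fun k hk => by
    have a1 := hK k hk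
    have a2 : (k : ℝ) < n := by
      rw [hn]
      push_cast
      linarith [Nat.lt_floor_add_one H, a1.2]
    exact mem_Ico.2 ⟨a1.1, by rw [zero_add]; exact_mod_cast a2⟩
  have hmain := sieve_dual S (Ico (0 : ℤ) (0 + n)) (fun i k => ei (k * θ i))
    (fun k => if k ∈ K then c k else 0) (fun i j => if i = j then H + 1 else π / |θ i - θ j|)
    (H + 1 + 7 * D * (1 + Real.log (1 + 3 * D))) (by positivity)
    (fun i j => by simp only [eq_comm, abs_sub_comm]) ?_ ?_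
  · have a1 : ∀ i, ∑ k ∈ Ico (0 : ℤ) (0 + n), (if k ∈ K then c k else 0) * ei (k * θ i) =
        tp K c (θ i) := fun i => by
      rw [tp, ← sum_subset hsub fun k _ hk => by rw [if_neg hk, zero_mul]]
      exact sum_congr rfl fun k hk => by rw [if_pos hk]
    have a2 : ∑ k ∈ Ico (0 : ℤ) (0 + n), ‖if k ∈ K then c k else 0‖ ^ 2 =
        ∑ k ∈ K, ‖c k‖ ^ 2 := by
      rw [← sum_subset hsub fun k _ hk => by rw [if_neg hk, norm_zero, sq, mul_zero]]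
      exact sum_congr rfl fun k hk => by rw [if_pos hk]
    simpa only [a1, a2] using hmain
  · intro i hi j hj
    have a1 : ∀ k ∈ Ico (0 : ℤ) (0 + n), ei (k * θ i) * (starRingEnd ℂ) (ei (k * θ j)) =
        ei ((θ i - θ j) * k) := fun k _ => by
      rw [Bar.conj_ei, ← Bar.ei_add]
      congr 1
      ring
    rw [sum_congr rfl a1]
    split_ifs with h
    · refine (norm_sum_le _ _).trans (le_trans (le_of_eq ?_) hnH)
      simp [Bar.norm_ei]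
    · refine sieve_geom_le ?_ ((h3 i hi j hj).trans Real.pi_gt_three.le) n
      exact (mul_pos_iff_of_pos_left hD).1 (one_pos.trans_le (hsep i hi j hj h))
  · intro i hi
    rw [← add_sum_erase _ _ hi, if_pos rfl,
      sum_congr rfl fun j hj => if_neg (ne_of_mem_erase hj).symm,
      ← sum_filter_add_sum_filter_not (S.erase i) fun j => θ j ≤ θ i]
    have a1 : ∀ T : Finset ι, T ⊆ S.erase i → ((∀ j ∈ T, θ j ≤ θ i) ∨ ∀ j ∈ T, θ i ≤ θ j) →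
        ∑ j ∈ T, π / |θ i - θ j| ≤ π * D * (1 + Real.log (1 + 3 * D)) := fun T hT h =>
      sieve_side T θ (θ i) hD
        (fun j hj => hsep i hi j (mem_of_mem_erase (hT hj)) (ne_of_mem_erase (hT hj)).symm)
        (fun j hj => h3 i hi j (mem_of_mem_erase (hT hj)))
        (fun j hj j' hj' => hsep j (mem_of_mem_erase (hT hj)) j' (mem_of_mem_erase (hT hj'))) h
    have a2 := a1 _ (filter_subset (fun j => θ j ≤ θ i) _) (Or.inl fun j hj => (mem_filter.1 hj).2)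
    have a3 := a1 _ (filter_subset (fun j => ¬θ j ≤ θ i) _)
      (Or.inr fun j hj => (not_le.1 (mem_filter.1 hj).2).le)
    have a4 : π * (D * (1 + Real.log (1 + 3 * D))) ≤ 7 / 2 * (D * (1 + Real.log (1 + 3 * D))) :=
      mul_le_mul_of_nonneg_right (by linarith [Real.pi_lt_d2]) (by positivity)
    linarith

end Pool.Agent.Lib.MP_ecd12e_nt.Sch
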